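import Pool.Agent.Work.MP_3e8c7a_un.Interface
import Pool.Agent.Work.MP_3e8c7a_k.B_COD

/-! Block CLO: closeness on bounded codimension gives `Iso` (helper47). -/

set_option autoImplicit false

namespace Pool.UN

open Module Pool.Agent.MP3e8c7a

theorem p_CLO : Stmt_CLO := by
  intro D K hD
  have hcod := Pool.Agent.MP3e8c7ak.COD
  have hD2 : 1 ≤ D * D := by nlinarith
  choose f hf1 hf2 using fun m : ℕ => hcod m (D * D) hD2
  have hfs : ∀ m ≤ K, f m ≤ ∑ j ∈ Finset.range (K + 1), f j := fun m hm =>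
    Finset.single_le_sum (f := f) (fun j _ => by linarith [hf1 j]) (Finset.mem_range.2 (by omega))
  refine ⟨∑ j ∈ Finset.range (K + 1), f j, (hf1 0).trans (hfs 0 (Nat.zero_le _)), ?_⟩
  intro V _ _ _ p r hp hr Y Λ hY hΛ hYb
  have hYn : finrank ℝ Y ≤ finrank ℝ V := Submodule.finrank_le Y
  have h0 : 0 < D * Λ := by positivity
  have h1 : Iso (D * Λ * (D / Λ)) (p.comp Y.subtype) (r.comp Y.subtype) := by
    refine Iso.of_bounds (LinearEquiv.refl ℝ Y) h0 (fun y => ?_) (fun y => ?_)
    · have := (hYb y y.2).1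
      show p (y : V) ≤ D * Λ * r (y : V)
      linarith
    · have := (hYb y y.2).2
      show r (y : V) ≤ D / Λ * p (y : V)
      rw [div_mul_eq_mul_div, le_div_iff₀ hΛ]
      linarith
  have h2 : D * Λ * (D / Λ) = D * D := by field_simp
  rw [h2] at h1
  exact (hf2 (finrank ℝ V - finrank ℝ Y) V V p r hp hr Y Y (by omega) (by omega) h1).mono
    (hfs _ (by omega))

end Pool.UN
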