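import Pool.Agent.Work.MP_3e8c7a_un.Interface

set_option autoImplicit false

namespace Pool.UN

open Module Pool.Agent.MP3e8c7a
open Pool.RG (FacE)
open Pool.RX (rad sgn)

/-- Extension by zero from `Fin g ≃ G` to `Fin N`. -/
def EUS_X {N g : ℕ} (G : Finset (Fin N)) (e : G ≃ Fin g) : (Fin g → ℝ) →ₗ[ℝ] (Fin N → ℝ) where
  toFun x := fun j => if h : j ∈ G then x (e ⟨j, h⟩) else 0
  map_add' x y := by
    funext j
    by_cases h : j ∈ G <;> simp [h]
  map_smul' c x := by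
    funext j
    by_cases h : j ∈ G <;> simp [h]

theorem EUS_X_in {N g : ℕ} (G : Finset (Fin N)) (e : G ≃ Fin g) (x : Fin g → ℝ) (j : Fin N) (h : j ∈ G) :
    EUS_X G e x j = x (e ⟨j, h⟩) := by
  change (if h : j ∈ G then x (e ⟨j, h⟩) else 0) = _
  rw [dif_pos h]

theorem EUS_X_out {N g : ℕ} (G : Finset (Fin N)) (e : G ≃ Fin g) (x : Fin g → ℝ) (j : Fin N) (h : j ∉ G) :
    EUS_X G e x j = 0 := by
  change (if h : j ∈ G then x (e ⟨j, h⟩) else 0) = _
  rw [dif_neg h]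

theorem EUS_X_symm {N g : ℕ} (G : Finset (Fin N)) (e : G ≃ Fin g) (x : Fin g → ℝ) (l : Fin g) :
    EUS_X G e x (e.symm l : Fin N) = x l := by
  rw [EUS_X_in G e x _ (e.symm l).2]
  congr 1
  exact e.apply_symm_apply l

theorem EUS_X_inj {N g : ℕ} (G : Finset (Fin N)) (e : G ≃ Fin g) : Function.Injective (EUS_X G e) := by
  intro x y h
  funext l
  rw [← EUS_X_symm G e x l, ← EUS_X_symm G e y l, h]

theorem EUS_X_sum {N g : ℕ} (G : Finset (Fin N)) (e : G ≃ Fin g) (x : Fin g → ℝ) :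
    ∑ j, |EUS_X G e x j| = ∑ l, |x l| := by
  classical
  have h1 : ∑ j ∈ G, |EUS_X G e x j| = ∑ j, |EUS_X G e x j| := by
    refine Finset.sum_subset (Finset.subset_univ G) ?_
    intro j _ hj
    rw [EUS_X_out G e x j hj, abs_zero]
  rw [← h1, ← Finset.sum_coe_sort G (fun j => |EUS_X G e x j|), ← Equiv.sum_comp e.symm]
  refine Finset.sum_congr rfl fun l _ => ?_
  rw [EUS_X_symm]

theorem EUS_X_ind {N g : ℕ} (G : Finset (Fin N)) (e : G ≃ Fin g) (A : Finset (Fin g)) :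
    ∃ A' : Finset (Fin N), A' ⊆ G ∧ A'.card = A.card ∧ EUS_X G e (ind A) = ind A' := by
  classical
  refine ⟨A.map ⟨fun l => (e.symm l : Fin N), fun a b h => e.symm.injective (Subtype.ext h)⟩, ?_, Finset.card_map _, ?_⟩
  · intro j hj
    rw [Finset.mem_map] at hj
    obtain ⟨l, _, rfl⟩ := hj
    exact (e.symm l).2
  · funext j
    by_cases h : j ∈ G
    · rw [EUS_X_in G e _ j h]
      unfold ind
      by_cases hA : e ⟨j, h⟩ ∈ A
      · rw [if_pos hA, if_pos]
        rw [Finset.mem_map]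
        refine ⟨e ⟨j, h⟩, hA, ?_⟩
        change ((e.symm (e ⟨j, h⟩) : G) : Fin N) = j
        rw [e.symm_apply_apply]
      · rw [if_neg hA, if_neg]
        rw [Finset.mem_map]
        rintro ⟨l, hl, hl2⟩
        apply hA
        have h3 : e.symm l = ⟨j, h⟩ := Subtype.ext hl2
        rw [← h3, e.apply_symm_apply]
        exact hl
    · rw [EUS_X_out G e _ j h]
      unfold ind
      rw [if_neg]
      rw [Finset.mem_map]
      rintro ⟨l, hl, hl2⟩
      apply h
      rw [← hl2]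
      exact (e.symm l).2

theorem EUS_X_unc {N g : ℕ} (G : Finset (Fin N)) (e : G ≃ Fin g) (u : Seminorm ℝ (Fin N → ℝ)) (hu : Unc u) :
    Unc (u.comp (EUS_X G e)) := by
  intro x y h
  change u (EUS_X G e x) ≤ u (EUS_X G e y)
  refine hu _ _ fun j => ?_
  by_cases hj : j ∈ G
  · rw [EUS_X_in G e x j hj, EUS_X_in G e y j hj]
    exact h _
  · rw [EUS_X_out G e x j hj, EUS_X_out G e y j hj]

/-- The norm of the Euclidean vector with given coordinates. -/
theorem EUS_norm {g : ℕ} (c : ℝ) (hc : 0 ≤ c) (x : Fin g → ℝ) :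
    ‖c • (WithLp.linearEquiv 2 ℝ (Fin g → ℝ)).symm x‖ = c * Real.sqrt (∑ l, x l ^ 2) := by
  rw [norm_smul, Real.norm_of_nonneg hc, EuclideanSpace.norm_eq]
  congr 2
  refine Finset.sum_congr rfl fun l _ => ?_
  rw [Real.norm_eq_abs, sq_abs]
  rfl

theorem p_EUS (h1 : Stmt_GRE) (h2 : Stmt_LVL) (h3 : Stmt_KSH) : Stmt_EUS := by
  classical
  intro η hη hη2
  obtain ⟨M₀, hM₀, hK⟩ := h3 η hη (by linarith)
  have hsη : 0 < Real.sqrt η := Real.sqrt_pos.2 hη
  have hsη1 : Real.sqrt η ≤ 1 := by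
    exact Real.sqrt_le_iff.2 ⟨by norm_num, by linarith⟩
  refine ⟨2 * M₀ / Real.sqrt η, ?_, ?_⟩
  · rw [le_div_iff₀ hsη]
    linarith
  intro N L u hN hL hu hlow hu1 hsum
  obtain ⟨G, hG, hGA⟩ := h1 N L η u hL hη (by linarith) hu hlow hu1
  have hN0 : (0 : ℝ) < N := by
    by_contra hc
    push Not at hc
    nlinarith
  have hN1 : 1 ≤ N := by exact_mod_cast hN0
  set g := G.card with hg
  have hgN : (N : ℝ) / 2 ≤ g := by nlinarith
  have hg0 : (0 : ℝ) < g := by linarith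
  have hgN' : (g : ℝ) ≤ N := by
    have h4 : G.card ≤ N := by
      have := Finset.card_le_univ G
      rwa [Fintype.card_fin] at this
    exact_mod_cast h4
  have hg1 : (1 : ℝ) ≤ g := by
    have : 1 ≤ g := by exact_mod_cast hg0
    exact_mod_cast this
  let e : G ≃ Fin g := G.equivFin
  let X := EUS_X G e
  have hUnc : Unc (u.comp X) := EUS_X_unc G e u hu
  have hsN : 0 < Real.sqrt N := Real.sqrt_pos.2 hN0
  have hsg : 0 < Real.sqrt g := Real.sqrt_pos.2 hg0
  -- upper estimate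
  have hup : ∀ x : Fin g → ℝ, u (X x) ≤ L / Real.sqrt η / Real.sqrt N * Real.sqrt (1 + Real.log g) * Real.sqrt (∑ j, x j ^ 2) := by
    intro x
    refine h2 g (L / Real.sqrt η / Real.sqrt N) (u.comp X) (by positivity) hUnc ?_ x
    intro A
    obtain ⟨A', hA', hc, hA2⟩ := EUS_X_ind G e A
    have h5 := hGA A' hA'
    have h6 : (u.comp X) (ind A) = u (ind A') := by
      change u (EUS_X G e (ind A)) = _
      rw [hA2]
    rw [h6]
    refine h5.trans (le_of_eq ?_)
    rw [hc, Real.sqrt_div (Nat.cast_nonneg _)]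
    ring
  -- Kashin
  obtain ⟨E₀, hE₀, hE₀K⟩ := hK g (by nlinarith)
  have hlo : ∀ x ∈ E₀, Real.sqrt g / (M₀ * N) * Real.sqrt (∑ j, x j ^ 2) ≤ u (X x) := by
    intro x hx
    have h5 := hE₀K x hx
    have h6 := hsum (X x)
    have h7 : ∑ j, |X x j| = ∑ l, |x l| := EUS_X_sum G e x
    rw [h7] at h6
    have h8 : Real.sqrt g * Real.sqrt (∑ j, x j ^ 2) ≤ M₀ * (N * u (X x)) :=
      h5.trans (mul_le_mul_of_nonneg_left h6 (by linarith))
    have h9 : 0 < M₀ * N := by positivity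
    rw [div_mul_eq_mul_div, div_le_iff₀ h9]
    calc Real.sqrt g * Real.sqrt (∑ j, x j ^ 2) ≤ M₀ * (N * u (X x)) := h8
      _ = u (X x) * (M₀ * N) := by ring
  refine ⟨E₀.map X, ?_, ?_⟩
  · have h5 : finrank ℝ (E₀.map X) = finrank ℝ E₀ :=
      (LinearEquiv.finrank_eq (Submodule.equivMapOfInjective X (EUS_X_inj G e) E₀)).symm
    rw [h5]
    refine le_trans ?_ hE₀
    nlinarith
  · let R : (Fin N → ℝ) →ₗ[ℝ] (Fin g → ℝ) := LinearMap.funLeft ℝ ℝ (fun l => (e.symm l : Fin N))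
    have hR : ∀ x, R (X x) = x := by
      intro x
      funext l
      exact EUS_X_symm G e x l
    let low : ℝ := Real.sqrt g / (M₀ * N)
    have hlow0 : 0 ≤ low := by positivity
    let T : (E₀.map X) →ₗ[ℝ] EuclideanSpace ℝ (Fin g) :=
      low • ((WithLp.linearEquiv 2 ℝ (Fin g → ℝ)).symm.toLinearMap ∘ₗ R ∘ₗ (E₀.map X).subtype)
    refine ⟨g, T, ?_⟩
    rintro ⟨z, hz⟩
    obtain ⟨x, hx, rfl⟩ := hz
    have hT : ‖T ⟨X x, ⟨x, hx, rfl⟩⟩‖ = low * Real.sqrt (∑ l, x l ^ 2) := by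
      have h6 : T ⟨X x, ⟨x, hx, rfl⟩⟩ = low • (WithLp.linearEquiv 2 ℝ (Fin g → ℝ)).symm (R (X x)) := rfl
      rw [h6, hR]
      exact EUS_norm low hlow0 x
    have hc : (u.comp (E₀.map X).subtype) ⟨X x, ⟨x, hx, rfl⟩⟩ = u (X x) := rfl
    constructor
    · change ‖T ⟨X x, ⟨x, hx, rfl⟩⟩‖ ≤ (u.comp (E₀.map X).subtype) ⟨X x, ⟨x, hx, rfl⟩⟩
      rw [hT, hc]
      exact hlo x hx
    · change (u.comp (E₀.map X).subtype) ⟨X x, ⟨x, hx, rfl⟩⟩ ≤ _ * ‖T ⟨X x, ⟨x, hx, rfl⟩⟩‖
      rw [hT, hc]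
      refine (hup x).trans ?_
      rw [← mul_assoc]
      refine mul_le_mul_of_nonneg_right ?_ (Real.sqrt_nonneg _)
      have hlog : Real.sqrt (1 + Real.log g) ≤ Real.sqrt (1 + Real.log N) :=
        Real.sqrt_le_sqrt (by linarith [Real.log_le_log hg0 hgN'])
      have hlogN : 0 ≤ Real.sqrt (1 + Real.log N) := Real.sqrt_nonneg _
      have hkey : Real.sqrt N ≤ 2 * Real.sqrt g := by
        have h8 : Real.sqrt N ≤ Real.sqrt (4 * g) := Real.sqrt_le_sqrt (by linarith)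
        have h9 : Real.sqrt (4 * g) = 2 * Real.sqrt g := by
          rw [show (4 : ℝ) * g = 2 ^ 2 * g by ring, Real.sqrt_mul (by positivity), Real.sqrt_sq (by norm_num)]
        rw [h9] at h8
        exact h8
      have hNN : Real.sqrt N * Real.sqrt N = N := Real.mul_self_sqrt hN0.le
      have e1 : 2 * M₀ / Real.sqrt η * L * Real.sqrt (1 + Real.log N) * low =
          L / Real.sqrt η / Real.sqrt N * Real.sqrt (1 + Real.log N) * (2 * Real.sqrt g / Real.sqrt N) := by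
        simp only [low]
        field_simp
        rw [Real.sq_sqrt hN0.le]
      rw [e1]
      have e2 : 1 ≤ 2 * Real.sqrt g / Real.sqrt N := by
        rw [le_div_iff₀ hsN]
        linarith
      calc L / Real.sqrt η / Real.sqrt N * Real.sqrt (1 + Real.log g)
          ≤ L / Real.sqrt η / Real.sqrt N * Real.sqrt (1 + Real.log N) :=
            mul_le_mul_of_nonneg_left hlog (by positivity)
        _ ≤ L / Real.sqrt η / Real.sqrt N * Real.sqrt (1 + Real.log N) * (2 * Real.sqrt g / Real.sqrt N) :=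
            le_mul_of_one_le_right (by positivity) e2

end Pool.UN
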