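import Pool.Agent.Work.MP_3e8c7a_un.Interface

/-!
# GRE: greedy removal of bad sets
-/

set_option autoImplicit false

namespace Pool.UN

open Module Pool.Agent.MP3e8c7a
open Pool.RG (FacE)
open Pool.RX (rad sgn)

theorem GRE_ind_empty {N : ℕ} : ind (∅ : Finset (Fin N)) = 0 := by
  funext j
  simp [ind]

theorem GRE_sum {N : ℕ} (L η : ℝ) (u : Seminorm ℝ (Fin N → ℝ)) (hL : 1 ≤ L) (hη : 0 < η) (hN : 0 < N)
    (hU : Unc u) (hLow : Low2 L u) (hu1 : u (fun _ => 1) ≤ 1) (F : Finset (Finset (Fin N)))
    (hd : ∀ A ∈ F, ∀ B ∈ F, A ≠ B → Disjoint A B)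
    (hb : ∀ A ∈ F, L / Real.sqrt η * Real.sqrt ((A.card : ℝ) / N) < u (ind A)) :
    ((F.biUnion id).card : ℝ) ≤ η * N := by
  classical
  have hN' : (0 : ℝ) < N := by exact_mod_cast hN
  have hsq : 0 < Real.sqrt η := Real.sqrt_pos.2 hη
  have hcard : (F.biUnion id).card = ∑ A ∈ F, A.card :=
    Finset.card_biUnion fun A hA B hB hAB => hd A hA B hB hAB
  have hne : ∀ A ∈ F, 1 ≤ A.card := by
    intro A hA
    by_contra h
    have h0 : A = ∅ := by
      rw [← Finset.card_eq_zero]; omega
    have h1 := hb A hA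
    rw [h0, GRE_ind_empty, map_zero] at h1
    simp at h1
  have hq : F.card ≤ N := by
    calc F.card = ∑ A ∈ F, 1 := by simp
      _ ≤ ∑ A ∈ F, A.card := Finset.sum_le_sum hne
      _ = (F.biUnion id).card := hcard.symm
      _ ≤ (Finset.univ : Finset (Fin N)).card := Finset.card_le_card (Finset.subset_univ _)
      _ = N := by simp
  let e : Fin F.card ≃ F := F.equivFin.symm
  let z : Fin F.card → Fin N → ℝ := fun l => ind (e l : Finset (Fin N))
  have hDis : Dis z := by
    intro s t hst j
    have h1 : (e s : Finset (Fin N)) ≠ e t := fun h => hst (e.injective (Subtype.ext h))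
    have h2 := hd _ (e s).2 _ (e t).2 h1
    by_cases hj : j ∈ (e s : Finset (Fin N))
    · right
      have : j ∉ (e t : Finset (Fin N)) := Finset.disjoint_left.1 h2 hj
      simp [z, ind, this]
    · left
      simp [z, ind, hj]
  have h1 := hLow F.card z hq hDis
  have hle : u (∑ l, z l) ≤ 1 := by
    refine (hU _ _ fun j => ?_).trans hu1
    rw [abs_one, Finset.sum_apply, abs_of_nonneg (Finset.sum_nonneg fun l _ => by
      simp only [z, ind]; split_ifs <;> norm_num)]
    by_cases h : ∃ s, j ∈ (e s : Finset (Fin N))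
    · obtain ⟨s, hs⟩ := h
      rw [Finset.sum_eq_single s]
      · simp [z, ind, hs]
      · intro t _ hts
        have h3 := hDis s t hts.symm j
        rcases h3 with h3 | h3
        · simp [z, ind, hs] at h3
        · exact h3
      · intro h; exact absurd (Finset.mem_univ _) h
    · push Not at h
      rw [Finset.sum_eq_zero]
      · norm_num
      · intro t _
        simp [z, ind, h t]
  have h2 : ∑ l, u (z l) ^ 2 = ∑ A ∈ F, u (ind A) ^ 2 := by
    rw [← Finset.sum_coe_sort F (fun A => u (ind A) ^ 2)]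
    exact Equiv.sum_comp e (fun A : F => u (ind (A : Finset (Fin N))) ^ 2)
  have h3 : ∑ A ∈ F, u (ind A) ^ 2 ≤ L ^ 2 := by
    rw [← h2]
    refine h1.trans ?_
    have h4 : u (∑ l, z l) ^ 2 ≤ 1 := by
      have h5 : 0 ≤ u (∑ l, z l) := apply_nonneg u _
      nlinarith
    nlinarith [sq_nonneg L]
  have h4 : ∀ A ∈ F, L ^ 2 / η * ((A.card : ℝ) / N) ≤ u (ind A) ^ 2 := by
    intro A hA
    have h5 := (hb A hA).le
    have h6 : 0 ≤ L / Real.sqrt η * Real.sqrt ((A.card : ℝ) / N) := by positivity
    have h7 := pow_le_pow_left₀ h6 h5 2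
    rw [mul_pow, div_pow, Real.sq_sqrt hη.le, Real.sq_sqrt (by positivity)] at h7
    exact h7
  have h5 : L ^ 2 / η * (((F.biUnion id).card : ℝ) / N) ≤ L ^ 2 := by
    rw [hcard]
    push_cast
    rw [Finset.sum_div, Finset.mul_sum]
    exact (Finset.sum_le_sum h4).trans h3
  have hL2 : 0 < L ^ 2 := by positivity
  have h6 : L ^ 2 / η * (((F.biUnion id).card : ℝ) / N) =
      L ^ 2 * (((F.biUnion id).card : ℝ) / (η * N)) := by
    field_simp
  rw [h6] at h5
  have h7 : ((F.biUnion id).card : ℝ) / (η * N) ≤ 1 := by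
    by_contra hcon
    push Not at hcon
    nlinarith
  rwa [div_le_one (by positivity)] at h7

theorem p_GRE : Stmt_GRE := by
  classical
  intro N L η u hL hη hη1 hU hLow hu1
  rcases Nat.eq_zero_or_pos N with rfl | hN
  · refine ⟨∅, by simp, fun A hA => ?_⟩
    rw [Finset.subset_empty.1 hA, GRE_ind_empty, map_zero]
    positivity
  let P : Finset (Finset (Fin N)) → Prop := fun F =>
    (∀ A ∈ F, ∀ B ∈ F, A ≠ B → Disjoint A B) ∧
    (∀ A ∈ F, L / Real.sqrt η * Real.sqrt ((A.card : ℝ) / N) < u (ind A))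
  have hne : (Finset.univ.filter P).Nonempty := ⟨∅, by simp [P]⟩
  obtain ⟨F, hF, hmax⟩ := Finset.exists_max_image (Finset.univ.filter P) Finset.card hne
  have hFP : P F := (Finset.mem_filter.1 hF).2
  refine ⟨(F.biUnion id)ᶜ, ?_, ?_⟩
  · have h1 := GRE_sum L η u hL hη hN hU hLow hu1 F hFP.1 hFP.2
    rw [Finset.card_compl, Fintype.card_fin, Nat.cast_sub]
    · linarith
    · simpa using Finset.card_le_card (Finset.subset_univ (F.biUnion id))
  · intro A hA
    by_contra hcon
    push Not at hcon
    have hAne : A ≠ ∅ := by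
      rintro rfl
      rw [GRE_ind_empty, map_zero] at hcon
      simp at hcon
    have hdis : ∀ B ∈ F, Disjoint A B := by
      intro B hB
      rw [Finset.disjoint_left]
      intro j hj hjB
      have h2 := hA hj
      rw [Finset.mem_compl] at h2
      exact h2 (Finset.mem_biUnion.2 ⟨B, hB, hjB⟩)
    have hAF : A ∉ F := by
      intro h
      have h2 := hdis A h
      rw [disjoint_self] at h2
      exact hAne h2
    have hP : P (insert A F) := by
      constructor
      · intro B hB C hC hBC
        rw [Finset.mem_insert] at hB hC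
        rcases hB with rfl | hB <;> rcases hC with rfl | hC
        · exact absurd rfl hBC
        · exact hdis C hC
        · exact (hdis B hB).symm
        · exact hFP.1 B hB C hC hBC
      · intro B hB
        rw [Finset.mem_insert] at hB
        rcases hB with rfl | hB
        · exact hcon
        · exact hFP.2 B hB
    have h3 := hmax (insert A F) (Finset.mem_filter.2 ⟨Finset.mem_univ _, hP⟩)
    rw [Finset.card_insert_of_notMem hAF] at h3
    omega

end Pool.UN
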