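import Pool.Agent.Work.MP_3e8c7a_un.Interface

set_option autoImplicit false

namespace Pool.UN

open Module Pool.Agent.MP3e8c7a
open Pool.RG (FacE)
open Pool.RX (rad sgn)

theorem KSH_num1 (g : ℕ) : Real.Gamma ((g : ℝ) / 2 + 1) ≤ Real.sqrt (g.factorial : ℝ) := by
  have h := Real.Gamma_mul_add_mul_le_rpow_Gamma_mul_rpow_Gamma (s := 1) (t := (g : ℝ) + 1) (a := 1 / 2) (b := 1 / 2)
    one_pos (by positivity) (by norm_num) (by norm_num) (by norm_num)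
  rw [Real.Gamma_nat_eq_factorial, Real.Gamma_one, Real.one_rpow, one_mul, ← Real.sqrt_eq_rpow] at h
  have e : (1 : ℝ) / 2 * 1 + 1 / 2 * ((g : ℝ) + 1) = (g : ℝ) / 2 + 1 := by ring
  rw [e] at h
  exact h

theorem KSH_num2 (g : ℕ) : (g : ℝ) ^ g ≤ (g.factorial : ℝ) * Real.pi ^ g := by
  have h1 := Real.pow_div_factorial_le_exp (x := (g : ℝ)) (Nat.cast_nonneg g) g
  have hf : (0 : ℝ) < g.factorial := by exact_mod_cast Nat.factorial_pos g
  rw [div_le_iff₀ hf] at h1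
  have h2 : Real.exp (g : ℝ) = Real.exp 1 ^ g := by
    rw [← Real.exp_nat_mul, mul_one]
  have h3 : Real.exp 1 ≤ Real.pi := by
    have := Real.exp_one_lt_d9
    have := Real.pi_gt_three
    linarith
  have h4 : Real.exp 1 ^ g ≤ Real.pi ^ g := pow_le_pow_left₀ (Real.exp_pos 1).le h3 g
  rw [h2] at h1
  calc (g : ℝ) ^ g ≤ Real.exp 1 ^ g * g.factorial := h1
    _ ≤ Real.pi ^ g * g.factorial := mul_le_mul_of_nonneg_right h4 hf.le
    _ = _ := mul_comm _ _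

theorem KSH_sp (a : ℝ) (ha : 0 ≤ a) (n : ℕ) : Real.sqrt a ^ n = Real.sqrt (a ^ n) := by
  symm
  rw [Real.sqrt_eq_iff_mul_self_eq (pow_nonneg ha n) (pow_nonneg (Real.sqrt_nonneg a) n), ← mul_pow,
    Real.mul_self_sqrt ha]

theorem KSH_num (g : ℕ) : Real.sqrt g ^ g * (2 ^ g / Real.Gamma ((g : ℝ) + 1)) ≤
    2 ^ g * (Real.sqrt Real.pi ^ g / Real.Gamma ((g : ℝ) / 2 + 1)) := by
  have hf : (0 : ℝ) < g.factorial := by exact_mod_cast Nat.factorial_pos g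
  have hG : 0 < Real.Gamma ((g : ℝ) / 2 + 1) := Real.Gamma_pos_of_pos (by positivity)
  rw [Real.Gamma_nat_eq_factorial]
  have h1 : Real.sqrt g ^ g = Real.sqrt ((g : ℝ) ^ g) := KSH_sp (g : ℝ) (Nat.cast_nonneg g) g
  have h2 : Real.sqrt Real.pi ^ g = Real.sqrt (Real.pi ^ g) := KSH_sp Real.pi Real.pi_pos.le g
  have h3 : Real.sqrt ((g : ℝ) ^ g) ≤ Real.sqrt (g.factorial : ℝ) * Real.sqrt (Real.pi ^ g) := by
    rw [← Real.sqrt_mul hf.le]
    exact Real.sqrt_le_sqrt (KSH_num2 g)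
  have h4 : Real.sqrt g ^ g * Real.Gamma ((g : ℝ) / 2 + 1) ≤ Real.sqrt Real.pi ^ g * g.factorial := by
    rw [h1, h2]
    calc Real.sqrt ((g : ℝ) ^ g) * Real.Gamma ((g : ℝ) / 2 + 1) ≤
          (Real.sqrt (g.factorial : ℝ) * Real.sqrt (Real.pi ^ g)) * Real.sqrt (g.factorial : ℝ) := by
          apply mul_le_mul h3 (KSH_num1 g) hG.le
          positivity
      _ = Real.sqrt (Real.pi ^ g) * (Real.sqrt (g.factorial : ℝ) * Real.sqrt (g.factorial : ℝ)) := by ring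
      _ = _ := by rw [Real.mul_self_sqrt hf.le]
  have h5 : Real.sqrt g ^ g / g.factorial ≤ Real.sqrt Real.pi ^ g / Real.Gamma ((g : ℝ) / 2 + 1) := by
    rw [div_le_div_iff₀ hf hG]
    exact h4
  calc Real.sqrt g ^ g * (2 ^ g / (g.factorial : ℝ)) = 2 ^ g * (Real.sqrt g ^ g / g.factorial) := by ring
    _ ≤ _ := mul_le_mul_of_nonneg_left h5 (by positivity)

/-- The seminorm. -/
noncomputable def KSH_p (g : ℕ) : Seminorm ℝ (EuclideanSpace ℝ (Fin g)) where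
  toFun x := (∑ j, |x j|) / Real.sqrt g
  map_zero' := by simp
  add_le' x y := by
    rw [← add_div]
    apply div_le_div_of_nonneg_right _ (Real.sqrt_nonneg _)
    rw [← Finset.sum_add_distrib]
    exact Finset.sum_le_sum fun j _ => abs_add_le _ _
  neg' x := by simp
  smul' c x := by
    simp only [PiLp.smul_apply, smul_eq_mul, abs_mul, Real.norm_eq_abs]
    rw [← Finset.mul_sum, mul_div_assoc]

theorem KSH_p_apply (g : ℕ) (x : EuclideanSpace ℝ (Fin g)) : KSH_p g x = (∑ j, |x j|) / Real.sqrt g := rfl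

theorem KSH_vol (g : ℕ) (hg : 1 ≤ g) :
    MeasureTheory.volume {x : EuclideanSpace ℝ (Fin g) | KSH_p g x ≤ 1} ≤
      ENNReal.ofReal ((2 : ℝ) ^ g) * MeasureTheory.volume (Metric.closedBall (0 : EuclideanSpace ℝ (Fin g)) 1) := by
  have : Nonempty (Fin g) := ⟨⟨0, by omega⟩⟩
  have hgs : 0 < Real.sqrt g := Real.sqrt_pos.mpr (by exact_mod_cast hg)
  have h1 : {x : EuclideanSpace ℝ (Fin g) | KSH_p g x ≤ 1} =
      (@WithLp.ofLp 2 (Fin g → ℝ)) ⁻¹' {x : Fin g → ℝ | (∑ i, |x i| ^ (1 : ℝ)) ^ (1 / (1 : ℝ)) ≤ Real.sqrt g} := by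
    ext x
    simp only [Set.mem_ofPred_eq, Set.mem_preimage, Real.rpow_one, div_one]
    rw [KSH_p_apply, div_le_one hgs]
  have hclosed : IsClosed {x : Fin g → ℝ | (∑ i, |x i| ^ (1 : ℝ)) ^ (1 / (1 : ℝ)) ≤ Real.sqrt g} := by
    simp only [Real.rpow_one, div_one]
    exact isClosed_le (by fun_prop) continuous_const
  have h2 : MeasureTheory.volume {x : EuclideanSpace ℝ (Fin g) | KSH_p g x ≤ 1} =
      MeasureTheory.volume {x : Fin g → ℝ | (∑ i, |x i| ^ (1 : ℝ)) ^ (1 / (1 : ℝ)) ≤ Real.sqrt g} := by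
    rw [h1]
    exact (PiLp.volume_preserving_ofLp (ι := Fin g)).measure_preimage hclosed.measurableSet.nullMeasurableSet
  have h3 := MeasureTheory.volume_sum_rpow_le (ι := Fin g) (p := 1) le_rfl (Real.sqrt g)
  rw [h2]
  refine (le_of_eq h3).trans ?_
  rw [EuclideanSpace.volume_closedBall, Fintype.card_fin, div_one, div_one, ENNReal.ofReal_one, one_pow, one_mul]
  have hG2 : Real.Gamma (1 + 1) = 1 := by
    rw [show (1 : ℝ) + 1 = 2 by norm_num, Real.Gamma_two]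
  rw [hG2, mul_one, ← ENNReal.ofReal_pow (Real.sqrt_nonneg _), ← ENNReal.ofReal_mul (by positivity),
    ← ENNReal.ofReal_mul (by positivity)]
  exact ENNReal.ofReal_le_ofReal (KSH_num g)

theorem KSH_norm (g : ℕ) (x : EuclideanSpace ℝ (Fin g)) : ‖x‖ = Real.sqrt (∑ j, x j ^ 2) := by
  rw [EuclideanSpace.norm_eq]
  congr 1
  exact Finset.sum_congr rfl fun j _ => by rw [Real.norm_eq_abs, sq_abs]

theorem KSH_cs (g : ℕ) (hg : 1 ≤ g) (x : EuclideanSpace ℝ (Fin g)) : KSH_p g x ≤ ‖x‖ := by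
  have hgs : 0 < Real.sqrt g := Real.sqrt_pos.mpr (by exact_mod_cast hg)
  rw [KSH_p_apply, div_le_iff₀ hgs, KSH_norm]
  have h := Real.sum_mul_le_sqrt_mul_sqrt Finset.univ (fun j => |x j|) (fun _ : Fin g => (1 : ℝ))
  simp only [mul_one, sq_abs, one_pow, Finset.sum_const, Finset.card_univ, Fintype.card_fin, nsmul_eq_mul] at h
  exact h

theorem p_KSH (h1 : Stmt_VRK) : Stmt_KSH := by
  intro η hη hη1
  obtain ⟨M, hM, h⟩ := h1 η 2 hη hη1 one_le_two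
  refine ⟨M, hM, fun g hg => ?_⟩
  have hg1 : 1 ≤ g := by
    by_contra hh
    have : g = 0 := by omega
    subst this
    norm_num at hg
  have hgs : 0 < Real.sqrt g := Real.sqrt_pos.mpr (by exact_mod_cast hg1)
  obtain ⟨E, hE, hE2⟩ := h g (KSH_p g) hg (KSH_cs g hg1) (KSH_vol g hg1)
  obtain ⟨e, he⟩ : ∃ e : EuclideanSpace ℝ (Fin g) ≃ₗ[ℝ] (Fin g → ℝ), e = WithLp.linearEquiv 2 ℝ (Fin g → ℝ) := ⟨_, rfl⟩
  refine ⟨E.map (e : EuclideanSpace ℝ (Fin g) →ₗ[ℝ] (Fin g → ℝ)), ?_, ?_⟩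
  · rw [LinearEquiv.finrank_map_eq e E]
    exact hE
  · rintro x ⟨y, hy, rfl⟩
    have h3 := hE2 y hy
    rw [KSH_norm, KSH_p_apply] at h3
    have h4 : ∀ j, (e : EuclideanSpace ℝ (Fin g) →ₗ[ℝ] (Fin g → ℝ)) y j = y j := by
      intro j
      rw [he]
      rfl
    simp only [h4]
    rw [← mul_div_assoc, le_div_iff₀ hgs] at h3
    linarith

end Pool.UN
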