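import Pool.Agent.Work.MP_3e8c7a_un.Interface

set_option autoImplicit false

namespace Pool.UN

open Module Pool.Agent.MP3e8c7a
open Pool.RG (FacE)
open Pool.RX (rad sgn)

theorem LOZ_le {k : ℕ} (ρ : Seminorm ℝ (Fin k → ℝ)) (z : Fin k → ℝ) :
    ρ z ≤ ‖z‖ * ∑ t, ρ (Pi.single t 1) := by
  have e : z = ∑ t, z t • (Pi.single t (1 : ℝ) : Fin k → ℝ) := by
    funext j
    rw [Finset.sum_apply]
    simp only [Pi.smul_apply, Pi.single_apply, smul_eq_mul, mul_ite, mul_one, mul_zero]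
    rw [Finset.sum_ite_eq]
    simp only [Finset.mem_univ, if_true]
  conv_lhs => rw [e]
  refine (Finset.le_sum_of_subadditive ρ (map_zero ρ).le (map_add_le_add ρ) _ _).trans ?_
  rw [Finset.mul_sum]
  apply Finset.sum_le_sum
  intro t _
  rw [map_smul_eq_mul]
  exact mul_le_mul_of_nonneg_right (norm_le_pi_norm z t) (apply_nonneg ρ _)

theorem LOZ_cont {k : ℕ} (ρ : Seminorm ℝ (Fin k → ℝ)) : Continuous ρ := by
  obtain ⟨R, hR⟩ : ∃ R : ℝ, R = ∑ t, ρ (Pi.single t 1) := ⟨_, rfl⟩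
  have hR0 : 0 ≤ R := by
    rw [hR]
    exact Finset.sum_nonneg fun t _ => apply_nonneg ρ _
  have h : LipschitzWith (Real.toNNReal R) ρ := by
    apply LipschitzWith.of_dist_le_mul
    intro x y
    rw [Real.coe_toNNReal R hR0, Real.dist_eq, dist_eq_norm]
    have h1 : |ρ x - ρ y| ≤ ρ (x - y) := abs_sub_map_le_sub ρ x y
    have h2 := LOZ_le ρ (x - y)
    rw [mul_comm, hR]
    exact h1.trans h2
  exact h.continuous

theorem LOZ_prod {N : ℕ} (s : Finset (Fin N)) (f : Fin N → ℝ) (hf : ∀ j, 0 ≤ f j) :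
    1 + ∑ j ∈ s, f j ≤ ∏ j ∈ s, (1 + f j) := by
  classical
  induction s using Finset.induction_on with
  | empty => simp
  | insert a s ha ih =>
    rw [Finset.sum_insert ha, Finset.prod_insert ha]
    have h1 : 0 ≤ ∑ j ∈ s, f j := Finset.sum_nonneg fun j _ => hf j
    have h2 : (1 + f a) * (1 + ∑ j ∈ s, f j) ≤ (1 + f a) * ∏ j ∈ s, (1 + f j) :=
      mul_le_mul_of_nonneg_left ih (by linarith [hf a])
    nlinarith [mul_nonneg (hf a) h1]

theorem LOZ_lim (N : ℕ) (a b : ℝ) (hb : 0 ≤ b) (h : ∀ s : ℝ, 0 < s → 1 + s * a ≤ (1 + s * b) ^ N) : a ≤ N * b := by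
  have hNb : 0 ≤ (N : ℝ) * b := mul_nonneg (Nat.cast_nonneg N) hb
  apply le_of_forall_pos_le_add
  intro ε hε
  obtain ⟨s, hs⟩ : ∃ s : ℝ, s = min (1 / (N * b + 1)) (ε / ((N * b) ^ 2 + 1)) := ⟨_, rfl⟩
  have hs0 : 0 < s := by
    rw [hs]
    exact lt_min (by positivity) (by positivity)
  have hs1 : s * (N * b) ≤ 1 := by
    have h1 : s ≤ 1 / (N * b + 1) := by
      rw [hs]
      exact min_le_left _ _
    rw [le_div_iff₀ (by positivity)] at h1
    nlinarith
  have hs2 : s * (N * b) ^ 2 ≤ ε := by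
    have h1 : s ≤ ε / ((N * b) ^ 2 + 1) := by
      rw [hs]
      exact min_le_right _ _
    rw [le_div_iff₀ (by positivity)] at h1
    nlinarith
  have h1 := h s hs0
  have h2 : (1 + s * b) ^ N ≤ Real.exp (s * (N * b)) := by
    have h3 : 1 + s * b ≤ Real.exp (s * b) := by linarith [Real.add_one_le_exp (s * b)]
    have h4 : (1 + s * b) ^ N ≤ Real.exp (s * b) ^ N := pow_le_pow_left₀ (by positivity) h3 N
    rw [← Real.exp_nat_mul] at h4
    have h5 : (N : ℝ) * (s * b) = s * (N * b) := by ring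
    rw [h5] at h4
    exact h4
  have h3 : Real.exp (s * (N * b)) ≤ 1 + s * (N * b) + (s * (N * b)) ^ 2 := by
    have h4 := Real.abs_exp_sub_one_sub_id_le (x := s * (N * b)) (by
      rw [abs_of_nonneg (by positivity)]
      exact hs1)
    have h5 := (abs_le.mp h4).2
    linarith
  have h6 : s * a ≤ s * (N * b + ε) := by
    have h7 : (s * (N * b)) ^ 2 = s * (s * (N * b) ^ 2) := by ring
    have h8 : s * (s * (N * b) ^ 2) ≤ s * ε := mul_le_mul_of_nonneg_left hs2 hs0.le
    nlinarith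
  exact le_of_mul_le_mul_left h6 hs0

theorem p_LOZ : Stmt_LOZ := by
  intro N u hN hu hd
  classical
  obtain ⟨K, hK⟩ : ∃ K : Set (Fin N → ℝ), K = {w | (∀ j, 0 ≤ w j) ∧ u w ≤ 1} := ⟨_, rfl⟩
  have hcont := LOZ_cont u
  have he : ∀ j : Fin N, 0 < u (Pi.single j 1) := by
    intro j
    rcases (apply_nonneg u (Pi.single j (1 : ℝ))).lt_or_eq with h | h
    · exact h
    · exfalso
      have h0 := hd _ h.symm
      have h1 := congrFun h0 j
      simp at h1
  have hclosed : IsClosed K := by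
    rw [hK]
    have h1 : {w : Fin N → ℝ | (∀ j, 0 ≤ w j) ∧ u w ≤ 1} = (⋂ j, {w : Fin N → ℝ | 0 ≤ w j}) ∩ {w | u w ≤ 1} := by
      ext w
      simp
    rw [h1]
    refine IsClosed.inter (isClosed_iInter fun j => isClosed_le continuous_const (continuous_apply j)) ?_
    exact isClosed_le hcont continuous_const
  have hsub : K ⊆ Set.Icc (0 : Fin N → ℝ) (fun j => (u (Pi.single j 1))⁻¹) := by
    intro w hw
    rw [hK] at hw
    refine ⟨fun j => hw.1 j, fun j => ?_⟩
    have h1 : u (Pi.single j (w j)) ≤ u w := by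
      apply hu
      intro i
      by_cases hij : i = j
      · subst hij
        simp
      · simp [Pi.single_apply, hij]
    have h2 : (Pi.single j (w j) : Fin N → ℝ) = w j • Pi.single j (1 : ℝ) := by
      funext i
      simp [Pi.single_apply]
    rw [h2, map_smul_eq_mul, Real.norm_eq_abs, abs_of_nonneg (hw.1 j)] at h1
    have h3 : w j * u (Pi.single j 1) ≤ 1 := h1.trans hw.2
    show w j ≤ (u (Pi.single j 1))⁻¹
    rw [← one_div, le_div_iff₀ (he j)]
    exact h3
  have hcomp : IsCompact K := isCompact_Icc.of_isClosed_subset hclosed hsub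
  obtain ⟨c, hc⟩ : ∃ c : ℝ, c = (1 + u (fun _ => 1))⁻¹ := ⟨_, rfl⟩
  have hu1 : 0 ≤ u (fun _ => 1) := apply_nonneg u _
  have hc0 : 0 < c := by
    rw [hc]
    positivity
  have hw0 : (c • (fun _ => 1) : Fin N → ℝ) ∈ K := by
    rw [hK]
    refine ⟨fun j => ?_, ?_⟩
    · simp only [Pi.smul_apply, smul_eq_mul, mul_one]
      exact hc0.le
    · rw [map_smul_eq_mul, Real.norm_eq_abs, abs_of_pos hc0, hc, inv_mul_le_iff₀ (by positivity)]
      linarith
  obtain ⟨w, hwK, hwmax⟩ := hcomp.exists_isMaxOn ⟨_, hw0⟩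
    (f := fun w : Fin N → ℝ => ∏ j, w j) (Continuous.continuousOn (by fun_prop))
  have hmax : ∀ v ∈ K, ∏ j, v j ≤ ∏ j, w j := fun v hv => hwmax hv
  have hwK' : (∀ j, 0 ≤ w j) ∧ u w ≤ 1 := by
    rw [hK] at hwK
    exact hwK
  have hprod : 0 < ∏ j, w j := by
    refine lt_of_lt_of_le ?_ (hmax _ hw0)
    apply Finset.prod_pos
    intro j _
    simp only [Pi.smul_apply, smul_eq_mul, mul_one]
    exact hc0
  have hwpos : ∀ j, 0 < w j := by
    intro j
    rcases (hwK'.1 j).lt_or_eq with h | h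
    · exact h
    · exfalso
      rw [Finset.prod_eq_zero (Finset.mem_univ j) h.symm] at hprod
      exact lt_irrefl _ hprod
  refine ⟨w, hwpos, hwK'.2, ?_⟩
  intro x
  obtain ⟨y, hy⟩ : ∃ y : Fin N → ℝ, y = fun j => |x j| := ⟨_, rfl⟩
  have hy0 : ∀ j, 0 ≤ y j := fun j => by
    rw [hy]
    exact abs_nonneg _
  have hyu : u y ≤ u x := hu _ _ fun j => by
    rw [hy, abs_abs]
  have hb : 0 ≤ u y := apply_nonneg u y
  have key : ∑ j, y j / w j ≤ N * u y := by
    apply LOZ_lim N _ _ hb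
    intro s hs
    have hsb : 0 < 1 + s * u y := by positivity
    have hv : ((1 + s * u y)⁻¹ • (w + s • y)) ∈ K := by
      rw [hK]
      refine ⟨fun j => ?_, ?_⟩
      · simp only [Pi.smul_apply, Pi.add_apply, smul_eq_mul]
        exact mul_nonneg (inv_pos.mpr hsb).le (add_nonneg (hwpos j).le (mul_nonneg hs.le (hy0 j)))
      · rw [map_smul_eq_mul, Real.norm_eq_abs, abs_of_pos (inv_pos.mpr hsb), inv_mul_le_iff₀ hsb, mul_one]
        refine (map_add_le_add u _ _).trans ?_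
        rw [map_smul_eq_mul, Real.norm_eq_abs, abs_of_pos hs]
        linarith [hwK'.2]
    have h1 := hmax _ hv
    have h2 : ∏ j, ((1 + s * u y)⁻¹ • (w + s • y)) j = ((1 + s * u y)⁻¹) ^ N * ((∏ j, w j) * ∏ j, (1 + s * (y j / w j))) := by
      rw [← Finset.prod_mul_distrib]
      have h3 : ((1 + s * u y)⁻¹) ^ N = ∏ _j : Fin N, (1 + s * u y)⁻¹ := by
        rw [Finset.prod_const, Finset.card_univ, Fintype.card_fin]
      rw [h3, ← Finset.prod_mul_distrib]
      refine Finset.prod_congr rfl fun j _ => ?_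
      simp only [Pi.smul_apply, Pi.add_apply, smul_eq_mul]
      have := (hwpos j).ne'
      field_simp
    rw [h2] at h1
    have h4 : ∏ j, (1 + s * (y j / w j)) ≤ (1 + s * u y) ^ N := by
      rw [inv_pow, inv_mul_le_iff₀ (pow_pos hsb N)] at h1
      have h5 : (∏ j, w j) * ∏ j, (1 + s * (y j / w j)) ≤ (∏ j, w j) * (1 + s * u y) ^ N := by linarith
      exact le_of_mul_le_mul_left h5 hprod
    have h6 := LOZ_prod Finset.univ (fun j => s * (y j / w j)) (fun j => mul_nonneg hs.le (div_nonneg (hy0 j) (hwpos j).le))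
    rw [Finset.mul_sum]
    exact h6.trans h4
  have h7 : ∑ j, |x j| / w j = ∑ j, y j / w j := by rw [hy]
  rw [h7]
  exact key.trans (mul_le_mul_of_nonneg_left hyu (Nat.cast_nonneg N))

end Pool.UN
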