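import Pool.Agent.Work.MP_3e8c7a_un.Interface

set_option autoImplicit false

namespace Pool.UN

open Module Pool.Agent.MP3e8c7a
open Pool.RG (FacE)
open Pool.RX (rad sgn)

theorem LVL_abel (b t : ℕ → ℝ) (n : ℕ) :
    ∑ i ∈ Finset.range n, (b (i + 1) - b i) * t i =
      b n * t n - b 0 * t 0 + ∑ i ∈ Finset.range n, b (i + 1) * (t i - t (i + 1)) := by
  induction n with
  | zero => simp
  | succ n ih =>
    rw [Finset.sum_range_succ, Finset.sum_range_succ, ih]
    ring

theorem LVL_sqrt (n : ℕ) : Real.sqrt ((n + 1 : ℕ) : ℝ) - Real.sqrt (n : ℝ) ≤ (Real.sqrt ((n + 1 : ℕ) : ℝ))⁻¹ := by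
  have hn : (0 : ℝ) ≤ n := Nat.cast_nonneg n
  have h1 : (0 : ℝ) < ((n + 1 : ℕ) : ℝ) := by positivity
  have hs : 0 < Real.sqrt ((n + 1 : ℕ) : ℝ) := Real.sqrt_pos.mpr h1
  have hsq : Real.sqrt ((n + 1 : ℕ) : ℝ) * Real.sqrt ((n + 1 : ℕ) : ℝ) = n + 1 := by
    rw [Real.mul_self_sqrt h1.le]
    push_cast
    ring
  have hsn : Real.sqrt (n : ℝ) * Real.sqrt (n : ℝ) = n := Real.mul_self_sqrt hn
  have hle : Real.sqrt (n : ℝ) ≤ Real.sqrt ((n + 1 : ℕ) : ℝ) := by
    apply Real.sqrt_le_sqrt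
    push_cast
    linarith
  have h0 : 0 ≤ Real.sqrt (n : ℝ) := Real.sqrt_nonneg _
  rw [← one_div, le_div_iff₀ hs]
  nlinarith [mul_le_mul_of_nonneg_left hle h0]

theorem LVL_harm (g : ℕ) : ∑ i ∈ Finset.range g, ((Real.sqrt ((g - i : ℕ) : ℝ))⁻¹) ^ 2 ≤ 1 + Real.log g := by
  have h1 : ∑ i ∈ Finset.range g, ((Real.sqrt ((g - i : ℕ) : ℝ))⁻¹) ^ 2 = ∑ i ∈ Finset.range g, (((i + 1 : ℕ) : ℝ))⁻¹ := by
    rw [← Finset.sum_range_reflect]
    refine Finset.sum_congr rfl fun i hi => ?_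
    have hig : i < g := Finset.mem_range.mp hi
    have h2 : g - (g - 1 - i) = i + 1 := by omega
    rw [h2, inv_pow, Real.sq_sqrt (by positivity)]
  rw [h1]
  have h3 := harmonic_le_one_add_log g
  rw [harmonic] at h3
  push_cast at h3 ⊢
  exact h3

theorem LVL_sub {N : ℕ} (u : Seminorm ℝ (Fin N → ℝ)) (s : Finset ℕ) (f : ℕ → Fin N → ℝ) :
    u (∑ i ∈ s, f i) ≤ ∑ i ∈ s, u (f i) := by
  classical
  induction s using Finset.induction_on with
  | empty => simp
  | insert a s ha ih =>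
    rw [Finset.sum_insert ha, Finset.sum_insert ha]
    exact (map_add_le_add u _ _).trans (by linarith)

theorem p_LVL : Stmt_LVL := by
  intro g κ u hκ hu hind x
  classical
  obtain ⟨σ, hσ⟩ : ∃ σ : Equiv.Perm (Fin g), σ = Tuple.sort (fun j => |x j|) := ⟨_, rfl⟩
  have hmon : Monotone ((fun j => |x j|) ∘ σ) := by
    rw [hσ]
    exact Tuple.monotone_sort _
  obtain ⟨al, hal⟩ : ∃ al : ℕ → ℝ, al = fun i => if h : i < g then |x (σ ⟨i, h⟩)| else 0 := ⟨_, rfl⟩
  obtain ⟨b, hb⟩ : ∃ b : ℕ → ℝ, b = fun i => Nat.casesOn i 0 al := ⟨_, rfl⟩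
  have hb0 : b 0 = 0 := by subst hb; rfl
  have hbs : ∀ i, b (i + 1) = al i := fun i => by subst hb; rfl
  have halx : ∀ i (h : i < g), al i = |x (σ ⟨i, h⟩)| := fun i h => by
    rw [hal]
    simp [h]
  have hstep : ∀ i, i < g → 0 ≤ b (i + 1) - b i := by
    intro i hi
    cases i with
    | zero =>
      rw [hb0, hbs, halx 0 hi]
      simp
    | succ i =>
      rw [hbs, hbs, halx _ hi, halx i (by omega)]
      have := hmon (show (⟨i, by omega⟩ : Fin g) ≤ ⟨i + 1, hi⟩ from by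
        rw [Fin.mk_le_mk]
        omega)
      simp only [Function.comp] at this
      linarith
  obtain ⟨A, hA⟩ : ∃ A : ℕ → Finset (Fin g), A = fun i => Finset.univ.filter fun j => i ≤ (σ.symm j : ℕ) := ⟨_, rfl⟩
  have hAc : ∀ i, (A i).card ≤ g - i := by
    intro i
    have h1 : (A i).card ≤ (Finset.Ico i g).card := by
      apply Finset.card_le_card_of_injOn (fun j => (σ.symm j : ℕ))
      · intro j hj
        rw [hA] at hj
        simp only [Finset.coe_filter, Finset.mem_univ, true_and, Set.mem_ofPred_eq] at hj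
        simp only [Finset.coe_Ico, Set.mem_Ico]
        exact ⟨hj, (σ.symm j).2⟩
      · intro j _ j' _ hjj
        exact σ.symm.injective (Fin.ext hjj)
    simpa using h1
  obtain ⟨t, ht⟩ : ∃ t : ℕ → ℝ, t = fun i => Real.sqrt ((g - i : ℕ) : ℝ) := ⟨_, rfl⟩
  have htg : t g = 0 := by
    rw [ht]
    simp
  have habs : (fun j => |x j|) = ∑ i ∈ Finset.range g, (b (i + 1) - b i) • ind (A i) := by
    funext j
    rw [Finset.sum_apply]
    have h1 : ∀ i ∈ Finset.range g, ((b (i + 1) - b i) • ind (A i)) j =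
        if i ≤ (σ.symm j : ℕ) then b (i + 1) - b i else 0 := by
      intro i _
      rw [Pi.smul_apply, smul_eq_mul, ind]
      by_cases h : i ≤ (σ.symm j : ℕ)
      · have : j ∈ A i := by
          rw [hA]
          simpa using h
        simp [h, this]
      · have : j ∉ A i := by
          rw [hA]
          simpa using h
        simp [h, this]
    rw [Finset.sum_congr rfl h1, ← Finset.sum_filter]
    have h2 : (Finset.range g).filter (fun i => i ≤ (σ.symm j : ℕ)) = Finset.range ((σ.symm j : ℕ) + 1) := by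
      ext i
      simp only [Finset.mem_filter, Finset.mem_range]
      have := (σ.symm j).2
      omega
    rw [h2, Finset.sum_range_sub, hb0, hbs, halx _ (σ.symm j).2]
    simp
  have hux : u x ≤ ∑ i ∈ Finset.range g, (b (i + 1) - b i) * (κ * t i) := by
    have h1 : u x ≤ u (fun j => |x j|) := hu _ _ fun j => by rw [abs_abs]
    refine h1.trans ?_
    rw [habs]
    refine (LVL_sub u _ _).trans ?_
    refine Finset.sum_le_sum fun i hi => ?_
    have hi' : i < g := Finset.mem_range.mp hi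
    rw [map_smul_eq_mul, Real.norm_eq_abs, abs_of_nonneg (hstep i hi')]
    refine mul_le_mul_of_nonneg_left ?_ (hstep i hi')
    refine (hind (A i)).trans ?_
    refine mul_le_mul_of_nonneg_left ?_ hκ
    rw [ht]
    apply Real.sqrt_le_sqrt
    exact_mod_cast hAc i
  have hux2 : u x ≤ κ * ∑ i ∈ Finset.range g, b (i + 1) * (t i)⁻¹ := by
    refine hux.trans ?_
    have h1 : ∑ i ∈ Finset.range g, (b (i + 1) - b i) * (κ * t i) = κ * ∑ i ∈ Finset.range g, (b (i + 1) - b i) * t i := by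
      rw [Finset.mul_sum]
      exact Finset.sum_congr rfl fun i _ => by ring
    rw [h1, LVL_abel, htg, hb0]
    refine mul_le_mul_of_nonneg_left ?_ hκ
    rw [mul_zero, zero_mul, sub_zero, zero_add]
    refine Finset.sum_le_sum fun i hi => ?_
    have hi' : i < g := Finset.mem_range.mp hi
    have hb1 : 0 ≤ b (i + 1) := by
      rw [hbs, halx i hi']
      exact abs_nonneg _
    refine mul_le_mul_of_nonneg_left ?_ hb1
    have h2 := LVL_sqrt (g - i - 1)
    have h3 : g - i - 1 + 1 = g - i := by omega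
    have h4 : g - (i + 1) = g - i - 1 := by omega
    rw [h3] at h2
    rw [ht]
    simp only
    rw [h4]
    exact h2
  have hcs : ∑ i ∈ Finset.range g, b (i + 1) * (t i)⁻¹ ≤
      Real.sqrt (∑ i ∈ Finset.range g, b (i + 1) ^ 2) * Real.sqrt (∑ i ∈ Finset.range g, ((t i)⁻¹) ^ 2) :=
    Real.sum_mul_le_sqrt_mul_sqrt _ _ _
  have hsum : ∑ i ∈ Finset.range g, b (i + 1) ^ 2 = ∑ j, x j ^ 2 := by
    rw [Finset.sum_range]
    rw [← Equiv.sum_comp σ (fun j => x j ^ 2)]
    refine Finset.sum_congr rfl fun i _ => ?_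
    rw [hbs, halx _ i.2, sq_abs]
  have hharm : ∑ i ∈ Finset.range g, ((t i)⁻¹) ^ 2 ≤ 1 + Real.log g := by
    rw [ht]
    exact LVL_harm g
  rw [hsum] at hcs
  calc u x ≤ κ * ∑ i ∈ Finset.range g, b (i + 1) * (t i)⁻¹ := hux2
    _ ≤ κ * (Real.sqrt (∑ j, x j ^ 2) * Real.sqrt (1 + Real.log g)) := by
        refine mul_le_mul_of_nonneg_left ?_ hκ
        refine hcs.trans ?_
        refine mul_le_mul_of_nonneg_left (Real.sqrt_le_sqrt hharm) (Real.sqrt_nonneg _)
    _ = κ * Real.sqrt (1 + Real.log g) * Real.sqrt (∑ j, x j ^ 2) := by ring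

end Pool.UN
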