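import Pool.Agent.Work.MP_3e8c7a_un.Interface

/-!
# MP_3e8c7a_an, block LW2: the lower 2-estimate.
-/

set_option autoImplicit false

namespace Pool.UN

open Module Pool.Agent.MP3e8c7a
open Pool.RG (FacE)
open Pool.RX (rad sgn)

theorem LW2_sub {N q : ℕ} (u : Seminorm ℝ (Fin N → ℝ)) (hu : Unc u) (z : Fin q → Fin N → ℝ) (hz : Dis z)
    (S : Finset (Fin q)) : u (∑ l ∈ S, z l) ≤ u (∑ l, z l) := by
  apply hu
  intro j
  rw [Finset.sum_apply, Finset.sum_apply]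
  by_cases h : ∃ l0, z l0 j ≠ 0
  · obtain ⟨l0, h0⟩ := h
    have hz' : ∀ l, l ≠ l0 → z l j = 0 := fun l hl => (hz l l0 hl j).resolve_right h0
    have e1 : ∑ l, z l j = z l0 j :=
      Finset.sum_eq_single l0 (fun l _ hl => hz' l hl) (fun h => absurd (Finset.mem_univ _) h)
    rw [e1]
    by_cases hS : l0 ∈ S
    · have e2 : ∑ l ∈ S, z l j = z l0 j :=
        Finset.sum_eq_single l0 (fun l _ hl => hz' l hl) (fun h => absurd hS h)
      rw [e2]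
    · have e2 : ∑ l ∈ S, z l j = 0 := by
        refine Finset.sum_eq_zero fun l hl => hz' l ?_
        rintro rfl
        exact hS hl
      rw [e2, abs_zero]
      exact abs_nonneg _
  · push Not at h
    have e1 : ∑ l, z l j = 0 := Finset.sum_eq_zero fun l _ => h l
    have e2 : ∑ l ∈ S, z l j = 0 := Finset.sum_eq_zero fun l _ => h l
    rw [e1, e2]

theorem LW2_card {N q : ℕ} {c d : ℝ} (u : Seminorm ℝ (Fin N → ℝ)) (hu : Unc u)
    (H : ∀ (q : ℕ) (x : Fin q → Fin N → ℝ) (t : ℝ), Dis x → (∀ s, t ≤ u (x s)) →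
      (q : ℝ) ^ (1 / 2 - d) * (c * t) ≤ u (∑ s, x s))
    (z : Fin q → Fin N → ℝ) (hz : Dis z) (S : Finset (Fin q)) (t : ℝ) (ht : ∀ l ∈ S, t ≤ u (z l)) :
    (S.card : ℝ) ^ (1 / 2 - d) * (c * t) ≤ u (∑ l, z l) := by
  have h1 := H S.card (fun s => z ((S.equivFin.symm s : S) : Fin q)) t
    (by
      intro a b hab j
      refine hz _ _ ?_ j
      intro h
      exact hab (S.equivFin.symm.injective (Subtype.ext h)))
    (fun s => ht _ (S.equivFin.symm s).2)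
  refine h1.trans ?_
  have e : (∑ s, z ((S.equivFin.symm s : S) : Fin q)) = ∑ l ∈ S, z l := by
    rw [Equiv.sum_comp S.equivFin.symm (fun l : S => z (l : Fin q))]
    exact Finset.sum_coe_sort S (fun l => z l)
  rw [e]
  exact LW2_sub u hu z hz S

theorem LW2_num {a n c d t T : ℝ} (ha : 1 ≤ a) (han : a ≤ n) (hc : 0 < c) (hd : 0 < d) (ht : 0 ≤ t)
    (h : a ^ (1 / 2 - d) * (c * t) ≤ T) : t ^ 2 ≤ (c⁻¹ * n ^ d * T) ^ 2 * a⁻¹ := by
  have ha0 : 0 < a := by linarith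
  have hn0 : 0 < n := by linarith
  have hA : 0 < a ^ (1 / 2 - d) := Real.rpow_pos_of_pos ha0 _
  have h2 : (a ^ (1 / 2 - d) * (c * t)) ^ 2 ≤ T ^ 2 :=
    pow_le_pow_left₀ (by positivity) h 2
  have e1 : (a ^ (1 / 2 - d)) ^ 2 * (a ^ d) ^ 2 = a := by
    rw [← mul_pow, ← Real.rpow_add ha0]
    rw [show (1 / 2 - d + d : ℝ) = 1 / 2 by ring, ← Real.sqrt_eq_rpow, Real.sq_sqrt ha0.le]
  have e2 : a ^ d ≤ n ^ d := Real.rpow_le_rpow ha0.le han hd.le
  have hd0 : 0 < a ^ d := Real.rpow_pos_of_pos ha0 _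
  have e3 : (a ^ d) ^ 2 ≤ (n ^ d) ^ 2 := pow_le_pow_left₀ hd0.le e2 2
  have h3 : a * (c * t) ^ 2 ≤ (n ^ d) ^ 2 * T ^ 2 := by
    calc a * (c * t) ^ 2 = (a ^ d) ^ 2 * (a ^ (1 / 2 - d) * (c * t)) ^ 2 := by
          rw [mul_pow (a ^ (1 / 2 - d)) (c * t) 2, ← mul_assoc, mul_comm ((a ^ d) ^ 2), e1]
      _ ≤ (n ^ d) ^ 2 * T ^ 2 := by
          apply mul_le_mul e3 h2 (by positivity) (by positivity)
  have hc2 : 0 < c ^ 2 := by positivity
  have e4 : t ^ 2 = a * (c * t) ^ 2 * (c⁻¹ ^ 2 * a⁻¹) := by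
    field_simp
  rw [e4]
  calc a * (c * t) ^ 2 * (c⁻¹ ^ 2 * a⁻¹) ≤ (n ^ d) ^ 2 * T ^ 2 * (c⁻¹ ^ 2 * a⁻¹) :=
        mul_le_mul_of_nonneg_right h3 (by positivity)
    _ = (c⁻¹ * n ^ d * T) ^ 2 * a⁻¹ := by ring

theorem LW2_harm (q : ℕ) : ∑ i : Fin q, ((q - (i : ℕ) : ℕ) : ℝ)⁻¹ ≤ 1 + Real.log q := by
  have h := harmonic_le_one_add_log q
  have e : ∑ i : Fin q, ((q - (i : ℕ) : ℕ) : ℝ)⁻¹ = ((harmonic q : ℚ) : ℝ) := by
    rw [harmonic]
    push_cast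
    rw [Fin.sum_univ_eq_sum_range (fun i => ((q - i : ℕ) : ℝ)⁻¹) q]
    rw [← Finset.sum_range_reflect]
    refine Finset.sum_congr rfl fun i hi => ?_
    have hi' := Finset.mem_range.mp hi
    have : q - (q - 1 - i) = i + 1 := by omega
    rw [this]
    push_cast
    ring
  rw [e]
  exact h

theorem p_LW2 : Stmt_LW2 := by
  intro N c d u hc hd hd4 hu H q z hqN hz
  rcases Nat.eq_zero_or_pos q with rfl | hq
  · simp only [Finset.univ_eq_empty, Finset.sum_empty]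
    positivity
  have hN : 1 ≤ N := by omega
  have hN1 : (1 : ℝ) ≤ N := by exact_mod_cast hN
  have hlog : 0 ≤ Real.log N := Real.log_nonneg hN1
  set T := u (∑ l, z l) with hT
  set t : Fin q → ℝ := fun l => u (z l) with htdef
  set σ := Tuple.sort t with hσ
  have hmono : Monotone (t ∘ σ) := Tuple.monotone_sort t
  have key : ∀ i : Fin q, t (σ i) ^ 2 ≤ (c⁻¹ * (N : ℝ) ^ d * T) ^ 2 * ((q - (i : ℕ) : ℕ) : ℝ)⁻¹ := by
    intro i
    have hcard : ((Finset.Ici i).map σ.toEmbedding).card = q - (i : ℕ) := by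
      rw [Finset.card_map, Fin.card_Ici]
    have h1 := LW2_card u hu H z hz ((Finset.Ici i).map σ.toEmbedding) (t (σ i)) (by
      intro l hl
      rw [Finset.mem_map] at hl
      obtain ⟨k, hk, rfl⟩ := hl
      exact hmono (Finset.mem_Ici.mp hk))
    rw [hcard] at h1
    refine LW2_num ?_ ?_ hc hd (apply_nonneg u _) h1
    · have := i.2
      exact_mod_cast (show 1 ≤ q - (i : ℕ) by omega)
    · exact_mod_cast (show q - (i : ℕ) ≤ N by omega)
  calc ∑ l, u (z l) ^ 2 = ∑ i, t (σ i) ^ 2 := (Equiv.sum_comp σ (fun l => t l ^ 2)).symm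
    _ ≤ ∑ i : Fin q, (c⁻¹ * (N : ℝ) ^ d * T) ^ 2 * ((q - (i : ℕ) : ℕ) : ℝ)⁻¹ :=
        Finset.sum_le_sum fun i _ => key i
    _ = (c⁻¹ * (N : ℝ) ^ d * T) ^ 2 * ∑ i : Fin q, ((q - (i : ℕ) : ℕ) : ℝ)⁻¹ := by
        rw [Finset.mul_sum]
    _ ≤ (c⁻¹ * (N : ℝ) ^ d * T) ^ 2 * (1 + Real.log N) := by
        refine mul_le_mul_of_nonneg_left ((LW2_harm q).trans ?_) (by positivity)
        have : Real.log q ≤ Real.log N :=
          Real.log_le_log (by exact_mod_cast hq) (by exact_mod_cast hqN)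
        linarith
    _ = (c⁻¹ * (N : ℝ) ^ d * Real.sqrt (1 + Real.log N)) ^ 2 * T ^ 2 := by
        rw [mul_pow (c⁻¹ * (N : ℝ) ^ d) (Real.sqrt (1 + Real.log N)) 2, Real.sq_sqrt (by linarith)]
        ring

end Pool.UN
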