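import Pool.Agent.Work.MP_3e8c7a_un.Interface

/-!
# Block UNI: Theorem UN for norms
-/

set_option autoImplicit false

namespace Pool.UN

open Module Pool.Agent.MP3e8c7a
open Pool.RG (FacE)
open Pool.RX (rad sgn)

/-- small dimensions -/
theorem UNI_small (hL : Pool.EH.Stmt_LOB) (n₀ : ℕ) : ∃ C : ℝ, 1 ≤ C ∧
    ∀ (V : Type) [AddCommGroup V] [Module ℝ V] [FiniteDimensional ℝ V]
      (p r : Seminorm ℝ V), Def p → Def r → finrank ℝ V ≤ n₀ → Iso C p r := by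
  obtain ⟨C₂, hC₂, hsmall⟩ := hL n₀
  refine ⟨C₂ * C₂, by nlinarith, ?_⟩
  intro V _ _ _ p r hp hr hn
  have hEu : ∀ q : Seminorm ℝ V, Def q → Pool.EH.Eu C₂ q := by
    intro q hq
    have h1 := hsmall V q hq ⊤ (by rw [finrank_top]; exact hn)
    exact h1.comp (Submodule.topEquiv (R := ℝ) (M := V)).symm.toLinearMap
  exact (hEu p hp).iso hp hr hC₂ (hEu r hr) rfl

/-- multiplication by weights -/
def UNI_wt {N : ℕ} (w : Fin N → ℝ) : (Fin N → ℝ) →ₗ[ℝ] (Fin N → ℝ) where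
  toFun x := fun j => w j * x j
  map_add' x y := by ext j; simp [mul_add]
  map_smul' c x := by ext j; simp [mul_left_comm]

theorem UNI_wt_apply {N : ℕ} (w : Fin N → ℝ) (x : Fin N → ℝ) (j : Fin N) :
    UNI_wt w x j = w j * x j := rfl

theorem UNI_wt_inj {N : ℕ} (w : Fin N → ℝ) (hw : ∀ j, 0 < w j) :
    Function.Injective (UNI_wt w) := by
  intro x y h
  funext j
  have h1 := congrFun h j
  rw [UNI_wt_apply, UNI_wt_apply] at h1
  exact mul_left_cancel₀ (hw j).ne' h1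

theorem UNI_wt_unc {N : ℕ} (w : Fin N → ℝ) (u : Seminorm ℝ (Fin N → ℝ))
    (hu : Unc u) : Unc (u.comp (UNI_wt w)) := by
  intro x y h
  show u (UNI_wt w x) ≤ u (UNI_wt w y)
  refine hu _ _ fun j => ?_
  rw [UNI_wt_apply, UNI_wt_apply, abs_mul, abs_mul]
  exact mul_le_mul_of_nonneg_left (h j) (abs_nonneg _)

theorem UNI_wt_one {N : ℕ} (w : Fin N → ℝ) : UNI_wt w (fun _ => 1) = w := by
  funext j
  rw [UNI_wt_apply, mul_one]

/-- the norm of the coordinates -/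
theorem UNI_wt_sum {N : ℕ} (w : Fin N → ℝ) (hw : ∀ j, 0 < w j) (u : Seminorm ℝ (Fin N → ℝ))
    (h : ∀ x : Fin N → ℝ, ∑ j, |x j| / w j ≤ N * u x) (x : Fin N → ℝ) :
    ∑ j, |x j| ≤ N * (u.comp (UNI_wt w)) x := by
  refine le_trans (le_of_eq ?_) (h (UNI_wt w x))
  refine Finset.sum_congr rfl fun j _ => ?_
  rw [UNI_wt_apply, abs_mul, abs_of_pos (hw j), mul_div_cancel_left₀ _ (hw j).ne']

/-- the image of a Euclidean subspace -/
theorem UNI_img {V : Type} [AddCommGroup V] [Module ℝ V] [FiniteDimensional ℝ V] {N : ℕ}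
    {p : Seminorm ℝ V} {u : Seminorm ℝ (Fin N → ℝ)} {i : (Fin N → ℝ) →ₗ[ℝ] V} {M D : ℝ}
    (hM : 1 ≤ M) (hi : Function.Injective i) (h : ∀ x, p (i x) ≤ u x ∧ u x ≤ M * p (i x))
    {E : Submodule ℝ (Fin N → ℝ)} (hE : Pool.EH.Eu D (u.comp E.subtype)) :
    finrank ℝ (E.map i) = finrank ℝ E ∧ Pool.EH.Eu (M * D) (p.comp (E.map i).subtype) := by
  let e := Submodule.equivMapOfInjective i hi E
  refine ⟨e.finrank_eq.symm, ?_⟩
  have h1 := hE.comp e.symm.toLinearMap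
  have key : ∀ z : E.map i, i ((e.symm z : E) : Fin N → ℝ) = (z : V) := by
    intro z
    have h2 : ((e (e.symm z) : E.map i) : V) = i ((e.symm z : E) : Fin N → ℝ) :=
      Submodule.coe_equivMapOfInjective_apply i hi E (e.symm z)
    rw [← h2, LinearEquiv.apply_symm_apply]
  have h3 := h1.equiv (N' := p.comp (E.map i).subtype) (A := M) (B := 1) (by linarith)
    zero_le_one (fun z => ?_) (fun z => ?_)
  · rw [mul_one] at h3
    exact h3
  · show u ((e.symm z : E) : Fin N → ℝ) ≤ M * p (z : V)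
    rw [← key z]
    exact (h _).2
  · show p (z : V) ≤ 1 * u ((e.symm z : E) : Fin N → ℝ)
    rw [one_mul, ← key z]
    exact (h _).1

/-- the logarithms -/
theorem UNI_num {N : ℕ} {d : ℝ} (hN : 1 ≤ N) (hd : 0 < d) :
    (N : ℝ) ^ d * Real.sqrt (1 + Real.log N) * Real.sqrt (1 + Real.log N) ≤
      (1 + 1 / d) * (N : ℝ) ^ (2 * d) := by
  have hN1 : (1 : ℝ) ≤ N := by exact_mod_cast hN
  have hN0 : (0 : ℝ) < N := by linarith
  have hlog : 0 ≤ Real.log N := Real.log_nonneg hN1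
  have h1 : (1 : ℝ) ≤ (N : ℝ) ^ d := Real.one_le_rpow hN1 hd.le
  have h2 : Real.log N ≤ (N : ℝ) ^ d / d := Real.log_le_rpow_div hN0.le hd
  have h3 : 1 + Real.log N ≤ (1 + 1 / d) * (N : ℝ) ^ d := by
    have : (1 + 1 / d) * (N : ℝ) ^ d = (N : ℝ) ^ d + (N : ℝ) ^ d / d := by ring
    rw [this]
    linarith
  have h4 : (N : ℝ) ^ (2 * d) = (N : ℝ) ^ d * (N : ℝ) ^ d := by
    rw [two_mul, Real.rpow_add hN0]
  rw [mul_assoc, Real.mul_self_sqrt (by linarith), h4]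
  nlinarith [mul_le_mul_of_nonneg_left h3 (by linarith : (0 : ℝ) ≤ (N : ℝ) ^ d)]

/-- the final power -/
theorem UNI_pow {A B X n d δ : ℝ} {K : ℕ} (hA : 0 ≤ A) (hB : 0 ≤ B) (hX : 0 ≤ X) (hn : 1 ≤ n)
    (hX1 : X ≤ B * n ^ (2 * d)) (hd : 2 * d * K ≤ δ) : (A * X) ^ K ≤ (A * B) ^ K * n ^ δ := by
  have hn0 : 0 < n := by linarith
  have h1 : A * X ≤ A * B * n ^ (2 * d) := by
    rw [mul_assoc]
    exact mul_le_mul_of_nonneg_left hX1 hA
  have h2 : (n ^ (2 * d)) ^ K ≤ n ^ δ := by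
    rw [← Real.rpow_natCast, ← Real.rpow_mul hn0.le]
    exact Real.rpow_le_rpow_of_exponent_le hn hd
  calc (A * X) ^ K ≤ (A * B * n ^ (2 * d)) ^ K := pow_le_pow_left₀ (mul_nonneg hA hX) h1 K
    _ = (A * B) ^ K * (n ^ (2 * d)) ^ K := by rw [mul_pow]
    _ ≤ (A * B) ^ K * n ^ δ := mul_le_mul_of_nonneg_left h2 (by positivity)

theorem p_UNI (h1 : Stmt_RIG) (h2 : Stmt_LEI) (h3 : Stmt_LW2) (h4 : Stmt_LOZ) (h5 : Stmt_EUS)
    (h6 : Stmt_CLO) (h7 : Stmt_HPO) (h8 : Pool.EH.Stmt_LOB) : Stmt_UNI := by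
  intro α ε b M δ hα hε hε1 hb hM hδ
  obtain ⟨K, hK, hHPO⟩ := h7 α (ε / 2) b hα (by linarith) (by linarith) hb
  have hK1 : (1 : ℝ) ≤ K := by exact_mod_cast hK
  have hK0 : (0 : ℝ) < K := by linarith
  obtain ⟨d, hd0, hd1, hdK⟩ : ∃ d : ℝ, 0 < d ∧ d ≤ 1 / 4 ∧ 2 * d * K ≤ δ := by
    refine ⟨min (1 / 4) (δ / (2 * K)), lt_min (by norm_num) (by positivity), min_le_left _ _, ?_⟩
    have h := min_le_right (1 / 4 : ℝ) (δ / (2 * K))
    have h' : δ / (2 * K) * (2 * K) = δ := div_mul_cancel₀ _ (by positivity)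
    nlinarith [mul_le_mul_of_nonneg_right h (by positivity : (0 : ℝ) ≤ 2 * K)]
  obtain ⟨Q, K₁, D₁, hQ, hD₁, hRIG⟩ := h1 d b M hd0 hd1 hb hM
  obtain ⟨C₁, hC₁, hCLO⟩ := h6 D₁ K₁ hD₁
  obtain ⟨M₁, hM₁, hEUS⟩ := h5 (ε / 4) (by linarith) (by linarith)
  obtain ⟨J, hJ⟩ := exists_nat_ge (1 / ε)
  have hJ0 : (0 : ℝ) < J := lt_of_lt_of_le (by positivity) hJ
  have hJ1 : 1 ≤ J := by exact_mod_cast hJ0
  have hJ1' : (1 : ℝ) ≤ J := by exact_mod_cast hJ1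
  have hQ' : (2 : ℝ) ≤ Q := by exact_mod_cast hQ
  obtain ⟨n₀, hn₀⟩ := exists_nat_ge (max ((K₁ : ℝ) / α) (16 / ε ^ 2))
  obtain ⟨C₂, hC₂, hsmall⟩ := UNI_small h8 n₀
  set c : ℝ := 1 / ((J : ℝ) * J * Q) with hc
  have hJJQ : 1 ≤ (J : ℝ) * J * Q := by nlinarith
  have hc0 : 0 < c := by rw [hc]; positivity
  have hcinv : c⁻¹ = (J : ℝ) * J * Q := by rw [hc, one_div, inv_inv]
  have hcinv1 : 1 ≤ c⁻¹ := by rw [hcinv]; exact hJJQ
  set A : ℝ := K * (M * (M₁ * c⁻¹)) with hA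
  have hA0 : 0 ≤ A := by rw [hA]; positivity
  have hd2 : 0 < 1 + 1 / d := by positivity
  refine ⟨C₁ + C₂ + (A * (1 + 1 / d)) ^ K, ?_, ?_⟩
  · have : 0 ≤ (A * (1 + 1 / d)) ^ K := by positivity
    linarith
  intro V _ _ _ p r k N u i hp hr H hn1 hk hkN hunc hdef hi
  have hn1' : (1 : ℝ) ≤ finrank ℝ V := by exact_mod_cast hn1
  have hn0' : (0 : ℝ) < finrank ℝ V := by linarith
  have hnδ : 1 ≤ (finrank ℝ V : ℝ) ^ δ := Real.one_le_rpow hn1' hδ.le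
  have hP : 0 ≤ (A * (1 + 1 / d)) ^ K := by positivity
  have hinj : Function.Injective i := by
    rw [injective_iff_map_eq_zero]
    intro x hx
    have h := (hi x).2
    rw [hx, map_zero, mul_zero] at h
    exact hdef _ (le_antisymm h (apply_nonneg _ _))
  have hNn : N ≤ finrank ℝ V := by
    have := LinearMap.finrank_le_finrank_of_injective hinj
    rwa [Module.finrank_fintype_fun_eq_card, Fintype.card_fin] at this
  have hNn' : (N : ℝ) ≤ finrank ℝ V := by exact_mod_cast hNn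
  have hk0 : (0 : ℝ) ≤ k := Nat.cast_nonneg k
  have hεN : ε * finrank ℝ V ≤ N := by linarith
  have hN0 : (0 : ℝ) < N := lt_of_lt_of_le (by positivity) hεN
  have hN1 : 1 ≤ N := by exact_mod_cast hN0
  have hN1' : (1 : ℝ) ≤ N := by exact_mod_cast hN1
  rcases le_total (finrank ℝ V) n₀ with hlt | hge
  · refine (hsmall V p r hp hr hlt).mono ?_
    nlinarith
  have hge' : (n₀ : ℝ) ≤ finrank ℝ V := by exact_mod_cast hge
  have hKk : K₁ ≤ k := by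
    have e1 : (K₁ : ℝ) / α ≤ finrank ℝ V := (le_max_left _ _).trans (hn₀.trans hge')
    rw [div_le_iff₀ hα] at e1
    have e2 : (K₁ : ℝ) ≤ k := by linarith
    exact_mod_cast e2
  have h16 : 16 ≤ ε ^ 2 * finrank ℝ V := by
    have e1 : 16 / ε ^ 2 ≤ finrank ℝ V := (le_max_right _ _).trans (hn₀.trans hge')
    rw [div_le_iff₀ (by positivity)] at e1
    linarith
  obtain ⟨w, hw0, hw1, hws⟩ := h4 N u hN1 hunc hdef
  set u' : Seminorm ℝ (Fin N → ℝ) := u.comp (UNI_wt w) with hu'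
  set i' : (Fin N → ℝ) →ₗ[ℝ] V := i ∘ₗ UNI_wt w with hi'
  have hunc' : Unc u' := UNI_wt_unc w u hunc
  have hwinj := UNI_wt_inj w hw0
  have hinj' : Function.Injective i' := hinj.comp hwinj
  have hdef' : Def u' := by
    intro x hx
    have h := hdef _ hx
    exact hwinj (by rw [h, map_zero])
  have hii : ∀ x, p (i' x) ≤ u' x ∧ u' x ≤ M * p (i' x) := fun x => hi (UNI_wt w x)
  have hone : u' (fun _ => 1) ≤ 1 := by
    show u (UNI_wt w fun _ => 1) ≤ 1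
    rw [UNI_wt_one]
    exact hw1
  have hsum : ∀ x : Fin N → ℝ, ∑ j, |x j| ≤ N * u' x := UNI_wt_sum w hw0 u hws
  by_cases hbad : ∃ (B : Finset (Fin N)) (y : Fin Q → Fin N → ℝ), B.card + k ≤ N ∧ Dis y ∧
      (∀ s, ∀ j ∉ B, y s j = 0) ∧ (∀ s, u' (y s) = 1) ∧ u' (∑ s, y s) ≤ (Q : ℝ) ^ (1 / 2 - d)
  · obtain ⟨B, y, hB, hdis, hyB, hy1, hyQ⟩ := hbad
    obtain ⟨Y, Λ, hY, hΛ, hYΛ⟩ := hRIG V p r k N u' i' hp hr H hKk hunc' hdef' hii B y hB hdis hyB hy1 hyQ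
    refine (hCLO V p r hp hr Y Λ hY hΛ hYΛ).mono ?_
    nlinarith
  · have hgood : ∀ (B : Finset (Fin N)) (y : Fin Q → Fin N → ℝ), B.card + k ≤ N → Dis y →
        (∀ s, ∀ j ∉ B, y s j = 0) → (∀ s, u' (y s) = 1) → (Q : ℝ) ^ (1 / 2 - d) ≤ u' (∑ s, y s) := by
      intro B y e1 e2 e3 e4
      by_contra hcon
      exact hbad ⟨B, y, e1, e2, e3, e4, (not_le.1 hcon).le⟩
    have hkN1 : k ≤ N := by
      have e1 : (k : ℝ) ≤ N := by nlinarith
      exact_mod_cast e1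
    have hNJ : N ≤ J * (N - k) := by
      have e1 : (N : ℝ) ≤ (J : ℝ) * ((N - k : ℕ) : ℝ) := by
        rw [Nat.cast_sub hkN1]
        have e2 : 1 ≤ (J : ℝ) * ε := by
          rw [div_le_iff₀ hε] at hJ
          exact hJ
        have e3 : ε * finrank ℝ V ≤ (N : ℝ) - k := by linarith
        calc (N : ℝ) ≤ finrank ℝ V := hNn'
          _ ≤ (J : ℝ) * ε * finrank ℝ V := by nlinarith
          _ = (J : ℝ) * (ε * finrank ℝ V) := by ring
          _ ≤ (J : ℝ) * ((N : ℝ) - k) := mul_le_mul_of_nonneg_left e3 hJ0.le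
      exact_mod_cast e1
    have hlei := h2 N Q k J d u' hQ hJ1 hd0 hd1 hunc' hkN1 hNJ hgood
    have hlow := h3 N c d u' hc0 hd0 hd1 hunc' (fun q x t e1 e2 => by
      have e3 := hlei q x t e1 e2
      have e4 : c * t = t / ((J : ℝ) * J * Q) := by rw [hc]; ring
      rw [e4]
      exact e3)
    set S : ℝ := Real.sqrt (1 + Real.log N) with hS
    have hlogN : 0 ≤ Real.log N := Real.log_nonneg hN1'
    have hS1 : 1 ≤ S := by
      rw [hS]
      exact Real.one_le_sqrt.2 (by linarith)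
    have hNd : 1 ≤ (N : ℝ) ^ d := Real.one_le_rpow hN1' hd0.le
    have hL1 : 1 ≤ c⁻¹ * (N : ℝ) ^ d * S := by
      have e1 : 1 ≤ c⁻¹ * (N : ℝ) ^ d := one_le_mul_of_one_le_of_one_le hcinv1 hNd
      exact one_le_mul_of_one_le_of_one_le e1 hS1
    have h4N : 4 ≤ ε / 4 * N := by
      have e1 := mul_le_mul_of_nonneg_left hεN (by positivity : (0 : ℝ) ≤ ε / 4)
      have e2 : ε / 4 * (ε * finrank ℝ V) = (ε ^ 2 * finrank ℝ V) / 4 := by ring
      linarith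
    obtain ⟨E, hE1, hE2⟩ := hEUS N (c⁻¹ * (N : ℝ) ^ d * S) u' h4N hL1 hunc' hlow hone hsum
    obtain ⟨hf, hEu⟩ := UNI_img hM hinj' hii hE2
    have hD1 : 1 ≤ M * (M₁ * (c⁻¹ * (N : ℝ) ^ d * S) * S) := by
      have e1 : 1 ≤ M₁ * (c⁻¹ * (N : ℝ) ^ d * S) := one_le_mul_of_one_le_of_one_le hM₁ hL1
      exact one_le_mul_of_one_le_of_one_le hM (one_le_mul_of_one_le_of_one_le e1 hS1)
    have hdim : k + ε / 2 * finrank ℝ V ≤ finrank ℝ (E.map i') := by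
      rw [hf]
      refine le_trans ?_ hE1
      nlinarith
    have hiso := hHPO _ hD1 V p r k hp hr H hk (E.map i') hdim hEu
    refine hiso.mono ?_
    have hX : (N : ℝ) ^ d * S * S ≤ (1 + 1 / d) * (finrank ℝ V : ℝ) ^ (2 * d) := by
      refine (UNI_num hN1 hd0).trans ?_
      refine mul_le_mul_of_nonneg_left ?_ hd2.le
      exact Real.rpow_le_rpow hN0.le hNn' (by linarith)
    have hX0 : 0 ≤ (N : ℝ) ^ d * S * S := by positivity
    have hfin := UNI_pow (K := K) (δ := δ) hA0 hd2.le hX0 hn1' hX hdK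
    have e5 : (K : ℝ) * (M * (M₁ * (c⁻¹ * (N : ℝ) ^ d * S) * S)) = A * ((N : ℝ) ^ d * S * S) := by
      rw [hA]; ring
    rw [e5]
    refine hfin.trans ?_
    have hδ0 : 0 ≤ (finrank ℝ V : ℝ) ^ δ := by linarith
    have e6 : (C₁ + C₂ + (A * (1 + 1 / d)) ^ K) * (finrank ℝ V : ℝ) ^ δ =
        (C₁ + C₂) * (finrank ℝ V : ℝ) ^ δ + (A * (1 + 1 / d)) ^ K * (finrank ℝ V : ℝ) ^ δ := by ring
    rw [e6]
    have e7 : 0 ≤ (C₁ + C₂) * (finrank ℝ V : ℝ) ^ δ := mul_nonneg (by linarith) hδ0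
    linarith

end Pool.UN

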