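import Pool.Agent.Work.MP_3e8c7a_un.All
import Pool.Agent.Work.MP_3e8c7a_un.B_LW2
import Pool.Agent.Work.MP_3e8c7a_un.B_LOZ
import Pool.Agent.Work.MP_3e8c7a_un.B_GRE
import Pool.Agent.Work.MP_3e8c7a_un.B_LVL
import Pool.Agent.Work.MP_3e8c7a_un.B_VRK
import Pool.Agent.Work.MP_3e8c7a_un.B_KSH
import Pool.Agent.Work.MP_3e8c7a_un.B_EUS
import Pool.Agent.Work.MP_3e8c7a_un.B_CLO
import Pool.Agent.Work.MP_3e8c7a_un.B_UNI
import Pool.Agent.Work.MP_3e8c7a_h.All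

/-!
# MP_3e8c7a_an, THEOREM UN: everything together
-/

set_option autoImplicit false

namespace Pool.UN

open Module Pool.Agent.MP3e8c7a Pool.Agent.MP3e8c7as

theorem q_EUS : Stmt_EUS := p_EUS p_GRE p_LVL (p_KSH (p_VRK Pool.EH.q_RND Pool.EH.q_PCK))

theorem q_UNI (hP : Stmt_HPO) : Stmt_UNI := p_UNI q_RIG q_LEI p_LW2 p_LOZ q_EUS p_CLO hP Pool.EH.q_LOB

/-- **THEOREM UN** for bodies. -/
theorem unconditional (hP : Stmt_HPO) (α ε b M δ : ℝ) (hα : 0 < α) (hα1 : α < 1) (hε : 0 < ε) (hM : 1 ≤ M)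
    (hδ : 0 < δ) (hδ4 : δ ≤ 1 / 4) : ∃ C : ℝ, 1 ≤ C ∧ ∀ n : ℕ, 0 < n →
      ∀ K L : Set (Fin n → ℝ), IsBody K → IsBody L → SectionsClose ⌈α * n⌉₊ b K L →
      ∀ (N : ℕ) (i : (Fin N → ℝ) →ₗ[ℝ] (Fin n → ℝ)) (U : Set (Fin N → ℝ)), (α + ε) * n ≤ N →
      (UncSection M K i U ∨ UncSection M L i U) →
      dBM K L ≤ ENNReal.ofReal (C * (n : ℝ) ^ δ) ∧
        ((GeomClose C K L ∧ dBM K L ≤ ENNReal.ofReal C) ∨ LowerEst C (1 / 2 - δ) U) := by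
  obtain ⟨C₁, h1⟩ := unc_bodies (q_UNI hP) p_SGU Pool.EH.q_LOB α ε b M δ hα hε hM hδ
  obtain ⟨C₂, hC₂, h2⟩ := unconditional_alternative α ε b M δ hα hα1 hε hM hδ hδ4
  set C := max C₁ C₂ with hC
  have hCa : C₁ ≤ C := le_max_left _ _
  have hCb : C₂ ≤ C := le_max_right _ _
  refine ⟨C, hC₂.trans hCb, fun n hn K L hK hL hS N i U hN hU => ⟨?_, ?_⟩⟩
  · refine (h1 n hn K L hK hL hS ⟨N, hN, ?_⟩).trans (ENNReal.ofReal_le_ofReal
      (mul_le_mul_of_nonneg_right hCa (Real.rpow_nonneg (Nat.cast_nonneg n) δ)))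
    rcases hU with h | h
    · exact Or.inl ⟨i, U, h.1, h.2.1, h.2.2.1, h.2.2.2⟩
    · exact Or.inr ⟨i, U, h.1, h.2.1, h.2.2.1, h.2.2.2⟩
  · rcases h2 n hn K L hK hL hS N i U hN hU with ⟨⟨Y, t, g1, g2, g3, g4⟩, g5⟩ | g
    · left
      obtain ⟨p, hp, hKp⟩ := hK.exists_seminorm
      refine ⟨⟨Y, t, g1, by linarith, g3, fun x hx => ?_⟩, g5.trans (ENNReal.ofReal_le_ofReal hCb)⟩
      have g6 := (mem_smul_iff hKp (by linarith) x).1 (g4 hx)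
      exact (mem_smul_iff hKp (by linarith) x).2 (g6.trans hCb)
    · right
      intro q x t hx ht
      exact (g q x t hx ht).trans (mul_le_mul_of_nonneg_right hCb (gauge_nonneg _))

end Pool.UN
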