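import Pool.Agent.Work.MP_3e8c7a_un.Interface

/-!
# Block GRP: iteration of the lower estimate on a part of the coordinates
-/

set_option autoImplicit false

namespace Pool.UN

open Module Pool.Agent.MP3e8c7a
open Pool.RG (FacE)
open Pool.RX (rad sgn)

/-- disjoint families over any index type -/
def GRP_Dis {N : ℕ} {ι : Type} (y : ι → Fin N → ℝ) : Prop :=
  ∀ s t, s ≠ t → ∀ j, y s j = 0 ∨ y t j = 0

theorem GRP_cmp {N : ℕ} {ι : Type} [Fintype ι] {x : ι → Fin N → ℝ} (hx : GRP_Dis x)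
    (c : ι → ℝ) (hc : ∀ s, |c s| ≤ 1) (j : Fin N) :
    |∑ s, c s * x s j| ≤ |∑ s, x s j| := by
  classical
  by_cases h : ∃ s, x s j ≠ 0
  · obtain ⟨s, hs⟩ := h
    have h1 : ∀ t, t ≠ s → x t j = 0 := fun t ht => by
      rcases hx s t (Ne.symm ht) j with h2 | h2
      · exact absurd h2 hs
      · exact h2
    rw [Finset.sum_eq_single s (fun t _ ht => by rw [h1 t ht, mul_zero])
      (fun h => absurd (Finset.mem_univ _) h),
      Finset.sum_eq_single s (fun t _ ht => h1 t ht) (fun h => absurd (Finset.mem_univ _) h),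
      abs_mul]
    exact mul_le_of_le_one_left (abs_nonneg _) (hc s)
  · push Not at h
    have h1 : ∑ s, c s * x s j = 0 := Finset.sum_eq_zero fun s _ => by rw [h s, mul_zero]
    rw [h1, abs_zero]
    exact abs_nonneg _

theorem GRP_hom {N Q : ℕ} {a : ℝ} {u : Seminorm ℝ (Fin N → ℝ)} {B : Finset (Fin N)}
    (hu : Unc u)
    (H : ∀ y : Fin Q → Fin N → ℝ, Dis y → (∀ s, ∀ j ∉ B, y s j = 0) → (∀ s, u (y s) = 1) →
      (Q : ℝ) ^ a ≤ u (∑ s, y s))
    {t : ℝ} (ht : 0 < t) (x : Fin Q → Fin N → ℝ) (hx : Dis x)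
    (hB : ∀ s, ∀ j ∉ B, x s j = 0) (hle : ∀ s, t ≤ u (x s)) :
    t * (Q : ℝ) ^ a ≤ u (∑ s, x s) := by
  have hpos : ∀ s, 0 < u (x s) := fun s => lt_of_lt_of_le ht (hle s)
  have h1 := H (fun s => (u (x s))⁻¹ • x s)
    (fun s r hsr j => by
      rcases hx s r hsr j with h | h
      · left
        show ((u (x s))⁻¹ • x s) j = 0
        rw [Pi.smul_apply, h, smul_zero]
      · right
        show ((u (x r))⁻¹ • x r) j = 0
        rw [Pi.smul_apply, h, smul_zero])
    (fun s j hj => by rw [Pi.smul_apply, hB s j hj, smul_zero])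
    (fun s => by
      rw [map_smul_eq_mul, Real.norm_eq_abs, abs_of_pos (inv_pos.mpr (hpos s)),
        inv_mul_cancel₀ (hpos s).ne'])
  calc t * (Q : ℝ) ^ a ≤ t * u (∑ s, (u (x s))⁻¹ • x s) := mul_le_mul_of_nonneg_left h1 ht.le
    _ = u (t • ∑ s, (u (x s))⁻¹ • x s) := by
        rw [map_smul_eq_mul, Real.norm_eq_abs, abs_of_pos ht]
    _ ≤ u (∑ s, x s) := by
        apply hu
        intro j
        have h2 : (t • ∑ s, (u (x s))⁻¹ • x s) j = ∑ s, (t * (u (x s))⁻¹) * x s j := by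
          rw [Pi.smul_apply, Finset.sum_apply, Finset.smul_sum]
          refine Finset.sum_congr rfl fun s _ => ?_
          rw [Pi.smul_apply, smul_eq_mul, smul_eq_mul, mul_assoc]
        rw [h2, Finset.sum_apply]
        apply GRP_cmp (fun s r h => hx s r h)
        intro s
        rw [abs_of_nonneg (mul_nonneg ht.le (inv_nonneg.mpr (hpos s).le)),
          ← div_eq_mul_inv, div_le_one (hpos s)]
        exact hle s

theorem GRP_iter {N Q : ℕ} {a : ℝ} {u : Seminorm ℝ (Fin N → ℝ)} {B : Finset (Fin N)}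
    (hQ : 0 < Q) (hu : Unc u)
    (H : ∀ y : Fin Q → Fin N → ℝ, Dis y → (∀ s, ∀ j ∉ B, y s j = 0) → (∀ s, u (y s) = 1) →
      (Q : ℝ) ^ a ≤ u (∑ s, y s))
    {t : ℝ} (ht : 0 < t) (h : ℕ) :
    ∀ (ι : Type) [Fintype ι], Fintype.card ι = Q ^ h → ∀ x : ι → Fin N → ℝ, GRP_Dis x →
      (∀ s, ∀ j ∉ B, x s j = 0) → (∀ s, t ≤ u (x s)) →
      t * ((Q : ℝ) ^ h) ^ a ≤ u (∑ s, x s) := by
  have hQ0 : (0 : ℝ) < Q := by exact_mod_cast hQ
  induction h with
  | zero =>
    intro ι _ hι x hx hB hle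
    rw [pow_zero] at hι
    rw [pow_zero, Real.one_rpow, mul_one]
    obtain ⟨s, hs⟩ := Fintype.card_eq_one_iff.mp hι
    have : (∑ r, x r) = x s := by
      rw [Fintype.sum_eq_single s]
      intro r hr
      exact absurd (hs r) hr
    rw [this]
    exact hle s
  | succ h ih =>
    intro ι _ hι x hx hB hle
    have hcard : Fintype.card ι = Fintype.card (Fin Q × Fin (Q ^ h)) := by
      rw [hι, Fintype.card_prod, Fintype.card_fin, Fintype.card_fin, pow_succ, mul_comm]
    obtain ⟨e⟩ : Nonempty (ι ≃ Fin Q × Fin (Q ^ h)) := ⟨Fintype.equivOfCardEq hcard⟩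
    have hne : ∀ (p p' : Fin Q × Fin (Q ^ h)), p ≠ p' → e.symm p ≠ e.symm p' :=
      fun p p' hp h => hp (e.symm.injective h)
    have hsum : (∑ l, x l) = ∑ s : Fin Q, ∑ r : Fin (Q ^ h), x (e.symm (s, r)) := by
      rw [← Fintype.sum_prod_type (f := fun p : Fin Q × Fin (Q ^ h) => x (e.symm p))]
      exact (Equiv.sum_comp e.symm x).symm
    have hX : ∀ s : Fin Q, t * ((Q : ℝ) ^ h) ^ a ≤ u (∑ r : Fin (Q ^ h), x (e.symm (s, r))) := by
      intro s
      exact ih (Fin (Q ^ h)) (Fintype.card_fin _) (fun r => x (e.symm (s, r)))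
        (fun r r' hr j => hx _ _ (hne _ _ (fun h => hr (Prod.ext_iff.mp h).2)) j)
        (fun r j hj => hB _ j hj) (fun r => hle _)
    have htp : 0 < t * ((Q : ℝ) ^ h) ^ a := by positivity
    have h1 := GRP_hom hu H htp (fun s => ∑ r : Fin (Q ^ h), x (e.symm (s, r)))
      (fun s s' hs j => by
        by_cases h2 : ∃ r, x (e.symm (s, r)) j ≠ 0
        · obtain ⟨r, hr⟩ := h2
          right
          show (∑ r', x (e.symm (s', r'))) j = 0
          rw [Finset.sum_apply]
          refine Finset.sum_eq_zero fun r' _ => ?_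
          rcases hx (e.symm (s, r)) (e.symm (s', r'))
            (hne _ _ (fun h => hs (Prod.ext_iff.mp h).1)) j with h3 | h3
          · exact absurd h3 hr
          · exact h3
        · push Not at h2
          left
          show (∑ r, x (e.symm (s, r))) j = 0
          rw [Finset.sum_apply]
          exact Finset.sum_eq_zero fun r _ => h2 r)
      (fun s j hj => by
        rw [Finset.sum_apply]
        exact Finset.sum_eq_zero fun r _ => hB _ j hj) hX
    rw [hsum]
    refine le_trans (le_of_eq ?_) h1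
    rw [pow_succ, Real.mul_rpow (by positivity) hQ0.le]
    ring

theorem p_GRP : Stmt_GRP := by
  intro N Q d u B hQ hd hd' hu H q x t hx hB hle
  have ha : (0 : ℝ) < 1 / 2 - d := by linarith
  have hQ1 : 0 < Q := by omega
  have hQ0 : (0 : ℝ) < Q := by exact_mod_cast hQ1
  rcases le_or_gt t 0 with ht | ht
  · calc ((q : ℝ) / Q) ^ (1 / 2 - d) * t ≤ 0 :=
        mul_nonpos_of_nonneg_of_nonpos (Real.rpow_nonneg (by positivity) _) ht
      _ ≤ u (∑ s, x s) := apply_nonneg _ _
  rcases Nat.eq_zero_or_pos q with hq | hq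
  · subst hq
    rw [Nat.cast_zero, zero_div, Real.zero_rpow ha.ne', zero_mul]
    exact apply_nonneg _ _
  obtain ⟨h, hh⟩ : ∃ h, h = Nat.log Q q := ⟨_, rfl⟩
  have h1 : Q ^ h ≤ q := by
    rw [hh]
    exact Nat.pow_log_le_self Q hq.ne'
  have h2 : q < Q ^ (h + 1) := by
    rw [hh]
    exact Nat.lt_pow_succ_log_self (by omega) q
  have h3 := GRP_iter hQ1 hu H ht h (Fin (Q ^ h)) (Fintype.card_fin _)
    (fun s => x (Fin.castLE h1 s))
    (fun s r hsr j => hx _ _ (fun h => hsr (Fin.castLE_injective h1 h)) j)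
    (fun s j hj => hB _ j hj) (fun s => hle _)
  have h4 : u (∑ s : Fin (Q ^ h), x (Fin.castLE h1 s)) ≤ u (∑ s, x s) := by
    classical
    apply hu
    intro j
    have h5 : (∑ s : Fin (Q ^ h), x (Fin.castLE h1 s)) j =
        ∑ s : Fin q, (if s ∈ (Finset.univ : Finset (Fin (Q ^ h))).map (Fin.castLEEmb h1) then (1 : ℝ)
          else 0) * x s j := by
      have h6 : ∀ s : Fin q, (if s ∈ (Finset.univ : Finset (Fin (Q ^ h))).map (Fin.castLEEmb h1)
          then (1 : ℝ) else 0) * x s j =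
          if s ∈ (Finset.univ : Finset (Fin (Q ^ h))).map (Fin.castLEEmb h1) then x s j else 0 := by
        intro s
        split_ifs
        · rw [one_mul]
        · rw [zero_mul]
      rw [Finset.sum_congr rfl fun s _ => h6 s, ← Finset.sum_filter, Finset.filter_mem_eq_inter,
        Finset.univ_inter, Finset.sum_map, Finset.sum_apply]
      rfl
    rw [h5, Finset.sum_apply]
    apply GRP_cmp (fun s r h => hx s r h)
    intro s
    split_ifs
    · rw [abs_one]
    · rw [abs_zero]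
      exact zero_le_one
  have h5 : (q : ℝ) / Q ≤ (Q : ℝ) ^ h := by
    rw [div_le_iff₀ hQ0, ← pow_succ]
    exact_mod_cast h2.le
  calc ((q : ℝ) / Q) ^ (1 / 2 - d) * t ≤ ((Q : ℝ) ^ h) ^ (1 / 2 - d) * t :=
        mul_le_mul_of_nonneg_right (Real.rpow_le_rpow (by positivity) h5 ha.le) ht.le
    _ = t * ((Q : ℝ) ^ h) ^ (1 / 2 - d) := mul_comm _ _
    _ ≤ u (∑ s, x s) := h3.trans h4

end Pool.UN
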