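import Pool.Agent.Work.MP_3e8c7a_un.Interface

set_option autoImplicit false

namespace Pool.UN

open Module Pool.Agent.MP3e8c7a
open Pool.RG (FacE)
open Pool.RX (rad sgn)

/-- The part of a vector on the block number `i` of length `W`. -/
def LEI_P {N : ℕ} (W i : ℕ) (z : Fin N → ℝ) : Fin N → ℝ := fun j => if (j : ℕ) / W = i then z j else 0

theorem LEI_sub {N q : ℕ} (x : Fin q → Fin N → ℝ) (hx : Dis x) (S : Finset (Fin q)) (j : Fin N) :
    |∑ s ∈ S, x s j| ≤ |∑ s, x s j| := by
  classical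
  by_cases h : ∀ s, x s j = 0
  · simp [h]
  · push Not at h
    obtain ⟨s0, hs0⟩ := h
    have h0 : ∀ s, s ≠ s0 → x s j = 0 := by
      intro s hs
      rcases hx s s0 hs j with h | h
      · exact h
      · exact absurd h hs0
    have h1 : ∑ s, x s j = x s0 j :=
      Finset.sum_eq_single s0 (fun s _ hs => h0 s hs) (fun h => absurd (Finset.mem_univ _) h)
    rw [h1]
    by_cases hm : s0 ∈ S
    · rw [Finset.sum_eq_single s0 (fun s _ hs => h0 s hs) (fun h => absurd hm h)]
    · rw [Finset.sum_eq_zero (fun s hs => h0 s (fun h => hm (h ▸ hs)))]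
      simp

theorem LEI_split {N J W : ℕ} (hW : 1 ≤ W) (hN : N ≤ J * W) (z : Fin N → ℝ) :
    z = ∑ i : Fin J, LEI_P W (i : ℕ) z := by
  funext j
  rw [Finset.sum_apply]
  have hj : (j : ℕ) / W < J := by
    rw [Nat.div_lt_iff_lt_mul (by omega)]
    exact lt_of_lt_of_le j.2 hN
  rw [Finset.sum_eq_single (⟨(j : ℕ) / W, hj⟩ : Fin J)]
  · simp [LEI_P]
  · intro i _ hi
    simp only [LEI_P]
    rw [if_neg]
    intro h
    exact hi (Fin.ext h.symm)
  · intro h
    exact absurd (Finset.mem_univ _) h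

theorem LEI_ex {N J W : ℕ} (hW : 1 ≤ W) (hJ : 1 ≤ J) (hN : N ≤ J * W) (u : Seminorm ℝ (Fin N → ℝ)) (z : Fin N → ℝ) (t : ℝ)
    (ht : t ≤ u z) : ∃ i : Fin J, t / J ≤ u (LEI_P W (i : ℕ) z) := by
  by_contra hc
  push Not at hc
  have hJ0 : (0 : ℝ) < J := by exact_mod_cast hJ
  have : Nonempty (Fin J) := ⟨⟨0, by omega⟩⟩
  have h1 : u z ≤ ∑ i : Fin J, u (LEI_P W (i : ℕ) z) := by
    conv_lhs => rw [LEI_split hW hN z]
    exact Finset.le_sum_of_subadditive u (map_zero u).le (map_add_le_add u) _ _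
  have h2 : ∑ i : Fin J, u (LEI_P W (i : ℕ) z) < ∑ i : Fin J, t / J :=
    Finset.sum_lt_sum_of_nonempty Finset.univ_nonempty (fun i _ => hc i)
  rw [Finset.sum_const, Finset.card_univ, Fintype.card_fin, nsmul_eq_mul, mul_div_cancel₀ _ hJ0.ne'] at h2
  linarith

theorem p_LEI (h1 : Stmt_GRP) : Stmt_LEI := by
  classical
  intro N Q k J d u hQ hJ hd hd4 hu hkN hNJ hbad q x t hx ht
  have ha0 : (0 : ℝ) < 1 / 2 - d := by linarith
  have hJ0 : (0 : ℝ) < J := by exact_mod_cast hJ
  have hJ1 : (1 : ℝ) ≤ J := by exact_mod_cast hJ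
  have hQ1 : (1 : ℝ) ≤ Q := by exact_mod_cast (by omega : 1 ≤ Q)
  have hQ0 : (0 : ℝ) < Q := by linarith
  rcases le_or_gt t 0 with ht0 | ht0
  · refine le_trans ?_ (apply_nonneg u _)
    refine mul_nonpos_of_nonneg_of_nonpos (Real.rpow_nonneg (Nat.cast_nonneg _) _) ?_
    exact div_nonpos_of_nonpos_of_nonneg ht0 (by positivity)
  rcases Nat.eq_zero_or_pos q with hq0 | hq0
  · subst hq0
    refine le_trans (le_of_eq ?_) (apply_nonneg u _)
    rw [Nat.cast_zero, Real.zero_rpow ha0.ne', zero_mul]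
  -- N is positive
  have hN1 : 1 ≤ N := by
    by_contra hc
    have hN0 : N = 0 := by omega
    subst hN0
    have h := ht ⟨0, hq0⟩
    have hz : x ⟨0, hq0⟩ = 0 := by
      funext j
      exact j.elim0
    rw [hz, map_zero] at h
    linarith
  have hW : 1 ≤ N - k := by
    by_contra hc
    have h0 : N - k = 0 := by omega
    rw [h0, mul_zero] at hNJ
    omega
  set W := N - k with hWdef
  have hf : ∀ s : Fin q, ∃ i : Fin J, t / J ≤ u (LEI_P W (i : ℕ) (x s)) := fun s => LEI_ex hW hJ hNJ u (x s) t (ht s)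
  choose f hf using hf
  -- pigeonhole
  have hpig : ∃ i : Fin J, (q : ℝ) ≤ J * ((Finset.univ.filter (fun s => f s = i)).card : ℝ) := by
    by_contra hc
    push Not at hc
    have : Nonempty (Fin J) := ⟨⟨0, by omega⟩⟩
    have h2 : ∑ i : Fin J, (J : ℝ) * ((Finset.univ.filter (fun s => f s = i)).card : ℝ) < ∑ i : Fin J, (q : ℝ) :=
      Finset.sum_lt_sum_of_nonempty Finset.univ_nonempty (fun i _ => hc i)
    rw [← Finset.mul_sum, Finset.sum_const, Finset.card_univ, Fintype.card_fin, nsmul_eq_mul] at h2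
    have h3 : ∑ i : Fin J, ((Finset.univ.filter (fun s => f s = i)).card : ℝ) = q := by
      have h4 := Finset.card_eq_sum_card_fiberwise (f := f) (s := Finset.univ) (t := Finset.univ) (fun s _ => Finset.mem_coe.2 (Finset.mem_univ _))
      rw [Finset.card_univ, Fintype.card_fin] at h4
      exact_mod_cast h4.symm
    rw [h3] at h2
    exact lt_irrefl _ h2
  obtain ⟨i, hi⟩ := hpig
  set S := Finset.univ.filter (fun s => f s = i) with hS
  let e : Fin S.card ≃ S := S.equivFin.symm
  let x' : Fin S.card → Fin N → ℝ := fun l => LEI_P W (i : ℕ) (x (e l : Fin q))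
  let B : Finset (Fin N) := Finset.univ.filter (fun j => (j : ℕ) / W = i)
  have hB : B.card + k ≤ N := by
    have h2 : B.card ≤ W := by
      have h3 : (B.image (fun j : Fin N => (j : ℕ))) ⊆ Finset.Ico ((i : ℕ) * W) ((i : ℕ) * W + W) := by
        intro a ha
        rw [Finset.mem_image] at ha
        obtain ⟨j, hj, rfl⟩ := ha
        have hj2 : (j : ℕ) / W = i := (Finset.mem_filter.1 hj).2
        rw [Finset.mem_Ico]
        have h5 := Nat.div_add_mod (j : ℕ) W
        have h6 := Nat.mod_lt (j : ℕ) (by omega : 0 < W)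
        rw [hj2] at h5
        rw [mul_comm] at h5
        omega
      have h4 := Finset.card_le_card h3
      rw [Finset.card_image_of_injective _ Fin.val_injective, Nat.card_Ico] at h4
      omega
    omega
  have hd1 : Dis x' := by
    intro a b hab j
    have hne : (e a : Fin q) ≠ (e b : Fin q) := by
      intro h
      exact hab (e.injective (Subtype.ext h))
    rcases hx _ _ hne j with h | h
    · left
      simp [x', LEI_P, h]
    · right
      simp [x', LEI_P, h]
  have hsup : ∀ s, ∀ j ∉ B, x' s j = 0 := by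
    intro s j hj
    have hj2 : ¬ ((j : ℕ) / W = i) := by
      intro h
      exact hj (Finset.mem_filter.2 ⟨Finset.mem_univ _, h⟩)
    simp only [x', LEI_P]
    rw [if_neg hj2]
  have ht' : ∀ s, t / J ≤ u (x' s) := by
    intro s
    have hs : f (e s : Fin q) = i := (Finset.mem_filter.1 (e s).2).2
    have := hf (e s : Fin q)
    rw [hs] at this
    exact this
  have hmain := h1 N Q d u B hQ hd hd4 hu (fun y hy hy2 hy3 => hbad B y hB hy hy2 hy3) S.card x' (t / J) hd1 hsup ht'
  have hmono : u (∑ s, x' s) ≤ u (∑ s, x s) := by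
    refine hu _ _ ?_
    intro j
    rw [Finset.sum_apply, Finset.sum_apply]
    by_cases hj : (j : ℕ) / W = i
    · have h2 : ∑ c, x' c j = ∑ s ∈ S, x s j := by
        have h3 : ∑ s ∈ S, x s j = ∑ s : S, x (s : Fin q) j := (Finset.sum_coe_sort S (fun s => x s j)).symm
        rw [h3, ← Equiv.sum_comp e]
        refine Finset.sum_congr rfl fun c _ => ?_
        simp only [x', LEI_P]
        rw [if_pos hj]
      rw [h2]
      exact LEI_sub x hx S j
    · have h2 : ∑ c, x' c j = 0 := by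
        refine Finset.sum_eq_zero fun c _ => ?_
        simp only [x', LEI_P]
        rw [if_neg hj]
      rw [h2, abs_zero]
      exact abs_nonneg _
  refine le_trans ?_ (le_trans hmain hmono)
  -- arithmetic
  have hq0' : (0 : ℝ) ≤ q := Nat.cast_nonneg _
  have hJQ : (1 : ℝ) ≤ J * Q := by nlinarith
  have e1 : (q : ℝ) / (J * Q) ≤ (S.card : ℝ) / Q := by
    rw [div_le_div_iff₀ (by positivity) hQ0]
    nlinarith
  have e2 : ((q : ℝ) / (J * Q)) ^ (1 / 2 - d) ≤ ((S.card : ℝ) / Q) ^ (1 / 2 - d) :=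
    Real.rpow_le_rpow (by positivity) e1 ha0.le
  have e3 : (q : ℝ) ^ (1 / 2 - d) * (1 / (J * Q)) ≤ ((q : ℝ) / (J * Q)) ^ (1 / 2 - d) := by
    have e4 : (q : ℝ) / (J * Q) = q * (1 / (J * Q)) := by ring
    rw [e4, Real.mul_rpow hq0' (by positivity)]
    refine mul_le_mul_of_nonneg_left ?_ (Real.rpow_nonneg hq0' _)
    have e5 : (1 / ((J : ℝ) * Q)) ^ (1 : ℝ) ≤ (1 / ((J : ℝ) * Q)) ^ (1 / 2 - d) := by
      refine Real.rpow_le_rpow_of_exponent_ge (by positivity) ?_ (by linarith)
      rw [div_le_one (by positivity)]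
      exact hJQ
    rwa [Real.rpow_one] at e5
  calc (q : ℝ) ^ (1 / 2 - d) * (t / (J * J * Q)) = ((q : ℝ) ^ (1 / 2 - d) * (1 / (J * Q))) * (t / J) := by
        field_simp
    _ ≤ ((S.card : ℝ) / Q) ^ (1 / 2 - d) * (t / J) :=
        mul_le_mul_of_nonneg_right (le_trans e3 e2) (by positivity)

end Pool.UN
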