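import Pool.Agent.Work.MP_3e8c7a_un.Interface

/-! # MP_3e8c7a_an, THEOREM UN: block MXR (the mean of the maximum) -/

set_option autoImplicit false

namespace Pool.UN

open Module Pool.Agent.MP3e8c7a
open Pool.RG (FacE)
open Pool.RX (rad sgn)

theorem MXR_dis {N Q : ℕ} {y : Fin Q → Fin N → ℝ} (hy : Dis y) (j : Fin N) :
    ∑ s, |y s j| = |∑ s, y s j| := by
  by_cases h : ∀ s, y s j = 0
  · simp [h]
  · push Not at h
    obtain ⟨s0, hs0⟩ := h
    have h1 : ∀ t ∈ Finset.univ, t ≠ s0 → y t j = 0 := by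
      intro t _ ht
      rcases hy s0 t (Ne.symm ht) j with h | h
      · exact absurd h hs0
      · exact h
    rw [Finset.sum_eq_single s0 (fun t ht hts => by rw [h1 t ht hts, abs_zero]) (by simp),
      Finset.sum_eq_single s0 h1 (by simp)]

theorem MXR_sgn_sq (c : Bool) : sgn c ^ 2 = 1 := by
  cases c <;> simp [sgn]

theorem MXR_sym {m : ℕ} (a g : Fin m → Bool) :
    rad a (fun l => sgn (g l)) = rad g (fun l => sgn (a l)) := by
  unfold rad
  exact Finset.sum_congr rfl fun l _ => mul_comm _ _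

theorem MXR_step {m Q N : ℕ} (P : ℝ) (hP : 2 ≤ P) (a : Fin Q → Fin m → Bool)
    (u : Seminorm ℝ (Fin N → ℝ)) (y : Fin Q → Fin N → ℝ) (hu : Unc u) (hy : Dis y)
    (x : Fin m → ℝ) :
    u (OO a y x) ≤ (∑ s, |rad (a s) x| ^ P) ^ (1 / P) * u (∑ s, y s) := by
  have hP0 : 0 < P := by linarith
  have hμ0 : 0 ≤ (∑ s, |rad (a s) x| ^ P) ^ (1 / P) :=
    Real.rpow_nonneg (Finset.sum_nonneg fun s _ => Real.rpow_nonneg (abs_nonneg _) _) _
  have hle : ∀ s, |rad (a s) x| ≤ (∑ s, |rad (a s) x| ^ P) ^ (1 / P) := by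
    intro s
    have h1 : |rad (a s) x| ^ P ≤ ∑ s, |rad (a s) x| ^ P :=
      Finset.single_le_sum (f := fun s => |rad (a s) x| ^ P)
        (fun i _ => Real.rpow_nonneg (abs_nonneg _) _) (Finset.mem_univ s)
    have h2 := Real.rpow_le_rpow (Real.rpow_nonneg (abs_nonneg _) _) h1
      (by positivity : (0 : ℝ) ≤ P⁻¹)
    rw [Real.rpow_rpow_inv (abs_nonneg _) hP0.ne'] at h2
    rwa [one_div]
  generalize (∑ s, |rad (a s) x| ^ P) ^ (1 / P) = μ at hμ0 hle ⊢
  have h3 : u (OO a y x) ≤ u (μ • ∑ s, y s) := by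
    refine hu _ _ fun j => ?_
    rw [OO_apply, Finset.sum_apply, Pi.smul_apply, Finset.sum_apply, smul_eq_mul]
    calc |∑ s, (rad (a s) x • y s) j| ≤ ∑ s, |(rad (a s) x • y s) j| :=
          Finset.abs_sum_le_sum_abs _ _
      _ ≤ ∑ s, μ * |y s j| := Finset.sum_le_sum fun s _ => by
          rw [Pi.smul_apply, smul_eq_mul, abs_mul]
          exact mul_le_mul_of_nonneg_right (hle s) (abs_nonneg _)
      _ = μ * ∑ s, |y s j| := by rw [Finset.mul_sum]
      _ = |μ * ∑ s, y s j| := by rw [MXR_dis hy, abs_mul, abs_of_nonneg hμ0]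
  rwa [map_smul_eq_mul, Real.norm_of_nonneg hμ0] at h3

/-- BLOCK MXR. -/
theorem p_MXR : Stmt_MXR := by
  intro P K hP hK hKh m Q N a u y hu hy
  have hP0 : 0 < P := by linarith
  have hP1 : 1 ≤ P := by linarith
  obtain ⟨μ, hμ⟩ : ∃ μ : (Fin m → Bool) → ℝ, ∀ g, μ g =
    (∑ s, |rad (a s) (fun l => sgn (g l))| ^ P) ^ (1 / P) := ⟨_, fun g => rfl⟩
  have hμ0 : ∀ g, 0 ≤ μ g := fun g => by
    rw [hμ]
    exact Real.rpow_nonneg (Finset.sum_nonneg fun s _ => Real.rpow_nonneg (abs_nonneg _) _) _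
  have h1 : ∑ g : Fin m → Bool, u (OO a y fun l => sgn (g l)) ≤ (∑ g, μ g) * u (∑ s, y s) := by
    rw [Finset.sum_mul]
    refine Finset.sum_le_sum fun g _ => ?_
    rw [hμ]
    exact MXR_step P hP a u y hu hy _
  have hμP : ∀ g, μ g ^ P = ∑ s, |rad (a s) (fun l => sgn (g l))| ^ P := by
    intro g
    rw [hμ, one_div,
      Real.rpow_inv_rpow (Finset.sum_nonneg fun s _ => Real.rpow_nonneg (abs_nonneg _) _) hP0.ne']
  have h2 : ∑ g, μ g ^ P ≤ Q * (2 ^ m * (K * (m : ℝ) ^ (P / 2))) := by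
    simp_rw [hμP]
    rw [Finset.sum_comm]
    have hs : ∀ s, ∑ g : Fin m → Bool, |rad (a s) (fun l => sgn (g l))| ^ P ≤
        2 ^ m * (K * (m : ℝ) ^ (P / 2)) := by
      intro s
      have h := hKh m (fun l => sgn (a s l))
      simp only [MXR_sgn_sq, Finset.sum_const, Finset.card_univ, Fintype.card_fin, nsmul_eq_mul,
        mul_one] at h
      simp_rw [MXR_sym (a s)]
      exact h
    calc _ ≤ ∑ s : Fin Q, 2 ^ m * (K * (m : ℝ) ^ (P / 2)) := Finset.sum_le_sum fun s _ => hs s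
      _ = _ := by rw [Finset.sum_const, Finset.card_univ, Fintype.card_fin, nsmul_eq_mul]
  have h3 : (∑ g, μ g) ^ P ≤ (2 ^ m : ℝ) ^ (P - 1) * ∑ g, μ g ^ P := by
    have h := Real.rpow_sum_le_const_mul_sum_rpow_of_nonneg (Finset.univ : Finset (Fin m → Bool))
      (f := μ) hP1 (fun g _ => hμ0 g)
    have hc : ((Finset.univ : Finset (Fin m → Bool)).card : ℝ) = 2 ^ m := by
      simp [Finset.card_univ]
    rwa [hc] at h
  have h4 : ∑ g, μ g ≤ 2 ^ m * ((Q * K) ^ (1 / P) * Real.sqrt m) := by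
    have hQK : 0 ≤ (Q : ℝ) * K := mul_nonneg (Nat.cast_nonneg _) (by linarith)
    rw [← Real.rpow_le_rpow_iff (Finset.sum_nonneg fun g _ => hμ0 g) (by positivity) hP0]
    have e1 : ((2 : ℝ) ^ m * ((Q * K) ^ (1 / P) * Real.sqrt m)) ^ P =
        (2 ^ m : ℝ) ^ P * ((Q * K) * (m : ℝ) ^ (P / 2)) := by
      rw [Real.mul_rpow (by positivity) (by positivity),
        Real.mul_rpow (by positivity) (by positivity), one_div, Real.rpow_inv_rpow hQK hP0.ne',
        Real.sqrt_eq_rpow, ← Real.rpow_mul (by positivity)]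
      congr 3
      ring
    rw [e1]
    refine (h3.trans (mul_le_mul_of_nonneg_left h2 (by positivity))).trans_eq ?_
    have e2 : (2 ^ m : ℝ) ^ P = (2 ^ m : ℝ) ^ (P - 1) * 2 ^ m := by
      rw [← Real.rpow_add_one (by positivity), sub_add_cancel]
    rw [e2]
    ring
  calc _ ≤ (∑ g, μ g) * u (∑ s, y s) := h1
    _ ≤ (2 ^ m * ((Q * K) ^ (1 / P) * Real.sqrt m)) * u (∑ s, y s) :=
        mul_le_mul_of_nonneg_right h4 (apply_nonneg _ _)
    _ = _ := by ring

end Pool.UN
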