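import Pool.Agent.Work.MP_3e8c7a_un.Interface

/-!
# Block NLU: bad families are not complemented (the trace argument)
-/

set_option autoImplicit false

namespace Pool.UN

open Module Pool.Agent.MP3e8c7a
open Pool.RG (FacE)
open Pool.RX (rad sgn)

theorem NLU_lin {k m : ℕ} (q : (Fin k → ℝ) →ₗ[ℝ] (Fin m → ℝ)) (x : Fin k → ℝ) (l : Fin m) :
    q x l = ∑ i, x i * q (Pi.single i 1) l := by
  have h : x = ∑ i, x i • (Pi.single i (1 : ℝ) : Fin k → ℝ) := by
    ext t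
    simp [Finset.sum_apply, Pi.single_apply]
  conv_lhs => rw [h]
  simp [map_sum, map_smul]

theorem p_NLU (h1 : Stmt_PTW) (h2 : Stmt_MXR) (h3 : Pool.GG.Stmt_KHU) (h4 : Pool.GG.Stmt_MAT)
    (h5 : Pool.RX.Stmt_KHI) : Stmt_NLU := by
  intro d C hd hd4 hC
  set P : ℝ := 2 / d with hPdef
  have hP2 : 2 ≤ P := by
    rw [hPdef, le_div_iff₀ hd]
    linarith
  have hPd : 1 / P = d / 2 := by
    rw [hPdef, one_div_div]
  obtain ⟨K, hK1, hK⟩ := h3 P hP2
  obtain ⟨lam, hlam, hmat⟩ := h4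
  have hC0 : 0 < C := by linarith
  have hK0 : 0 < K := by linarith
  have hlam0 : (0 : ℝ) < lam := by exact_mod_cast hlam
  have hlim : Filter.Tendsto (fun m : ℕ => (m : ℝ) ^ (d / 2)) Filter.atTop Filter.atTop :=
    (tendsto_rpow_atTop (by positivity)).comp tendsto_natCast_atTop_atTop
  set c : ℝ := Real.sqrt 3 * (20 * C) * (K ^ (d / 2) * (lam : ℝ) ^ (1 / 2 - d / 2)) with hc
  obtain ⟨m, hm2, hmc⟩ := ((Filter.eventually_ge_atTop 2).and
    (hlim.eventually (Filter.eventually_gt_atTop c))).exists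
  have hm1 : 1 ≤ m := by omega
  obtain ⟨a, ha⟩ := hmat m hm1
  have hQ1 : 1 ≤ lam * m := Nat.mul_pos hlam hm1
  have hQ2 : 2 ≤ lam * m := by nlinarith
  have hQ0 : (0 : ℝ) < ((lam * m : ℕ) : ℝ) := by exact_mod_cast hQ1
  have hm0 : (0 : ℝ) < m := by exact_mod_cast hm1
  refine ⟨m, lam * m, a, hQ2, ?_, ?_⟩
  · intro x hx
    have h6 := ha x
    have h7 : ∑ s, |rad (a s) x| = 0 := Finset.sum_eq_zero fun s _ => by rw [hx s, abs_zero]
    rw [h7] at h6
    have h8 : Real.sqrt (∑ l, x l ^ 2) ≤ 0 := by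
      by_contra hcc
      push Not at hcc
      have : 0 < ((lam * m : ℕ) : ℝ) / 20 * Real.sqrt (∑ l, x l ^ 2) := by positivity
      linarith
    have h9 : ∑ l, x l ^ 2 = 0 := by
      have h10 : Real.sqrt (∑ l, x l ^ 2) = 0 := le_antisymm h8 (Real.sqrt_nonneg _)
      exact (Real.sqrt_eq_zero (Finset.sum_nonneg fun l _ => sq_nonneg _)).1 h10
    ext l
    have h10 := (Finset.sum_eq_zero_iff_of_nonneg (fun l _ => sq_nonneg (x l))).1 h9 l (Finset.mem_univ l)
    simpa using h10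
  · rintro N u y hU hD hone hsum k w hW ⟨j, q, hqj, hj, hq⟩
    have hpt := h1 m (lam * m) N k C a u y w j q hQ1 hC0.le ha hU hW hD hone hj hq
    have hmx := h2 P K hP2 hK1 hK m (lam * m) N a u y hU hD
    set F : Fin k → ℝ := fun i => Real.sqrt (∑ l, j (Pi.single l 1) i ^ 2) with hFd
    set U : Fin k → ℝ := fun i => Real.sqrt (∑ l, q (Pi.single i 1) l ^ 2) with hUd
    have hF0 : ∀ i, 0 ≤ F i := fun i => Real.sqrt_nonneg _
    have hU0 : ∀ i, 0 ≤ U i := fun i => Real.sqrt_nonneg _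
    have ht : (m : ℝ) = ∑ i, ∑ l, j (Pi.single l 1) i * q (Pi.single i 1) l := by
      rw [Finset.sum_comm]
      have : ∀ l : Fin m, ∑ i, j (Pi.single l 1) i * q (Pi.single i 1) l = 1 := by
        intro l
        rw [← NLU_lin q (j (Pi.single l 1)) l, hqj]
        simp
      rw [Finset.sum_congr rfl fun l _ => this l]
      simp
    have hcs : ∀ i, ∑ l, j (Pi.single l 1) i * q (Pi.single i 1) l ≤ F i * U i := fun i =>
      Real.sum_mul_le_sqrt_mul_sqrt Finset.univ (fun l => j (Pi.single l 1) i) (fun l => q (Pi.single i 1) l)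
    have hkh : ∀ i, 2 ^ m * F i ≤ Real.sqrt 3 * ∑ g : Fin m → Bool, |j (fun l => sgn (g l)) i| := by
      intro i
      have h := h5 m (fun l => j (Pi.single l 1) i)
      refine h.trans (le_of_eq ?_)
      congr 1
      refine Finset.sum_congr rfl fun g _ => ?_
      rw [NLU_lin j (fun l => sgn (g l)) i]
      rfl
    have h2m : (0 : ℝ) < 2 ^ m := by positivity
    have hs3 : 0 ≤ Real.sqrt 3 := Real.sqrt_nonneg _
    have e1 : 2 ^ m * (m : ℝ) ≤ Real.sqrt 3 * ∑ g : Fin m → Bool, ∑ i, |j (fun l => sgn (g l)) i| * U i := by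
      calc 2 ^ m * (m : ℝ) ≤ 2 ^ m * ∑ i, F i * U i := by
            refine mul_le_mul_of_nonneg_left ?_ h2m.le
            rw [ht]
            exact Finset.sum_le_sum fun i _ => hcs i
        _ = ∑ i, (2 ^ m * F i) * U i := by
            rw [Finset.mul_sum]
            exact Finset.sum_congr rfl fun i _ => by ring
        _ ≤ ∑ i, (Real.sqrt 3 * ∑ g : Fin m → Bool, |j (fun l => sgn (g l)) i|) * U i :=
            Finset.sum_le_sum fun i _ => mul_le_mul_of_nonneg_right (hkh i) (hU0 i)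
        _ = Real.sqrt 3 * ∑ g : Fin m → Bool, ∑ i, |j (fun l => sgn (g l)) i| * U i := by
            rw [Finset.sum_comm, Finset.mul_sum]
            refine Finset.sum_congr rfl fun i _ => ?_
            rw [mul_assoc, Finset.sum_mul]
    have e2 : ∑ g : Fin m → Bool, ∑ i, |j (fun l => sgn (g l)) i| * U i ≤
        20 * C * ∑ g : Fin m → Bool, u (OO a y fun l => sgn (g l)) := by
      rw [Finset.mul_sum]
      exact Finset.sum_le_sum fun g _ => hpt (fun l => sgn (g l))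
    have e3 : (((lam * m : ℕ) : ℝ) * K) ^ (1 / P) * Real.sqrt m * u (∑ s, y s) ≤
        (((lam * m : ℕ) : ℝ) * K) ^ (1 / P) * Real.sqrt m * ((lam * m : ℕ) : ℝ) ^ (1 / 2 - d) :=
      mul_le_mul_of_nonneg_left hsum (by positivity)
    have e4 : 2 ^ m * (m : ℝ) ≤ 2 ^ m * (Real.sqrt 3 * (20 * C) *
        ((((lam * m : ℕ) : ℝ) * K) ^ (1 / P) * Real.sqrt m * ((lam * m : ℕ) : ℝ) ^ (1 / 2 - d))) := by
      calc 2 ^ m * (m : ℝ) ≤ Real.sqrt 3 * (20 * C * (2 ^ m * ((((lam * m : ℕ) : ℝ) * K) ^ (1 / P) *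
            Real.sqrt m * ((lam * m : ℕ) : ℝ) ^ (1 / 2 - d)))) := by
            refine e1.trans (mul_le_mul_of_nonneg_left ?_ hs3)
            refine e2.trans (mul_le_mul_of_nonneg_left ?_ (by positivity))
            exact hmx.trans (mul_le_mul_of_nonneg_left e3 h2m.le)
        _ = _ := by ring
    have e5 : (m : ℝ) ≤ Real.sqrt 3 * (20 * C) *
        ((((lam * m : ℕ) : ℝ) * K) ^ (1 / P) * Real.sqrt m * ((lam * m : ℕ) : ℝ) ^ (1 / 2 - d)) :=
      le_of_mul_le_mul_left e4 h2m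
    have e6 : (((lam * m : ℕ) : ℝ) * K) ^ (1 / P) * Real.sqrt m * ((lam * m : ℕ) : ℝ) ^ (1 / 2 - d) =
        (K ^ (d / 2) * (lam : ℝ) ^ (1 / 2 - d / 2)) * (m : ℝ) ^ (1 - d / 2) := by
      rw [hPd, Nat.cast_mul, Real.sqrt_eq_rpow, Real.mul_rpow (by positivity) hK0.le,
        Real.mul_rpow hlam0.le hm0.le, Real.mul_rpow hlam0.le hm0.le]
      have r1 : (lam : ℝ) ^ (1 / 2 - d / 2) = (lam : ℝ) ^ (d / 2) * (lam : ℝ) ^ (1 / 2 - d) := by
        rw [← Real.rpow_add hlam0]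
        congr 1
        ring
      have r2 : (m : ℝ) ^ (1 - d / 2) = (m : ℝ) ^ (d / 2) * (m : ℝ) ^ (1 / 2 : ℝ) * (m : ℝ) ^ (1 / 2 - d) := by
        rw [← Real.rpow_add hm0, ← Real.rpow_add hm0]
        congr 1
        ring
      rw [r1, r2]
      ring
    rw [e6] at e5
    have e7 : (m : ℝ) = (m : ℝ) ^ (d / 2) * (m : ℝ) ^ (1 - d / 2) := by
      rw [← Real.rpow_add hm0]
      conv_lhs => rw [← Real.rpow_one (m : ℝ)]
      congr 1
      ring
    have hpos : 0 < (m : ℝ) ^ (1 - d / 2) := by positivity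
    have e8 : c * (m : ℝ) ^ (1 - d / 2) < (m : ℝ) ^ (d / 2) * (m : ℝ) ^ (1 - d / 2) :=
      mul_lt_mul_of_pos_right hmc hpos
    rw [← e7, hc] at e8
    have e9 : Real.sqrt 3 * (20 * C) * ((K ^ (d / 2) * (lam : ℝ) ^ (1 / 2 - d / 2)) * (m : ℝ) ^ (1 - d / 2)) =
        Real.sqrt 3 * (20 * C) * (K ^ (d / 2) * (lam : ℝ) ^ (1 / 2 - d / 2)) * (m : ℝ) ^ (1 - d / 2) := by ring
    rw [e9] at e5
    linarith

end Pool.UN
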