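import Pool.Agent.Work.MP_3e8c7a_un.Interface

set_option autoImplicit false

namespace Pool.UN

open Module Pool.Agent.MP3e8c7a
open Pool.RG (FacE)
open Pool.RX (rad sgn)

/-- `rad g` as a linear map. -/
noncomputable def PTW_rad {m : ℕ} (g : Fin m → Bool) : (Fin m → ℝ) →ₗ[ℝ] ℝ where
  toFun x := rad g x
  map_add' x z := by simp only [rad, Pi.add_apply, mul_add, Finset.sum_add_distrib]
  map_smul' c x := by
    simp only [rad, Pi.smul_apply, smul_eq_mul, Finset.mul_sum, RingHom.id_apply]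
    exact Finset.sum_congr rfl fun l _ => by ring

lemma PTW_rad_apply {m : ℕ} (g : Fin m → Bool) (x : Fin m → ℝ) : PTW_rad g x = rad g x := rfl

lemma PTW_coord {m Q N : ℕ} (a : Fin Q → Fin m → Bool) (y : Fin Q → Fin N → ℝ) (hy : Dis y) (s : Fin Q)
    (x : Fin m → ℝ) (t : Fin N) : |(rad (a s) x • y s) t| ≤ |OO a y x t| := by
  by_cases h : y s t = 0
  · simp [h]
  · have h0 : OO a y x t = (rad (a s) x • y s) t := by
      rw [OO_apply, Finset.sum_apply]
      refine Finset.sum_eq_single s (fun r _ hr => ?_) (fun hs => absurd (Finset.mem_univ s) hs)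
      have := hy r s hr t
      rcases this with h1 | h1
      · simp [h1]
      · exact absurd h1 h
    rw [h0]

lemma PTW_one {m Q N : ℕ} (a : Fin Q → Fin m → Bool) (u : Seminorm ℝ (Fin N → ℝ)) (y : Fin Q → Fin N → ℝ) (hu : Unc u)
    (hy : Dis y) (h1 : ∀ s, u (y s) = 1) (s : Fin Q) (x : Fin m → ℝ) : |rad (a s) x| ≤ u (OO a y x) := by
  have h2 := hu (rad (a s) x • y s) (OO a y x) (PTW_coord a y hy s x)
  rwa [map_smul_eq_mul, h1 s, mul_one, Real.norm_eq_abs] at h2

lemma PTW_expand {m k : ℕ} (g : Fin m → Bool) (q : (Fin k → ℝ) →ₗ[ℝ] (Fin m → ℝ)) (z : Fin k → ℝ) :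
    rad g (q z) = ∑ i, z i * rad g (q (Pi.single i 1)) := by
  have h := LinearMap.pi_apply_eq_sum_univ (PTW_rad g ∘ₗ q) z
  simp only [LinearMap.comp_apply, PTW_rad_apply, smul_eq_mul] at h
  rw [h]
  refine Finset.sum_congr rfl fun i _ => ?_
  have : (fun j => if i = j then (1 : ℝ) else 0) = Pi.single i 1 := by
    funext j
    simp [Pi.single_apply, eq_comm]
  rw [this]

theorem p_PTW : Stmt_PTW := by
  intro m Q N k C a u y w j q hQ hC ha hu hw hy h1 hj hq x
  have hν : 0 ≤ u (OO a y x) := apply_nonneg u _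
  have key : ∀ s, ∑ i, |j x i| * |rad (a s) (q (Pi.single i 1))| ≤ C * u (OO a y x) := by
    intro s
    set ε : Fin k → ℝ := fun i => if 0 ≤ j x i * rad (a s) (q (Pi.single i 1)) then 1 else -1 with hε
    have hε1 : ∀ i, |ε i| = 1 := by
      intro i
      simp only [hε]
      split_ifs <;> simp
    have e1 : ∑ i, |j x i| * |rad (a s) (q (Pi.single i 1))| = rad (a s) (q fun i => ε i * j x i) := by
      rw [PTW_expand]
      refine Finset.sum_congr rfl fun i _ => ?_
      rw [← abs_mul]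
      simp only [hε]
      split_ifs with h
      · rw [abs_of_nonneg h]; ring
      · rw [abs_of_neg (not_le.mp h)]; ring
    rw [e1]
    calc rad (a s) (q fun i => ε i * j x i) ≤ |rad (a s) (q fun i => ε i * j x i)| := le_abs_self _
      _ ≤ u (OO a y (q fun i => ε i * j x i)) := PTW_one a u y hu hy h1 s _
      _ ≤ C * w (fun i => ε i * j x i) := hq _
      _ ≤ C * w (j x) := mul_le_mul_of_nonneg_left (hw _ _ fun i => by rw [abs_mul, hε1, one_mul]) hC
      _ ≤ C * u (OO a y x) := mul_le_mul_of_nonneg_left (hj x) hC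
  have hQ0 : (0 : ℝ) < Q := by exact_mod_cast hQ
  have hsum : ∑ s, ∑ i, |j x i| * |rad (a s) (q (Pi.single i 1))| ≤ Q * (C * u (OO a y x)) := by
    refine (Finset.sum_le_sum fun s _ => key s).trans ?_
    simp
  have hlow : (Q : ℝ) / 20 * ∑ i, |j x i| * Real.sqrt (∑ l, q (Pi.single i 1) l ^ 2) ≤
      ∑ s, ∑ i, |j x i| * |rad (a s) (q (Pi.single i 1))| := by
    rw [Finset.sum_comm, Finset.mul_sum]
    refine Finset.sum_le_sum fun i _ => ?_
    rw [← Finset.mul_sum]
    have := mul_le_mul_of_nonneg_left (ha (q (Pi.single i 1))) (abs_nonneg (j x i))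
    linarith
  have h2 := hlow.trans hsum
  have h3 : (Q : ℝ) * (∑ i, |j x i| * Real.sqrt (∑ l, q (Pi.single i 1) l ^ 2)) ≤ Q * (20 * C * u (OO a y x)) := by
    linarith
  exact le_of_mul_le_mul_left h3 hQ0

end Pool.UN
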