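import Pool.Agent.Work.MP_3e8c7a_un.Interface

/-!
# Block RIG: a bad family outside of `k` coordinates gives closeness
-/

set_option autoImplicit false

namespace Pool.UN

open Module Pool.Agent.MP3e8c7a
open Pool.RG (FacE)
open Pool.RX (rad sgn)

/-- extension by zero -/
noncomputable def RIG_ext {a m : ℕ} (e : Fin a → Fin m) : (Fin a → ℝ) →ₗ[ℝ] (Fin m → ℝ) :=
  Function.ExtendByZero.linearMap ℝ e

theorem RIG_ext_apply {a m : ℕ} (e : Fin a → Fin m) (he : Function.Injective e) (z : Fin a → ℝ)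
    (j : Fin a) : RIG_ext e z (e j) = z j := by
  show Function.extend e z 0 (e j) = z j
  exact he.extend_apply _ _ _

theorem RIG_ext_out {a m : ℕ} (e : Fin a → Fin m) (z : Fin a → ℝ)
    (s : Fin m) (hs : ¬ ∃ j, e j = s) : RIG_ext e z s = 0 := by
  show Function.extend e z 0 s = 0
  rw [Function.extend_apply' _ _ _ hs]
  rfl

theorem RIG_ext_inj {a m : ℕ} (e : Fin a → Fin m) (he : Function.Injective e) :
    Function.Injective (RIG_ext e) := by
  intro x y h
  funext j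
  rw [← RIG_ext_apply e he x j, ← RIG_ext_apply e he y j, h]

theorem RIG_unc {a m : ℕ} (e : Fin a → Fin m) (he : Function.Injective e)
    (u : Seminorm ℝ (Fin m → ℝ)) (hu : Unc u) : Unc (u.comp (RIG_ext e)) := by
  intro x y h
  show u (RIG_ext e x) ≤ u (RIG_ext e y)
  refine hu _ _ fun s => ?_
  by_cases hs : ∃ j, e j = s
  · obtain ⟨j, rfl⟩ := hs
    rw [RIG_ext_apply e he, RIG_ext_apply e he]
    exact h j
  · rw [RIG_ext_out e x s hs, RIG_ext_out e y s hs]

theorem RIG_OO_inj {m Q N : ℕ} (a : Fin Q → Fin m → Bool) (y : Fin Q → Fin N → ℝ)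
    (u : Seminorm ℝ (Fin N → ℝ)) (hinj : ∀ x : Fin m → ℝ, (∀ s, rad (a s) x = 0) → x = 0)
    (hD : Dis y) (hone : ∀ s, u (y s) = 1) : Function.Injective (OO a y) := by
  rw [← LinearMap.ker_eq_bot, LinearMap.ker_eq_bot']
  intro x hx
  refine hinj x fun s => ?_
  have hne : y s ≠ 0 := by
    intro h0
    have := hone s
    rw [h0, map_zero] at this
    exact zero_ne_one this
  obtain ⟨j, hj⟩ := Function.ne_iff.1 hne
  have h1 : OO a y x j = 0 := by
    rw [hx]
    rfl
  rw [OO_apply, Finset.sum_apply, Finset.sum_eq_single s] at h1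
  · rw [Pi.smul_apply, smul_eq_mul] at h1
    exact (mul_eq_zero.1 h1).resolve_right hj
  · intro t _ hts
    rw [Pi.smul_apply, smul_eq_mul]
    rcases hD s t (Ne.symm hts) j with h | h
    · exact absurd h hj
    · rw [h, mul_zero]
  · intro h
    exact absurd (Finset.mem_univ s) h

theorem p_RIG (h1 : Stmt_NLU) (h2 : Pool.GG.Stmt_GG) : Stmt_RIG := by
  intro d b M hd hd4 hb hM
  have hM0 : 0 < M := by linarith
  have hcst : 1 ≤ 648 * b ^ 4 * M ^ 3 := by
    have hb4 : 1 ≤ b ^ 4 := one_le_pow₀ hb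
    have hM3 : 1 ≤ M ^ 3 := one_le_pow₀ hM
    nlinarith
  obtain ⟨m, Q, a, hQ, hinj, hno⟩ := h1 d (648 * b ^ 4 * M ^ 3) hd hd4 hcst
  obtain ⟨D, K, hD, hG⟩ := h2 m
  refine ⟨Q, K, D, hQ, hD, ?_⟩
  intro V _ _ _ p r k N u i hp hr hyp hKk hU hDu hi B y hB hdis hsup hone hsum
  have hcard : k ≤ (Bᶜ : Finset (Fin N)).card := by
    rw [Finset.card_compl, Fintype.card_fin]
    omega
  obtain ⟨e, he, heB⟩ : ∃ e : Fin k → Fin N, Function.Injective e ∧ ∀ l, e l ∉ B :=
    ⟨(Bᶜ : Finset (Fin N)).orderEmbOfCardLe hcard, ((Bᶜ : Finset (Fin N)).orderEmbOfCardLe hcard).injective,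
      fun l => Finset.mem_compl.1 (Finset.orderEmbOfCardLe_mem _ hcard l)⟩
  have hii : Function.Injective i := by
    rw [← LinearMap.ker_eq_bot, LinearMap.ker_eq_bot']
    intro x hx
    have h3 := (hi x).2
    rw [hx, map_zero, mul_zero] at h3
    exact hDu x (le_antisymm h3 (apply_nonneg u x))
  let i₁ : (Fin k → ℝ) →ₗ[ℝ] V := i ∘ₗ RIG_ext e
  let Ω : (Fin m → ℝ) →ₗ[ℝ] V := i ∘ₗ OO a y
  have hi₁ : Function.Injective i₁ := hii.comp (RIG_ext_inj e he)
  have hΩ : Function.Injective Ω := hii.comp (RIG_OO_inj a y u hinj hdis hone)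
  have hpos : ∀ ω z, p (Ω ω) ≤ M * p (Ω ω + i₁ z) := by
    intro ω z
    have h3 : p (Ω ω) ≤ u (OO a y ω) := (hi _).1
    have h4 : u (OO a y ω) ≤ u (OO a y ω + RIG_ext e z) := by
      refine hU _ _ fun s => ?_
      rw [Pi.add_apply]
      by_cases hs : ∃ j, e j = s
      · obtain ⟨j, rfl⟩ := hs
        have h5 : OO a y ω (e j) = 0 := by
          rw [OO_apply, Finset.sum_apply]
          refine Finset.sum_eq_zero fun t _ => ?_
          rw [Pi.smul_apply, hsup t (e j) (heB j), smul_zero]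
        rw [h5, abs_zero]
        exact abs_nonneg _
      · rw [RIG_ext_out e z s hs, add_zero]
    have h6 := (hi (OO a y ω + RIG_ext e z)).2
    have h7 : i (OO a y ω + RIG_ext e z) = Ω ω + i₁ z := by
      rw [map_add]
      rfl
    rw [h7] at h6
    exact h3.trans (h4.trans h6)
  have hnot : ¬ FacE (648 * b ^ 4 * M) (p.comp Ω) (p.comp i₁) := by
    rintro ⟨j, q, g1, g2, g3⟩
    refine hno N u y hU hdis hone hsum k (u.comp (RIG_ext e)) (RIG_unc e he u hU) ⟨M⁻¹ • j, M • q, ?_, ?_, ?_⟩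
    · intro x
      rw [LinearMap.smul_apply, LinearMap.smul_apply, map_smul, smul_smul,
        mul_inv_cancel₀ hM0.ne', one_smul, g1]
    · intro x
      have h4 : u (RIG_ext e (j x)) ≤ M * p (i₁ (j x)) := (hi _).2
      have h5 : p (i₁ (j x)) ≤ p (Ω x) := g2 x
      have h6 : p (Ω x) ≤ u (OO a y x) := (hi _).1
      rw [LinearMap.smul_apply, map_smul_eq_mul, Real.norm_eq_abs, abs_of_pos (inv_pos.2 hM0)]
      show M⁻¹ * u (RIG_ext e (j x)) ≤ u (OO a y x)
      rw [inv_mul_le_iff₀ hM0]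
      exact h4.trans (mul_le_mul_of_nonneg_left (h5.trans h6) hM0.le)
    · intro x
      have h4 : u (OO a y (q x)) ≤ M * p (Ω (q x)) := (hi _).2
      have h5 : p (Ω (q x)) ≤ 648 * b ^ 4 * M * p (i₁ x) := g3 x
      have h6 : p (i₁ x) ≤ u (RIG_ext e x) := (hi _).1
      show u (OO a y (M • q x)) ≤ _
      rw [map_smul, map_smul_eq_mul, Real.norm_eq_abs, abs_of_pos hM0]
      have hc : 0 ≤ 648 * b ^ 4 * M := by positivity
      calc M * u (OO a y (q x)) ≤ M * (M * p (Ω (q x))) :=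
            mul_le_mul_of_nonneg_left h4 hM0.le
        _ ≤ M * (M * (648 * b ^ 4 * M * u (RIG_ext e x))) := by
            refine mul_le_mul_of_nonneg_left (mul_le_mul_of_nonneg_left ?_ hM0.le) hM0.le
            exact h5.trans (mul_le_mul_of_nonneg_left h6 hc)
        _ = 648 * b ^ 4 * M ^ 3 * u (RIG_ext e x) := by ring
  exact hG V k p r b M hb hM hp hr hyp hKk i₁ Ω hi₁ hΩ hpos hnot

end Pool.UN
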