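import Pool.Agent.Work.MP_3e8c7a_un.Interface

/-! Block SGU: sign invariant seminorms are lattice seminorms. -/

set_option autoImplicit false

namespace Pool.UN

open Module Pool.Agent.MP3e8c7a
open Pool.RG (FacE)
open Pool.RX (rad sgn)

theorem SGU_aux (N : ℕ) (u : Seminorm ℝ (Fin N → ℝ))
    (h : ∀ (s : Fin N → ℝ) (x : Fin N → ℝ), (∀ j, |s j| = 1) → u (fun j => s j * x j) ≤ u x)
    (y : Fin N → ℝ) (S : Finset (Fin N)) :
    ∀ θ : Fin N → ℝ, (∀ j, |θ j| ≤ 1) → (∀ j, j ∉ S → |θ j| = 1) → u (fun j => θ j * y j) ≤ u y := by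
  induction S using Finset.induction_on with
  | empty => intro θ _ h1; exact h θ y fun j => h1 j (Finset.notMem_empty j)
  | insert a S ha ih =>
    intro θ h0 h1
    have hp : ∀ c : ℝ, |c| = 1 → u (fun j => Function.update θ a c j * y j) ≤ u y := by
      intro c hc
      apply ih
      · intro j
        by_cases hj : j = a
        · subst hj; rw [Function.update_self, hc]
        · rw [Function.update_of_ne hj]; exact h0 j
      · intro j hj
        by_cases hja : j = a
        · subst hja; rw [Function.update_self, hc]
        · rw [Function.update_of_ne hja]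
          exact h1 j fun hh => (Finset.mem_insert.1 hh).elim hja hj
    have e : (fun j => θ j * y j) =
        ((1 + θ a) / 2) • (fun j => Function.update θ a 1 j * y j) +
        ((1 - θ a) / 2) • (fun j => Function.update θ a (-1) j * y j) := by
      funext j
      simp only [Pi.add_apply, Pi.smul_apply, smul_eq_mul]
      by_cases hj : j = a
      · subst hj; rw [Function.update_self, Function.update_self]; ring
      · rw [Function.update_of_ne hj, Function.update_of_ne hj]; ring
    obtain ⟨l1, l2⟩ := abs_le.1 (h0 a)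
    have e1 : ‖(1 + θ a) / 2‖ = (1 + θ a) / 2 := by
      rw [Real.norm_eq_abs, abs_of_nonneg (by linarith)]
    have e2 : ‖(1 - θ a) / 2‖ = (1 - θ a) / 2 := by
      rw [Real.norm_eq_abs, abs_of_nonneg (by linarith)]
    rw [e]
    refine (map_add_le_add u _ _).trans ?_
    rw [map_smul_eq_mul, map_smul_eq_mul, e1, e2]
    have b1 := mul_le_mul_of_nonneg_left (hp 1 (by norm_num)) (show (0 : ℝ) ≤ (1 + θ a) / 2 by linarith)
    have b2 := mul_le_mul_of_nonneg_left (hp (-1) (by norm_num)) (show (0 : ℝ) ≤ (1 - θ a) / 2 by linarith)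
    linarith

theorem p_SGU : Stmt_SGU := by
  intro N u h x y hxy
  have e : x = fun j => (if y j = 0 then 0 else x j / y j) * y j := by
    funext j
    by_cases hy : y j = 0
    · have := hxy j
      rw [hy, abs_zero] at this
      rw [if_pos hy, zero_mul]
      exact abs_nonpos_iff.1 this
    · rw [if_neg hy, div_mul_cancel₀ _ hy]
  rw [e]
  apply SGU_aux N u h y Finset.univ
  · intro j
    by_cases hy : y j = 0
    · rw [if_pos hy, abs_zero]; exact zero_le_one
    · rw [if_neg hy, abs_div]
      exact div_le_one_of_le₀ (hxy j) (abs_nonneg _)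
  · intro j hj; exact absurd (Finset.mem_univ j) hj

end Pool.UN
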