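import Pool.Agent.Work.MP_3e8c7a_un.Alt
import Pool.Agent.Work.MP_3e8c7a_un.B_PTW
import Pool.Agent.Work.MP_3e8c7a_un.B_MXR
import Pool.Agent.Work.MP_3e8c7a_un.B_NLU
import Pool.Agent.Work.MP_3e8c7a_un.B_RIG
import Pool.Agent.Work.MP_3e8c7a_un.B_GRP
import Pool.Agent.Work.MP_3e8c7a_un.B_LEI
import Pool.Agent.Work.MP_3e8c7a_un.B_SGU
import Pool.Agent.Work.MP_3e8c7a_gg.AllP

/-!
# MP_3e8c7a_an, THEOREM UN: the alternative, all blocks together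
-/

set_option autoImplicit false

namespace Pool.UN

open Module Pool.Agent.MP3e8c7a Pool.Agent.MP3e8c7as

theorem q_NLU : Stmt_NLU := p_NLU p_PTW p_MXR Pool.GG.p_KHU Pool.GG.q_MAT Pool.RX.p_KHI

theorem q_RIG : Stmt_RIG := p_RIG q_NLU Pool.GG.q_GG

theorem q_LEI : Stmt_LEI := p_LEI p_GRP

theorem q_UNC : Stmt_UNC := p_UNC q_RIG q_LEI

/-- **THEOREM UN**, the alternative. -/
theorem unconditional_alternative (α ε b M d : ℝ) (hα : 0 < α) (hα1 : α < 1) (hε : 0 < ε) (hM : 1 ≤ M)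
    (hd : 0 < d) (hd4 : d ≤ 1 / 4) : ∃ C : ℝ, 1 ≤ C ∧ ∀ n : ℕ, 0 < n →
      ∀ K L : Set (Fin n → ℝ), IsBody K → IsBody L → SectionsClose ⌈α * n⌉₊ b K L →
      ∀ (N : ℕ) (i : (Fin N → ℝ) →ₗ[ℝ] (Fin n → ℝ)) (U : Set (Fin N → ℝ)), (α + ε) * n ≤ N →
      (UncSection M K i U ∨ UncSection M L i U) →
      (GeomClose C K L ∧ dBM K L ≤ ENNReal.ofReal C) ∨ LowerEst C (1 / 2 - d) U :=
  unc_alt q_UNC p_SGU α ε b M d hα hα1 hε hM hd hd4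

end Pool.UN
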