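import Pool.Agent.Work.MP_3e8c7a_un.Interface
import Pool.Agent.Work.MP_3e8c7a_h.Bodies

/-!
# MP_3e8c7a_an, THEOREM UN: from norms to bodies
-/

set_option autoImplicit false

namespace Pool.UN

open Module Pool.Agent.MP3e8c7a
open scoped Pointwise

/-- An unconditional body: a symmetric convex body which is invariant under all changes of the signs
of the coordinates. -/
def UncBody {N : ℕ} (U : Set (Fin N → ℝ)) : Prop :=
  IsBody U ∧ ∀ x ∈ U, ∀ s : Fin N → ℝ, (∀ j, |s j| = 1) → (fun j => s j * x j) ∈ U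

/-- `K` has a section of dimension `N` within the factor `M` of a linear image of an unconditional
body. -/
def HasUncSection (M : ℝ) (N : ℕ) {n : ℕ} (K : Set (Fin n → ℝ)) : Prop :=
  ∃ (i : (Fin N → ℝ) →ₗ[ℝ] (Fin n → ℝ)) (U : Set (Fin N → ℝ)), Function.Injective i ∧ UncBody U ∧
    (∀ x ∈ U, i x ∈ K) ∧ ∀ x, i x ∈ K → x ∈ M • U

/-- Membership in a multiple. -/
lemma mem_smul_iff {n : ℕ} {K : Set (Fin n → ℝ)} {p : Seminorm ℝ (Fin n → ℝ)}
    (hK : ∀ x, x ∈ K ↔ p x ≤ 1) {C : ℝ} (hC : 0 < C) (x : Fin n → ℝ) : x ∈ C • K ↔ p x ≤ C := by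
  rw [Set.mem_smul_set_iff_inv_smul_mem₀ hC.ne', hK, map_smul_eq_mul, Real.norm_eq_abs,
    abs_of_pos (inv_pos.2 hC), inv_mul_le_iff₀ hC, mul_one]

/-- The lattice norm of an unconditional body. -/
lemma UncBody.norm (hS : Stmt_SGU) {N : ℕ} {U : Set (Fin N → ℝ)} (hU : UncBody U) :
    ∃ u : Seminorm ℝ (Fin N → ℝ), Def u ∧ Unc u ∧ ∀ x, x ∈ U ↔ u x ≤ 1 := by
  obtain ⟨u, hu, hUu⟩ := hU.1.exists_seminorm
  refine ⟨u, hu, hS N u fun s x hs => ?_, hUu⟩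
  let D : (Fin N → ℝ) →ₗ[ℝ] (Fin N → ℝ) :=
    { toFun := fun x j => s j * x j
      map_add' := fun x y => by ext j; simp [mul_add]
      map_smul' := fun c x => by ext j; simp [mul_left_comm] }
  have h := Pool.EH.le_of_unit u (u.comp D) zero_le_one (fun v hv => ?_) x
  · rw [one_mul] at h
    exact h
  · exact (hUu _).1 (hU.2 v ((hUu v).2 hv) s hs)

/-- Norms from an unconditional section. -/
lemma HasUncSection.norm (hS : Stmt_SGU) {M : ℝ} (hM : 1 ≤ M) {N n : ℕ} {K : Set (Fin n → ℝ)}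
    {p : Seminorm ℝ (Fin n → ℝ)} (hK : ∀ x, x ∈ K ↔ p x ≤ 1) (h : HasUncSection M N K) :
    ∃ (i : (Fin N → ℝ) →ₗ[ℝ] (Fin n → ℝ)) (u : Seminorm ℝ (Fin N → ℝ)), Def u ∧ Unc u ∧
      ∀ x, p (i x) ≤ u x ∧ u x ≤ M * p (i x) := by
  obtain ⟨i, U, -, hU, h1, h2⟩ := h
  obtain ⟨u, hu, hun, hUu⟩ := hU.norm hS
  have hM0 : 0 < M := by linarith
  refine ⟨i, u, hu, hun, fun x => ⟨?_, ?_⟩⟩
  · have h3 := Pool.EH.le_of_unit u (p.comp i) zero_le_one (fun v hv => ?_) x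
    · rw [one_mul] at h3
      exact h3
    · exact (hK _).1 (h1 v ((hUu v).2 hv))
  · refine Pool.EH.le_of_unit (p.comp i) u hM0.le (fun v hv => ?_) x
    exact (mem_smul_iff hUu hM0 v).1 (h2 v ((hK _).2 hv))

/-- **THEOREM UN** for bodies. -/
theorem unc_bodies (hU : Stmt_UNI) (hS : Stmt_SGU) (hL : Pool.EH.Stmt_LOB) (α ε b M δ : ℝ) (hα : 0 < α)
    (hε : 0 < ε) (hM : 1 ≤ M) (hδ : 0 < δ) : ∃ C : ℝ, ∀ n : ℕ, 0 < n →
      ∀ K L : Set (Fin n → ℝ), IsBody K → IsBody L → SectionsClose ⌈α * n⌉₊ b K L →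
      (∃ N : ℕ, (α + ε) * n ≤ N ∧ (HasUncSection M N K ∨ HasUncSection M N L)) →
      dBM K L ≤ ENNReal.ofReal (C * (n : ℝ) ^ δ) := by
  have hb : 1 ≤ |b| + 1 := by linarith [abs_nonneg b]
  set ε' : ℝ := min (ε / 2) 1 with hε'
  have hε0 : 0 < ε' := by rw [hε']; positivity
  have hεa : ε' ≤ ε / 2 := min_le_left _ _
  have hε1 : ε' ≤ 1 := min_le_right _ _
  obtain ⟨C₁, hC₁, hmain⟩ := hU α ε' (|b| + 1) M δ hα hε0 hε1 hb hM hδ
  obtain ⟨n₀, hn₀⟩ := exists_nat_ge (2 / ε)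
  obtain ⟨C₂, hC₂, hsmall⟩ := hL n₀
  refine ⟨C₁ + C₂ * C₂, fun n hn K L hK hL' hSc hpair => ?_⟩
  have hCC : 1 ≤ C₂ * C₂ := by nlinarith
  have hn1 : (1 : ℝ) ≤ n := by exact_mod_cast hn
  have hn0 : (0 : ℝ) < n := by linarith
  have hnδ : 1 ≤ (n : ℝ) ^ δ := Real.one_le_rpow hn1 hδ.le
  have hC0 : 1 ≤ (C₁ + C₂ * C₂) * (n : ℝ) ^ δ := by nlinarith
  obtain ⟨p, hp, hKp⟩ := hK.exists_seminorm
  obtain ⟨r, hr, hLr⟩ := hL'.exists_seminorm
  have H : Hyp (|b| + 1) ⌈α * n⌉₊ p r := hSc.hyp hp hr hKp hLr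
  have hfr : finrank ℝ (Fin n → ℝ) = n := by
    rw [Module.finrank_fintype_fun_eq_card, Fintype.card_fin]
  rcases lt_or_ge n n₀ with hlt | hge
  · have hEu : ∀ q : Seminorm ℝ (Fin n → ℝ), Def q → Pool.EH.Eu C₂ q := by
      intro q hq
      have h1 := hsmall (Fin n → ℝ) q hq ⊤ (by rw [finrank_top, hfr]; exact hlt.le)
      have h2 := h1.comp (Submodule.topEquiv (R := ℝ) (M := Fin n → ℝ)).symm.toLinearMap
      have h3 : (q.comp (⊤ : Submodule ℝ (Fin n → ℝ)).subtype).comp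
          (Submodule.topEquiv (R := ℝ) (M := Fin n → ℝ)).symm.toLinearMap = q := by
        ext x; rfl
      rwa [h3] at h2
    have h4 := (hEu p hp).iso hp hr hC₂ (hEu r hr) rfl
    exact (h4.mono (by nlinarith)).dBM_le hC0 hKp hLr
  · have hge' : (n₀ : ℝ) ≤ n := by exact_mod_cast hge
    have hb1 : 2 / ε ≤ n := hn₀.trans hge'
    have hε2 : 2 ≤ ε * n := by rw [div_le_iff₀ hε] at hb1; linarith
    have hk1 : α * n ≤ (⌈α * n⌉₊ : ℝ) := Nat.le_ceil _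
    have hk2 : (⌈α * n⌉₊ : ℝ) < α * n + 1 := Nat.ceil_lt_add_one (by positivity)
    obtain ⟨N, hN, hsec⟩ := hpair
    have hkN : ((⌈α * n⌉₊ : ℕ) : ℝ) + ε' * n ≤ N := by
      have h5 : ε' * n ≤ ε / 2 * n := mul_le_mul_of_nonneg_right hεa hn0.le
      nlinarith
    have hfin : Iso (C₁ * (n : ℝ) ^ δ) p r := by
      rcases hsec with h | h
      · obtain ⟨i, u, hu, hun, hi⟩ := h.norm hS hM hKp
        have h6 := hmain (Fin n → ℝ) p r _ N u i hp hr H (by rw [hfr]; exact hn) (by rw [hfr]; exact hk1)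
          (by rw [hfr]; exact hkN) hun hu hi
        rwa [hfr] at h6
      · obtain ⟨i, u, hu, hun, hi⟩ := h.norm hS hM hLr
        have h6 := hmain (Fin n → ℝ) r p _ N u i hr hp (H.symm (by linarith)) (by rw [hfr]; exact hn)
          (by rw [hfr]; exact hk1) (by rw [hfr]; exact hkN) hun hu hi
        rw [hfr] at h6
        exact h6.symm (by positivity)
    exact (hfin.mono (by nlinarith)).dBM_le hC0 hKp hLr

end Pool.UN
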