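import Pool.Agent.Work.MP_3e8c7a_un.B_UNC
import Pool.Agent.Work.MP_3e8c7a_un.Bodies
import Pool.Agent.Work.MP_3e8c7a_gg.Bodies

/-!
# MP_3e8c7a_an, THEOREM UN: bodies, the alternative with a constant
-/

set_option autoImplicit false

namespace Pool.UN

open Module Pool.Agent.MP3e8c7a Pool.Agent.MP3e8c7as
open scoped Pointwise

/-- `i` maps `ℝ^N` onto a subspace `E` of `ℝ^n` so that `K ∩ E` is the image of the unconditional
body `U`, up to the factor `M`. -/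
def UncSection (M : ℝ) {N n : ℕ} (K : Set (Fin n → ℝ)) (i : (Fin N → ℝ) →ₗ[ℝ] (Fin n → ℝ))
    (U : Set (Fin N → ℝ)) : Prop :=
  Function.Injective i ∧ UncBody U ∧ (∀ x ∈ U, i x ∈ K) ∧ ∀ x, i x ∈ K → x ∈ M • U

/-- The norm of `U` satisfies the lower estimate `q ^ e * min ‖x_s‖ ≤ C * ‖x_1 + ... + x_q‖` for
disjointly supported `x_1, ..., x_q`. -/
def LowerEst (C e : ℝ) {N : ℕ} (U : Set (Fin N → ℝ)) : Prop :=
  ∀ (q : ℕ) (x : Fin q → Fin N → ℝ) (t : ℝ), (∀ s s', s ≠ s' → ∀ j, x s j = 0 ∨ x s' j = 0) →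
    (∀ s, t ≤ gauge U (x s)) → (q : ℝ) ^ e * t ≤ C * gauge U (∑ s, x s)

/-- The gauge is the norm. -/
lemma gauge_eq {N : ℕ} {U : Set (Fin N → ℝ)} {u : Seminorm ℝ (Fin N → ℝ)}
    (hU : ∀ x, x ∈ U ↔ u x ≤ 1) (x : Fin N → ℝ) : gauge U x = u x := by
  have h1 : {r : ℝ | 0 < r ∧ x ∈ r • U} = {r : ℝ | 0 < r ∧ u x ≤ r} := by
    ext r
    constructor
    · rintro ⟨h1, h2⟩
      exact ⟨h1, (mem_smul_iff hU h1 x).1 h2⟩
    · rintro ⟨h1, h2⟩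
      exact ⟨h1, (mem_smul_iff hU h1 x).2 h2⟩
  unfold gauge
  have h2 : {r : ℝ | r ∈ Set.Ioi 0 ∧ x ∈ r • U} = {r : ℝ | 0 < r ∧ u x ≤ r} := h1
  have h3 : sInf {r : ℝ | 0 < r ∧ u x ≤ r} = u x := by
    apply le_antisymm
    · refine le_of_forall_pos_le_add fun ε hε => csInf_le ⟨0, fun r hr => hr.1.le⟩ ⟨?_, ?_⟩
      · have := apply_nonneg u x
        linarith
      · linarith
    · refine le_csInf ⟨u x + 1, ?_, ?_⟩ fun r hr => hr.2
      · have := apply_nonneg u x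
        linarith
      · linarith
  rw [← h3]
  congr 1

/-- Norms from an unconditional section. -/
lemma UncSection.norm (hS : Stmt_SGU) {M : ℝ} (hM : 1 ≤ M) {N n : ℕ} {K : Set (Fin n → ℝ)}
    {i : (Fin N → ℝ) →ₗ[ℝ] (Fin n → ℝ)} {U : Set (Fin N → ℝ)}
    {p : Seminorm ℝ (Fin n → ℝ)} (hK : ∀ x, x ∈ K ↔ p x ≤ 1) (h : UncSection M K i U) :
    ∃ u : Seminorm ℝ (Fin N → ℝ), Def u ∧ Unc u ∧ (∀ x, x ∈ U ↔ u x ≤ 1) ∧
      ∀ x, p (i x) ≤ u x ∧ u x ≤ M * p (i x) := by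
  obtain ⟨-, hU, h1, h2⟩ := h
  obtain ⟨u, hu, hun, hUu⟩ := hU.norm hS
  have hM0 : 0 < M := by linarith
  refine ⟨u, hu, hun, hUu, fun x => ⟨?_, ?_⟩⟩
  · have h3 := Pool.EH.le_of_unit u (p.comp i) zero_le_one (fun v hv => ?_) x
    · rw [one_mul] at h3
      exact h3
    · exact (hK _).1 (h1 v ((hUu v).2 hv))
  · refine Pool.EH.le_of_unit (p.comp i) u hM0.le (fun v hv => ?_) x
    exact (mem_smul_iff hUu hM0 v).1 (h2 v ((hK _).2 hv))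

/-- **THEOREM UN**, the alternative: a constant bound, or a lower estimate. -/
theorem unc_alt (hC : Stmt_UNC) (hS : Stmt_SGU) (α ε b M d : ℝ) (hα : 0 < α) (hα1 : α < 1)
    (hε : 0 < ε) (hM : 1 ≤ M) (hd : 0 < d) (hd4 : d ≤ 1 / 4) : ∃ C : ℝ, 1 ≤ C ∧ ∀ n : ℕ, 0 < n →
      ∀ K L : Set (Fin n → ℝ), IsBody K → IsBody L → SectionsClose ⌈α * n⌉₊ b K L →
      ∀ (N : ℕ) (i : (Fin N → ℝ) →ₗ[ℝ] (Fin n → ℝ)) (U : Set (Fin N → ℝ)), (α + ε) * n ≤ N →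
      (UncSection M K i U ∨ UncSection M L i U) →
      (GeomClose C K L ∧ dBM K L ≤ ENNReal.ofReal C) ∨ LowerEst C (1 / 2 - d) U := by
  have hb : 1 ≤ |b| + 1 := by linarith [abs_nonneg b]
  obtain ⟨K₁, D₁, C₁, hD₁, hC₁, hmain⟩ := hC (ε / 2) (|b| + 1) M d (by positivity) hb hM hd hd4
  obtain ⟨n₀, hn₀⟩ := exists_nat_ge (2 / ε)
  obtain ⟨C₂, hC₂, hcl⟩ := Pool.GG.close_bodies α D₁ (K₁ + n₀) hα hD₁
  refine ⟨C₁ + C₂, by linarith, fun n hn K L hK hL hSc N i U hN hpair => ?_⟩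
  have hfr : finrank ℝ (Fin n → ℝ) = n := by
    rw [Module.finrank_fintype_fun_eq_card, Fintype.card_fin]
  have hn0 : (0 : ℝ) < n := by exact_mod_cast hn
  obtain ⟨p, hp, hKp⟩ := hK.exists_seminorm
  obtain ⟨r, hr, hLr⟩ := hL.exists_seminorm
  have H : Hyp (|b| + 1) ⌈α * n⌉₊ p r := hSc.hyp hp hr hKp hLr
  by_cases hlow : LowerEst (C₁ + C₂) (1 / 2 - d) U
  · exact Or.inr hlow
  left
  have hk2 : (⌈α * n⌉₊ : ℝ) < α * n + 1 := Nat.ceil_lt_add_one (by positivity)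
  have hkn : ⌈α * n⌉₊ ≤ n := Nat.ceil_le.2 (by nlinarith)
  have key : ∀ (s t : Seminorm ℝ (Fin n → ℝ)) (K' : Set (Fin n → ℝ)), Def s → Def t →
      (∀ x, x ∈ K' ↔ s x ≤ 1) → Hyp (|b| + 1) ⌈α * n⌉₊ s t → UncSection M K' i U →
      K₁ + n₀ ≤ ⌈α * n⌉₊ → Pool.GG.RigN D₁ (K₁ + n₀) s t := by
    intro s t K' hs ht hKs H' hsec hk
    obtain ⟨u, hu, hun, hUu, hi⟩ := hsec.norm hS hM hKs
    have hn₀n : (n₀ : ℝ) ≤ n := by exact_mod_cast (by omega : n₀ ≤ n)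
    have hε2 : 2 ≤ ε * n := by
      have := hn₀.trans hn₀n
      rw [div_le_iff₀ hε] at this
      linarith
    rcases hmain (Fin n → ℝ) s t ⌈α * n⌉₊ N u i hs ht H' (by omega) (by rw [hfr]; nlinarith) hun hu hi
      with ⟨Y, Λ, g1, g2, g3⟩ | g
    · refine ⟨Y, Λ, ?_, g2, g3⟩
      rw [hfr] at g1
      omega
    · exfalso
      apply hlow
      intro q x t' hx ht'
      have e1 := g q x t' hx (fun s' => by rw [← gauge_eq hUu]; exact ht' s')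
      rw [gauge_eq hUu]
      exact e1.trans (mul_le_mul_of_nonneg_right (by linarith) (apply_nonneg _ _))
  have h5 := hcl n ⌈α * n⌉₊ hn (Nat.le_ceil _) K L p r hp hr hKp hLr fun hk => by
    rcases hpair with h | h
    · exact key p r K hp hr hKp H h hk
    · exact (key r p L hr hp hLr (H.symm (by linarith)) h hk).symm
  obtain ⟨⟨Y, t, g1, g2, g3, g4⟩, g5⟩ := h5
  refine ⟨⟨Y, t, g1, by linarith, g3, fun x hx => ?_⟩, g5.trans (ENNReal.ofReal_le_ofReal (by linarith))⟩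
  have g6 := (mem_smul_iff hKp (by linarith) x).1 (g4 hx)
  exact (mem_smul_iff hKp (by linarith) x).2 (g6.trans (by linarith))

end Pool.UN
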