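import Pool.Agent.Work.MP_3e8c7a_un.Interface

/-!
# MP_3e8c7a_an, THEOREM UN: closeness on bounded codimension, or a lower estimate
-/

set_option autoImplicit false

namespace Pool.UN

open Module Pool.Agent.MP3e8c7a
open Pool.RG (FacE)
open Pool.RX (rad sgn)

/-- **UNC** (uses RIG LEI). CLOSENESS ON BOUNDED CODIMENSION, OR A LOWER ESTIMATE. -/
def Stmt_UNC : Prop := ∀ ε b M d : ℝ, 0 < ε → 1 ≤ b → 1 ≤ M → 0 < d → d ≤ 1 / 4 → ∃ (K : ℕ) (D C : ℝ), 1 ≤ D ∧ 1 ≤ C ∧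
  ∀ (V : Type) [AddCommGroup V] [Module ℝ V] [FiniteDimensional ℝ V] (p r : Seminorm ℝ V) (k N : ℕ) (u : Seminorm ℝ (Fin N → ℝ))
    (i : (Fin N → ℝ) →ₗ[ℝ] V), Def p → Def r → Hyp b k p r → K ≤ k → k + ε * finrank ℝ V ≤ N → Unc u → Def u →
    (∀ x, p (i x) ≤ u x ∧ u x ≤ M * p (i x)) →
    (∃ (Y : Submodule ℝ V) (Λ : ℝ), finrank ℝ V ≤ finrank ℝ Y + K ∧ 0 < Λ ∧ ∀ x ∈ Y, p x ≤ D * (Λ * r x) ∧ Λ * r x ≤ D * p x) ∨
      ∀ (q : ℕ) (x : Fin q → Fin N → ℝ) (t : ℝ), Dis x → (∀ s, t ≤ u (x s)) →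
        (q : ℝ) ^ (1 / 2 - d) * t ≤ C * u (∑ s, x s)

theorem p_UNC (h1 : Stmt_RIG) (h2 : Stmt_LEI) : Stmt_UNC := by
  intro ε b M d hε hb hM hd hd4
  obtain ⟨Q, K₁, D₁, hQ, hD₁, hrig⟩ := h1 d b M hd hd4 hb hM
  obtain ⟨J, hJ⟩ := exists_nat_ge (1 / ε + 1)
  have hJ0 : 0 < 1 / ε := one_div_pos.2 hε
  have hJ1 : (1 : ℝ) ≤ J := by linarith
  have hJ1' : 1 ≤ J := by exact_mod_cast hJ1
  have hQ2 : (2 : ℝ) ≤ Q := by exact_mod_cast hQ
  have hJJQ : (0 : ℝ) < J * J * Q := by positivity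
  refine ⟨K₁, D₁, J * J * Q, hD₁, by nlinarith, ?_⟩
  intro V _ _ _ p r k N u i hp hr H hKk hN hun hu hi
  by_cases hbad : ∃ (B : Finset (Fin N)) (y : Fin Q → Fin N → ℝ), B.card + k ≤ N ∧ Dis y ∧
      (∀ s, ∀ j ∉ B, y s j = 0) ∧ (∀ s, u (y s) = 1) ∧ u (∑ s, y s) ≤ (Q : ℝ) ^ (1 / 2 - d)
  · left
    obtain ⟨B, y, g1, g2, g3, g4, g5⟩ := hbad
    exact hrig V p r k N u i hp hr H hKk hun hu hi B y g1 g2 g3 g4 g5
  · right
    push Not at hbad
    have hinj : Function.Injective i := by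
      rw [injective_iff_map_eq_zero]
      intro x hx
      have e1 := (hi x).2
      rw [hx, map_zero, mul_zero] at e1
      exact hu _ (le_antisymm e1 (apply_nonneg _ _))
    have hNn : N ≤ finrank ℝ V := by
      have e1 := LinearMap.finrank_le_finrank_of_injective hinj
      rwa [Module.finrank_fintype_fun_eq_card, Fintype.card_fin] at e1
    have hNn' : (N : ℝ) ≤ finrank ℝ V := by exact_mod_cast hNn
    have hkN' : (k : ℝ) ≤ N := by
      have : 0 ≤ ε * (finrank ℝ V : ℝ) := by positivity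
      linarith
    have hkN : k ≤ N := by exact_mod_cast hkN'
    have hNJ : N ≤ J * (N - k) := by
      have e2 : (N : ℝ) ≤ ((J * (N - k) : ℕ) : ℝ) := by
        push_cast [hkN]
        have e3 : ε * N ≤ N - k := by
          have : ε * N ≤ ε * (finrank ℝ V : ℝ) := mul_le_mul_of_nonneg_left hNn' hε.le
          linarith
        have e4 : 1 ≤ J * ε := by
          have : 1 / ε ≤ J := by linarith
          rwa [div_le_iff₀ hε] at this
        have e5 : (0 : ℝ) ≤ N := Nat.cast_nonneg N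
        nlinarith
      exact_mod_cast e2
    intro q x t hx ht
    have e1 := h2 N Q k J d u hQ hJ1' hd hd4 hun hkN hNJ
      (fun B y g1 g2 g3 g4 => (hbad B y g1 g2 g3 g4).le) q x t hx ht
    have e3 : (q : ℝ) ^ (1 / 2 - d) * (t / (J * J * Q)) = (q : ℝ) ^ (1 / 2 - d) * t / (J * J * Q) := by
      ring
    rw [e3, div_le_iff₀ hJJQ] at e1
    linarith

end Pool.UN
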