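import Pool.Agent.Work.MP_3e8c7a_gg.InterfaceP
import Pool.Agent.Work.MP_3e8c7a_h.Interface

/-!
# MP_3e8c7a_an, THEOREM UN: unconditional bodies up to `n ^ δ`

`Unc u`: `u` is a lattice seminorm on `ℝ^N` (`|x| ≤ |y|` coordinatewise gives `u x ≤ u y`; so `u x = u |x|`, signs do not matter). `Dis y`: the vectors `y s` are disjointly supported. `ind A`: the indicator function of `A`. `OO a y x = ∑ s, rad (a s) x • y s`.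
`rad g x = ∑ l, sgn (g l) * x l` (`Pool.RX.rad`, `Pool.RX.sgn`). `FacE C s w` (`MP_3e8c7a_g/Interface.lean`): `j`, `q` linear, `q (j x) = x`, `w (j x) ≤ s x`, `s (q z) ≤ C * w z`. `Eu`, `Stmt_VRT` are in `Pool.EH` (`MP_3e8c7a_h/Base.lean`, `MP_3e8c7a_h/Interface.lean`), `Iso`, `Hyp`, `Def` in `Pool.Agent.MP3e8c7a`.

RULES. Every block is one file `B_X.lean` in this folder, `import Pool.Agent.Work.MP_3e8c7a_un.Interface`, `namespace Pool.UN`, `open Module Pool.Agent.MP3e8c7a`, `open Pool.RG (FacE)`, `open Pool.RX (rad sgn)`, `theorem p_X (h1 : Stmt_Y) .. : Stmt_X` with exactly the blocks named after `uses` as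
hypotheses in that order (`theorem p_X : Stmt_X` if it uses nothing); auxiliary lemmas with the prefix `X_`. No straight double quotes. All powers with real exponents are `Real.rpow`, `0 ^ 0 = 1` does not matter.
-/

set_option autoImplicit false

namespace Pool.UN

open Module Pool.Agent.MP3e8c7a
open Pool.RG (FacE)
open Pool.RX (rad sgn)

/-- Lattice seminorms. -/
def Unc {N : ℕ} (u : Seminorm ℝ (Fin N → ℝ)) : Prop := ∀ x y : Fin N → ℝ, (∀ j, |x j| ≤ |y j|) → u x ≤ u y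

/-- Disjointly supported vectors. -/
def Dis {N q : ℕ} (y : Fin q → Fin N → ℝ) : Prop := ∀ s t, s ≠ t → ∀ j, y s j = 0 ∨ y t j = 0

/-- The indicator function. -/
def ind {N : ℕ} (A : Finset (Fin N)) : Fin N → ℝ := fun j => if j ∈ A then 1 else 0

/-- The map `x ↦ ∑ s, rad (a s) x • y s`. -/
def OO {m Q N : ℕ} (a : Fin Q → Fin m → Bool) (y : Fin Q → Fin N → ℝ) : (Fin m → ℝ) →ₗ[ℝ] (Fin N → ℝ) where
  toFun x := ∑ s, rad (a s) x • y s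
  map_add' x z := by
    rw [← Finset.sum_add_distrib]
    refine Finset.sum_congr rfl fun s _ => ?_
    rw [← add_smul]
    congr 1
    simp only [rad, Pi.add_apply, mul_add, Finset.sum_add_distrib]
  map_smul' c x := by
    rw [RingHom.id_apply, Finset.smul_sum]
    refine Finset.sum_congr rfl fun s _ => ?_
    rw [smul_smul]
    congr 1
    simp only [rad, Pi.smul_apply, smul_eq_mul, Finset.mul_sum]
    exact Finset.sum_congr rfl fun l _ => by ring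

theorem OO_apply {m Q N : ℕ} (a : Fin Q → Fin m → Bool) (y : Fin Q → Fin N → ℝ) (x : Fin m → ℝ) :
    OO a y x = ∑ s, rad (a s) x • y s := rfl

/-- Lower `2`-estimate with the constant `L` for disjoint vectors. -/
def Low2 (L : ℝ) {N : ℕ} (u : Seminorm ℝ (Fin N → ℝ)) : Prop :=
  ∀ (q : ℕ) (z : Fin q → Fin N → ℝ), q ≤ N → Dis z → ∑ l, u (z l) ^ 2 ≤ L ^ 2 * u (∑ l, z l) ^ 2

/-! ## 1. Bad families -/

/-- **PTW** (160; uses nothing). THE TRACE INEQUALITY, POINTWISE. Let `e_i = Pi.single i 1`, `f_i = j x i`, `v_i = q e_i : Fin m → ℝ`, `ν ω = u (OO a y ω)`. (1) `|rad (a s) ω| ≤ ν ω` for every `s`: the vectors `y s` are disjoint, so `|rad (a s) ω * y s j| ≤ |(OO a y ω) j|` for every coordinate `j` (at most one `y t j` is not `0`), `Unc`, `u (y s) = 1`.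
(2) For every function `ε : Fin k → ℝ` with `|ε i| = 1`: `ν (∑ i, ε i * f_i • v_i) = ν (q (fun i => ε i * f_i)) ≤ C * w (fun i => ε i * f_i) ≤ C * w (j x) ≤ C * ν x`. (3) For every `s` choose `ε i` = the sign of `f_i * rad (a s) v_i`: `∑ i, |f_i| * |rad (a s) v_i| = rad (a s) (∑ i, ε i * f_i • v_i) ≤ C * ν x`.
(4) Sum over `s` and the hypothesis on `a`: `∑ i, |f_i| * (Q / 20) * √(∑ l, v_i l ^ 2) ≤ ∑ i, |f_i| ∑ s, |rad (a s) v_i| ≤ Q * C * ν x`; divide by `Q / 20 > 0`. -/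
def Stmt_PTW : Prop := ∀ (m Q N k : ℕ) (C : ℝ) (a : Fin Q → Fin m → Bool) (u : Seminorm ℝ (Fin N → ℝ)) (y : Fin Q → Fin N → ℝ)
  (w : Seminorm ℝ (Fin k → ℝ)) (j : (Fin m → ℝ) →ₗ[ℝ] (Fin k → ℝ)) (q : (Fin k → ℝ) →ₗ[ℝ] (Fin m → ℝ)), 1 ≤ Q → 0 ≤ C →
  (∀ x : Fin m → ℝ, (Q : ℝ) / 20 * Real.sqrt (∑ l, x l ^ 2) ≤ ∑ s, |rad (a s) x|) → Unc u → Unc w → Dis y → (∀ s, u (y s) = 1) →
  (∀ x, w (j x) ≤ u (OO a y x)) → (∀ z, u (OO a y (q z)) ≤ C * w z) →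
  ∀ x, ∑ i, |j x i| * Real.sqrt (∑ l, q (Pi.single i 1) l ^ 2) ≤ 20 * C * u (OO a y x)

/-- **MXR** (160; uses nothing; `Pool.GG.Stmt_KHU` is the hypothesis written out). THE MEAN OF THE MAXIMUM. For `g : Fin m → Bool` let `σ g l = sgn (g l)`, `c s g = rad (a s) (σ g)`, so `c s g = rad g (σ (a s))` (`rad`, `sgn` are symmetric), and `μ g = (∑ s, |c s g| ^ P) ^ (1 / P) ≥ |c s g|` for all `s`. `u (OO a y (σ g)) ≤ μ g * u (∑ s, y s)` (disjoint vectors and `Unc`: coordinatewise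
`|(OO a y (σ g)) j| ≤ μ g * |(∑ s, y s) j|`). Power mean (`Real.inner_le_Lp_mul_Lq` or `Real.pow_arith_mean_le_arith_mean_rpow`, concavity): `∑ g, μ g ≤ 2 ^ m * ((∑ g, μ g ^ P) / 2 ^ m) ^ (1 / P)`, `∑ g, μ g ^ P = ∑ s, ∑ g, |rad g (σ (a s))| ^ P ≤ Q * 2 ^ m * (K * m ^ (P / 2))` (`∑ l, σ (a s) l ^ 2 = m`).
`(Q * K * m ^ (P / 2)) ^ (1 / P) = (Q * K) ^ (1 / P) * √m`. -/
def Stmt_MXR : Prop := ∀ (P K : ℝ), 2 ≤ P → 1 ≤ K →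
  (∀ (m : ℕ) (x : Fin m → ℝ), ∑ g : Fin m → Bool, |rad g x| ^ P ≤ 2 ^ m * (K * (∑ l, x l ^ 2) ^ (P / 2))) →
  ∀ (m Q N : ℕ) (a : Fin Q → Fin m → Bool) (u : Seminorm ℝ (Fin N → ℝ)) (y : Fin Q → Fin N → ℝ), Unc u → Dis y →
  ∑ g : Fin m → Bool, u (OO a y fun l => sgn (g l)) ≤ 2 ^ m * (((Q * K) ^ (1 / P) * Real.sqrt m) * u (∑ s, y s))

/-- **NLU** (220; uses PTW MXR, `Pool.GG.Stmt_KHU`, `Pool.GG.Stmt_MAT`, `Pool.RX.Stmt_KHI`). BAD FAMILIES ARE NOT COMPLEMENTED. `lam` of MAT, `P = 2 / d ≥ 2`, `K` of KHU for `P`. `m ≥ 2` large, `Q = lam * m`, `a` of MAT (`∑ s, |rad (a s) x| ≥ (Q / 20) * |x|_2`; so `rad (a s) x = 0` for all `s` gives `x = 0`). Suppose `j`, `q` are as in `FacE C`; `f i l = j e_l i`, `v i = q e_i`: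
`m = ∑ l, (q (j e_l)) l = ∑ i, ∑ l, f i l * v i l ≤ ∑ i, |f i|_2 * |v i|_2` (Cauchy-Schwarz). KHI: `2 ^ m * |f i|_2 ≤ √3 * ∑ g, |rad g (f i)|`, and `rad g (f i) = j (σ g) i` with `σ g l = sgn (g l)`. PTW for `x = σ g` and MXR: `2 ^ m * m ≤ √3 * ∑ g, ∑ i, |j (σ g) i| * |v i|_2 ≤ √3 * 20 * C * ∑ g, u (OO a y (σ g)) ≤ √3 * 20 * C * 2 ^ m * (Q * K) ^ (1 / P) * √m * Q ^ (1/2 - d)`.
`1 / P = d / 2`, `Q = lam * m`, so `m ≤ 35 * C * K * lam * m ^ (1 - d / 2)` (`(Q K) ^ (d/2) ≤ K * Q ^ (d/2)`, `Q ^ (1/2 - d/2) ≤ lam * m ^ (1/2 - d/2)`): `m ^ (d / 2) ≤ 35 * C * K * lam`, false for large `m`. -/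
def Stmt_NLU : Prop := ∀ d C : ℝ, 0 < d → d ≤ 1 / 4 → 1 ≤ C → ∃ (m Q : ℕ) (a : Fin Q → Fin m → Bool), 2 ≤ Q ∧
  (∀ x : Fin m → ℝ, (∀ s, rad (a s) x = 0) → x = 0) ∧
  ∀ (N : ℕ) (u : Seminorm ℝ (Fin N → ℝ)) (y : Fin Q → Fin N → ℝ), Unc u → Dis y → (∀ s, u (y s) = 1) → u (∑ s, y s) ≤ (Q : ℝ) ^ (1 / 2 - d) →
  ∀ (k : ℕ) (w : Seminorm ℝ (Fin k → ℝ)), Unc w → ¬ FacE C (u.comp (OO a y)) w

/-- **RIG** (220; uses NLU and `Pool.GG.Stmt_GG`). A BAD FAMILY OUTSIDE OF `k` COORDINATES GIVES CLOSENESS. `m, Q, a` = NLU for the constant `648 b⁴ M³`; `D, K` = GG for `M := m`. `B.card + k ≤ N`: an injection `e : Fin k → Fin N` with values outside of `B` (the complement of `B` has at least `k` elements). `E z j = ∑ l, if e l = j then z l else 0` (linear, `E z (e l) = z l`, `0` elsewhere), `w = u.comp E` is `Unc`.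
`i₁ = i ∘ E`, `Ω = i ∘ OO a y`. `i` is injective (`u x ≤ M p (i x)`, `Def u`); `OO a y` is injective (disjointness: `u (OO a y x) ≥ |rad (a s) x| u (y s)`, and the property of `a`). POSITION: `p (Ω ω) ≤ u (OO a y ω) ≤ u (OO a y ω + E z) ≤ M p (Ω ω + i₁ z)` (disjoint supports, `Unc`; `C₁ = M`).
`FacE (648 b⁴ M) (p.comp Ω) (p.comp i₁)` with `j, q` would give `FacE (648 b⁴ M³) (u.comp (OO a y)) w` with `M⁻¹ • j`, `M • q`: `u (E (j ω)) ≤ M p (i₁ (j ω)) ≤ M p (Ω ω) ≤ M u (OO a y ω)`, `u (OO a y (q z)) ≤ M p (Ω (q z)) ≤ M 648 b⁴ M p (i₁ z) ≤ 648 b⁴ M² u (E z)`. -/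
def Stmt_RIG : Prop := ∀ d b M : ℝ, 0 < d → d ≤ 1 / 4 → 1 ≤ b → 1 ≤ M → ∃ (Q K : ℕ) (D : ℝ), 2 ≤ Q ∧ 1 ≤ D ∧
  ∀ (V : Type) [AddCommGroup V] [Module ℝ V] [FiniteDimensional ℝ V] (p r : Seminorm ℝ V) (k N : ℕ) (u : Seminorm ℝ (Fin N → ℝ))
    (i : (Fin N → ℝ) →ₗ[ℝ] V), Def p → Def r → Hyp b k p r → K ≤ k → Unc u → Def u → (∀ x, p (i x) ≤ u x ∧ u x ≤ M * p (i x)) →
  ∀ (B : Finset (Fin N)) (y : Fin Q → Fin N → ℝ), B.card + k ≤ N → Dis y → (∀ s, ∀ j ∉ B, y s j = 0) → (∀ s, u (y s) = 1) →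
    u (∑ s, y s) ≤ (Q : ℝ) ^ (1 / 2 - d) →
    ∃ (Y : Submodule ℝ V) (Λ : ℝ), finrank ℝ V ≤ finrank ℝ Y + K ∧ 0 < Λ ∧ ∀ x ∈ Y, p x ≤ D * (Λ * r x) ∧ Λ * r x ≤ D * p x

/-! ## 2. Lower estimates -/

/-- **GRP** (180; uses nothing). ITERATION IN `ℝ^B`. First, homogeneity: if `t ≤ u (x s)` for `Q` disjoint vectors in `ℝ^B` (`t > 0`) then `t * Q ^ (1/2 - d) ≤ u (∑ s, x s)`: apply the hypothesis to `(u (x s))⁻¹ • x s`, and `|t * (u (x s))⁻¹ * x s j| ≤ |x s j|`, `Unc`. Claim by induction on `h`: for every finite set `S` of indices with `Q ^ h ≤ S.card`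
(disjoint vectors `x l`, `l ∈ S`, in `ℝ^B`, `t ≤ u (x l)`): `t * (Q ^ h) ^ (1/2 - d) ≤ u (∑ l ∈ S, x l)`. `h = 0`: one vector and monotonicity. `h + 1`: choose disjoint subsets `S_1, .., S_Q` of `S` with `Q ^ h` elements (e.g. by the order of the indices, or `Fin (Q ^ (h+1)) ≃ Fin Q × Fin (Q ^ h)`), `X_s = ∑ l ∈ S_s, x l`: `u (X_s) ≥ t * (Q ^ h) ^ (1/2 - d)`, apply the first step;
monotonicity for the remaining vectors. Finally, for `q ≥ 1`, `h = Nat.log Q q`: `Q ^ h ≤ q < Q ^ (h + 1)`, `(Q ^ h) ^ (1/2 - d) ≥ (q / Q) ^ (1/2 - d)`. (`t ≤ 0` and `q = 0` are trivial: `0 ^ (1/2 - d) = 0`.) -/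
def Stmt_GRP : Prop := ∀ (N Q : ℕ) (d : ℝ) (u : Seminorm ℝ (Fin N → ℝ)) (B : Finset (Fin N)), 2 ≤ Q → 0 < d → d ≤ 1 / 4 → Unc u →
  (∀ y : Fin Q → Fin N → ℝ, Dis y → (∀ s, ∀ j ∉ B, y s j = 0) → (∀ s, u (y s) = 1) → (Q : ℝ) ^ (1 / 2 - d) ≤ u (∑ s, y s)) →
  ∀ (q : ℕ) (x : Fin q → Fin N → ℝ) (t : ℝ), Dis x → (∀ s, ∀ j ∉ B, x s j = 0) → (∀ s, t ≤ u (x s)) →
    ((q : ℝ) / Q) ^ (1 / 2 - d) * t ≤ u (∑ s, x s)

/-- **LEI** (200; uses GRP). FROM PARTS TO EVERYTHING. `N ≤ J * (N - k)`, so `N - k ≥ 1` (`N ≥ 1`; `N = 0`: all `u (x s) = 0`, so `t ≤ 0` or `q = 0`). Parts `B_i = {j : i * (N - k) ≤ j < (i + 1) * (N - k)}`, `i < J`, with at most `N - k` elements; `P_i x` = `x` on `B_i`, `0` elsewhere. Let `t > 0`, `q ≥ 1`. `u (x s) ≤ ∑ i, u (P_i (x s))`, so some `i = i(s)` has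
`u (P_i (x s)) ≥ t / J`. Some `i` has `S = {s : i(s) = i}` with `J * S.card ≥ q`. `u (∑ s, x s) ≥ u (∑ s ∈ S, P_i (x s)) ≥ (S.card / Q) ^ (1/2 - d) * (t / J)` (`Unc`, disjointness; GRP for `B_i`, reindex `S` by `Fin S.card`) `≥ (q / (J * Q)) ^ (1/2 - d) * (t / J) ≥ q ^ (1/2 - d) * (1 / (J * Q)) * (t / J)` (`1 / (J Q) ≤ 1`, `1/2 - d ≤ 1`). -/
def Stmt_LEI : Prop := ∀ (N Q k J : ℕ) (d : ℝ) (u : Seminorm ℝ (Fin N → ℝ)), 2 ≤ Q → 1 ≤ J → 0 < d → d ≤ 1 / 4 → Unc u → k ≤ N → N ≤ J * (N - k) →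
  (∀ (B : Finset (Fin N)) (y : Fin Q → Fin N → ℝ), B.card + k ≤ N → Dis y → (∀ s, ∀ j ∉ B, y s j = 0) → (∀ s, u (y s) = 1) →
    (Q : ℝ) ^ (1 / 2 - d) ≤ u (∑ s, y s)) →
  ∀ (q : ℕ) (x : Fin q → Fin N → ℝ) (t : ℝ), Dis x → (∀ s, t ≤ u (x s)) → (q : ℝ) ^ (1 / 2 - d) * (t / (J * J * Q)) ≤ u (∑ s, x s)

/-- **LW2** (170; uses nothing). LOWER `2`-ESTIMATE. `z : Fin q → Fin N → ℝ` disjoint, `q ≤ N`, `T = u (∑ z)`, `t l = u (z l) ≤ T`. Sort: `σ = Tuple.sort t` (`Tuple.monotone_sort`: `t ∘ σ` is monotone). For `i : Fin q` the `q - i` vectors `z (σ l)`, `l ≥ i`, satisfy `u (z (σ l)) ≥ t (σ i)`, so by the hypothesis (reindexed) and `Unc`: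
`c * (q - i) ^ (1/2 - d) * t (σ i) ≤ T`. Square: `t (σ i) ^ 2 ≤ (T / c) ^ 2 * (q - i) ^ (2 d - 1) ≤ (T / c) ^ 2 * N ^ (2 d) * (1 / (q - i))`. Sum over `i`: `∑ i, 1 / (q - i) ≤ 1 + log q ≤ 1 + log N` (`harmonic_le_one_add_log`, or by induction). `L ^ 2 = c⁻² N ^ (2 d) (1 + log N)`. -/
def Stmt_LW2 : Prop := ∀ (N : ℕ) (c d : ℝ) (u : Seminorm ℝ (Fin N → ℝ)), 0 < c → 0 < d → d ≤ 1 / 4 → Unc u →
  (∀ (q : ℕ) (x : Fin q → Fin N → ℝ) (t : ℝ), Dis x → (∀ s, t ≤ u (x s)) → (q : ℝ) ^ (1 / 2 - d) * (c * t) ≤ u (∑ s, x s)) →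
  Low2 (c⁻¹ * (N : ℝ) ^ d * Real.sqrt (1 + Real.log N)) u

/-! ## 3. The Euclidean subspace -/

/-- **LOZ** (180; uses nothing). WEIGHTS. `N ≥ 1`. On the compact set `{w : 0 ≤ w, u w ≤ 1}` (bounded because `u` is a norm on a finite dimensional space; closed because `u` is continuous: `|u x| ≤ ∑ |x j| u (e_j)`) the product `∏ j, w j` has a maximum, which is positive. For `x ≥ 0` (coordinatewise) and `s > 0` the vector `(w + s x) / u (w + s x)` is in the set, so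
`∏ (w j + s x j) ≤ u (w + s x) ^ N * ∏ w j ≤ (1 + s u x) ^ N * ∏ w j`. `1 + s ∑ x j / w j ≤ ∏ (1 + s x j / w j) ≤ (1 + s u x) ^ N ≤ exp (s N u x)`; for `s N u x ≤ 1`: `exp y ≤ 1 + y + y ^ 2`; divide by `s`, `s → 0`: `∑ x j / w j ≤ N u x`. General `x`: `u |x| = u x`. -/
def Stmt_LOZ : Prop := ∀ (N : ℕ) (u : Seminorm ℝ (Fin N → ℝ)), 1 ≤ N → Unc u → Def u →
  ∃ w : Fin N → ℝ, (∀ j, 0 < w j) ∧ u w ≤ 1 ∧ ∀ x : Fin N → ℝ, ∑ j, |x j| / w j ≤ N * u x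

/-- **GRE** (180; uses nothing). GREEDY REMOVAL. Let `κ = L / √η`. Call `A` bad if `κ * √(A.card / N) < u (ind A)` (then `A` is not empty). Among the finite sets `F` of pairwise disjoint bad sets (`Finset (Finset (Fin N))`, not empty family: `F = ∅`) take one with the maximal number of members (at most `N`: nonempty disjoint subsets of `Fin N`). `G` = the complement of the union. If `A ⊆ G` is bad then `insert A F` contradicts maximality.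
Enumerate `F` by `Fin q`, `q ≤ N`, `z l = ind (A l)`: `Low2`, `Unc`: `κ ^ 2 * ∑ (A l).card / N ≤ ∑ u (z l) ^ 2 ≤ L ^ 2 * u (∑ z) ^ 2 ≤ L ^ 2 * u 1 ^ 2 ≤ L ^ 2`, so `∑ (A l).card ≤ N * L ^ 2 / κ ^ 2 = η * N`, and `G.card ≥ (1 - η) N`. (`N = 0`: `G = ∅`.) -/
def Stmt_GRE : Prop := ∀ (N : ℕ) (L η : ℝ) (u : Seminorm ℝ (Fin N → ℝ)), 1 ≤ L → 0 < η → η ≤ 1 → Unc u → Low2 L u → u (fun _ => 1) ≤ 1 →
  ∃ G : Finset (Fin N), (1 - η) * N ≤ G.card ∧ ∀ A ⊆ G, u (ind A) ≤ L / Real.sqrt η * Real.sqrt ((A.card : ℝ) / N)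

/-- **LVL** (180; uses nothing). UPPER ESTIMATE FROM INDICATOR FUNCTIONS. Sort `|x|`: `σ = Tuple.sort (fun j => |x j|)`, `α i = |x (σ i)|` increasing, `i : Fin g`, `A i = {σ l : l ≥ i}` with `g - i` elements. `|x| = ∑ i, (α i - α (i-1)) • ind (A i)` (`α (-1) = 0`; at the coordinate `σ l`: `∑ i ≤ l, (α i - α (i-1)) = α l`). So
`u x ≤ ∑ i, (α i - α (i-1)) * κ * √(g - i) = κ * ∑ i, α i * (√(g - i) - √(g - i - 1))` (Abel summation; or prove by induction on `g`) and `√n - √(n - 1) ≤ 1 / √n`: `≤ κ * ∑ i, α i / √(g - i) ≤ κ * √(∑ α i ^ 2) * √(∑ 1 / (g - i))` (Cauchy-Schwarz), `∑ i, 1 / (g - i) ≤ 1 + log g` (`harmonic_le_one_add_log`, or by induction).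
An alternative: dyadic levels of `|x|` give the bound with a worse constant, which is NOT sufficient; use the sorted version. -/
def Stmt_LVL : Prop := ∀ (g : ℕ) (κ : ℝ) (u : Seminorm ℝ (Fin g → ℝ)), 0 ≤ κ → Unc u → (∀ A : Finset (Fin g), u (ind A) ≤ κ * Real.sqrt A.card) →
  ∀ x : Fin g → ℝ, u x ≤ κ * Real.sqrt (1 + Real.log g) * Real.sqrt (∑ j, x j ^ 2)

/-- **VRK** (60; uses `Pool.EH.Stmt_RND`, `Pool.EH.Stmt_PCK`). This is `MP_3e8c7a_h/B_VRT.lean` with the explicit conclusion (its proof shows `(4 / τ)⁻¹ * ‖y‖ ≤ p y` on `E`): copy it. -/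
def Stmt_VRK : Prop := ∀ η A : ℝ, 0 < η → η ≤ 1 → 1 ≤ A → ∃ M : ℝ, 1 ≤ M ∧ ∀ (n : ℕ) (p : Seminorm ℝ (EuclideanSpace ℝ (Fin n))), 2 ≤ η * n →
  (∀ x, p x ≤ ‖x‖) →
  MeasureTheory.volume {x : EuclideanSpace ℝ (Fin n) | p x ≤ 1} ≤
    ENNReal.ofReal (A ^ n) * MeasureTheory.volume (Metric.closedBall (0 : EuclideanSpace ℝ (Fin n)) 1) →
  ∃ E : Submodule ℝ (EuclideanSpace ℝ (Fin n)), (1 - η) * n ≤ finrank ℝ E ∧ ∀ y ∈ E, ‖y‖ ≤ M * p y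

/-- **KSH** (200; uses VRK). KASHIN SUBSPACES OF `ℓ_1`. VRK for `η`, `A = 2` and the seminorm `p x = (∑ |x j|) / √g` on `EuclideanSpace ℝ (Fin g)` (`p x ≤ ‖x‖`: Cauchy-Schwarz; `g ≥ 1`). Volume: `{p ≤ 1} = {∑ |x j| ≤ √g}` has the volume `(√g) ^ g * 2 ^ g / Γ(g + 1)` (`MeasureTheory.volume_sum_rpow_le` with exponent `1`, `Γ 2 = 1`; `PiLp.volume_preserving_ofLp`),
the unit ball has the volume `√π ^ g / Γ(g / 2 + 1)` (`EuclideanSpace.volume_closedBall`). To show: `(√g) ^ g * Γ(g/2 + 1) ≤ Γ(g + 1) * √π ^ g`. Log-convexity (`Real.convexOn_log_Gamma` or `Real.Gamma_mul_add_mul_le_rpow_Gamma_mul_rpow_Gamma` for `1`, `g + 1` with the weights `1/2`): `Γ(g/2 + 1) ^ 2 ≤ Γ(1) Γ(g + 1) = g!`. So it suffices that `g ^ g ≤ g! * π ^ g`,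
which follows from `g ^ g / g! ≤ exp g` (`Real.pow_div_factorial_le_exp`) and `exp 1 ≤ 3 < π`. Transport `E` to `Fin g → ℝ` (`WithLp.linearEquiv 2 ℝ (Fin g → ℝ)`, see `Pool.EH.oL` in `MP_3e8c7a_h/Bodies.lean`; `‖x‖ = √(∑ x j ^ 2)`). -/
def Stmt_KSH : Prop := ∀ η : ℝ, 0 < η → η ≤ 1 → ∃ M₁ : ℝ, 1 ≤ M₁ ∧ ∀ g : ℕ, 2 ≤ η * g →
  ∃ E : Submodule ℝ (Fin g → ℝ), (1 - η) * g ≤ finrank ℝ E ∧ ∀ x ∈ E, Real.sqrt g * Real.sqrt (∑ j, x j ^ 2) ≤ M₁ * ∑ j, |x j|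

/-- **EUS** (220; uses GRE LVL KSH). THE EUCLIDEAN SUBSPACE. `M₀` of KSH for `η`, `M₁ = 2 * M₀ / √η`. GRE: `G`, `g = G.card ≥ (1 - η) N ≥ N / 2`, `η g ≥ 2`. `e : Fin g ≃ G` (`G.equivFin.symm`), `X x j = x (e.symm j)` for `j ∈ G`, `0` otherwise (linear, injective, `X (ind A) = ind (image of A)`, `∑ |X x j| = ∑ |x l|`). `u' = u.comp X` is `Unc`, `u' (ind A) ≤ (L / √η / √N) * √A.card`.
LVL: `u' x ≤ up * |x|_2`, `up = (L / √η / √N) * √(1 + log g)`. KSH for `g`: `E₀`, and for `x ∈ E₀`: `u' x ≥ (∑ |x l|) / N ≥ low * |x|_2`, `low = √g / (M₀ N)`. `E = E₀.map X`, `finrank E ≥ (1 - η) g ≥ (1 - η)² N ≥ (1 - 2 η) N`. `T : E → EuclideanSpace ℝ (Fin g)`, `T (X x) = low • x`: `‖T y‖ ≤ u y ≤ (up / low) ‖T y‖`,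
`up / low = (L / √η) M₀ √(1 + log g) √(N / g) ≤ (L / √η) M₀ √2 √(1 + log N) ≤ M₁ L √(1 + log N)`. -/
def Stmt_EUS : Prop := ∀ η : ℝ, 0 < η → η ≤ 1 / 2 → ∃ M₁ : ℝ, 1 ≤ M₁ ∧ ∀ (N : ℕ) (L : ℝ) (u : Seminorm ℝ (Fin N → ℝ)), 4 ≤ η * N → 1 ≤ L → Unc u →
  Low2 L u → u (fun _ => 1) ≤ 1 → (∀ x : Fin N → ℝ, ∑ j, |x j| ≤ N * u x) →
  ∃ E : Submodule ℝ (Fin N → ℝ), (1 - 2 * η) * N ≤ finrank ℝ E ∧ Pool.EH.Eu (M₁ * L * Real.sqrt (1 + Real.log N)) (u.comp E.subtype)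

/-! ## 4. Assembly -/

/-- **CLO** (60; uses nothing). CLOSENESS ON BOUNDED CODIMENSION GIVES `Iso`. `Pool.Agent.MP3e8c7ak.COD` (import `Pool.Agent.Work.MP_3e8c7a_k.B_COD`) for all `m ≤ K` and `D * D`; exactly as in the proof of `close_bodies` in `MP_3e8c7a_gg/Bodies.lean` (part `h4`). -/
def Stmt_CLO : Prop := ∀ (D : ℝ) (K : ℕ), 1 ≤ D → ∃ C : ℝ, 1 ≤ C ∧ ∀ (V : Type) [AddCommGroup V] [Module ℝ V] [FiniteDimensional ℝ V]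
  (p r : Seminorm ℝ V), Def p → Def r → ∀ (Y : Submodule ℝ V) (Λ : ℝ), finrank ℝ V ≤ finrank ℝ Y + K → 0 < Λ →
  (∀ x ∈ Y, p x ≤ D * (Λ * r x) ∧ Λ * r x ≤ D * p x) → Iso C p r

/-- **THEOREM H, polynomial form** (helper11, part 2 of `MP_3e8c7a_h`; not a block of this table). -/
def Stmt_HPO : Prop := ∀ α ε b : ℝ, 0 < α → 0 < ε → ε ≤ 1 → 1 ≤ b → ∃ K : ℕ, 1 ≤ K ∧ ∀ D : ℝ, 1 ≤ D →
  ∀ (V : Type) [AddCommGroup V] [Module ℝ V] [FiniteDimensional ℝ V] (p r : Seminorm ℝ V) (k : ℕ), Def p → Def r → Hyp b k p r →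
  α * finrank ℝ V ≤ k → ∀ E : Submodule ℝ V, k + ε * finrank ℝ V ≤ finrank ℝ E → Pool.EH.Eu D (p.comp E.subtype) → Iso ((K * D) ^ K) p r

/-- **UNI** (280; uses RIG LEI LW2 LOZ EUS CLO HPO and `Pool.EH.Stmt_LOB`). THE THEOREM FOR NORMS. `n = finrank V`, `N ≤ n` (`i` is injective). `K` = HPO for `α, ε / 2, b`; `d = min (1/4) (δ / (2 K))`; `Q, K₁, D₁` = RIG for `d, b, M`; `C₁` = CLO for `D₁, K₁`; `J = ⌈1 / ε⌉₊`; `c = 1 / (J J Q)`; `M₁` = EUS for `ε / 4`; `n₀ ≥ K₁ / α`, `n₀ ≥ 16 / ε²`.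
`n < n₀`: LOB for `n₀` and `Eu.iso` (as in `MP_3e8c7a_h/Bodies.lean`). `n ≥ n₀`: LOZ for `u`: `w`; `Δ x j = w j * x j`, `u' = u.comp Δ`, `i' = i ∘ Δ`: `Unc`, `Def`, `u' 1 = u w ≤ 1`, `∑ |x j| ≤ N u' x`, `p (i' x) ≤ u' x ≤ M p (i' x)`. If some `B`, `y` are as in RIG for `u'`, then `Iso C₁ p r`. Otherwise LEI (`N - k ≥ ε n ≥ ε N`, so
`N ≤ J (N - k)`), LW2 with `c`: `Low2 L u'`, `L = c⁻¹ N ^ d √(1 + log N) ≥ 1`. EUS (`4 ≤ (ε / 4) N` since `N ≥ ε n`): `E`, `Eu D' (u'.comp E.subtype)`, `D' = M₁ c⁻¹ N ^ d (1 + log N) ≤ M₁ c⁻¹ (1 + 1 / d) N ^ (2 d)` (`Real.log_le_rpow_div`). `E' = E.map i'`: `finrank E' = finrank E ≥ (1 - ε / 2) N ≥ N - (ε / 2) n ≥ k + (ε / 2) n`,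
`Eu (M D') (p.comp E'.subtype)` (`Eu.equiv`, `Eu.comp` with the inverse of `E ≃ E.map i'`). HPO: `Iso ((K M D') ^ K) p r`, and `(K M D') ^ K ≤ (K M M₁ c⁻¹ (1 + 1 / d)) ^ K * N ^ (2 d K) ≤ C₃ n ^ δ`. `C` = the sum of all constants (`n ^ δ ≥ 1`). -/
def Stmt_UNI : Prop := ∀ α ε b M δ : ℝ, 0 < α → 0 < ε → ε ≤ 1 → 1 ≤ b → 1 ≤ M → 0 < δ → ∃ C : ℝ, 1 ≤ C ∧
  ∀ (V : Type) [AddCommGroup V] [Module ℝ V] [FiniteDimensional ℝ V] (p r : Seminorm ℝ V) (k N : ℕ) (u : Seminorm ℝ (Fin N → ℝ))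
    (i : (Fin N → ℝ) →ₗ[ℝ] V), Def p → Def r → Hyp b k p r → 1 ≤ finrank ℝ V → α * finrank ℝ V ≤ k → k + ε * finrank ℝ V ≤ N → Unc u → Def u →
    (∀ x, p (i x) ≤ u x ∧ u x ≤ M * p (i x)) → Iso (C * (finrank ℝ V : ℝ) ^ δ) p r

/-- **SGU** (100; uses nothing). SIGN INVARIANT SEMINORMS ARE LATTICE SEMINORMS. `x j = θ j * y j` with `|θ j| ≤ 1` (`θ j = x j / y j`, `0` if `y j = 0`). Claim, by induction on the finite set `S`: if `|θ j| ≤ 1` for all `j` and `|θ j| = 1` for `j ∉ S` then `u (θ y) ≤ u y`. Step (`insert j S`): `θ = (1 + θ j)/2 θ⁺ + (1 - θ j)/2 θ⁻`, where `θ⁺`, `θ⁻` are `θ` with the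
coordinate `j` replaced by `1`, `-1`; triangle inequality. -/
def Stmt_SGU : Prop := ∀ (N : ℕ) (u : Seminorm ℝ (Fin N → ℝ)),
  (∀ (s : Fin N → ℝ) (x : Fin N → ℝ), (∀ j, |s j| = 1) → u (fun j => s j * x j) ≤ u x) → Unc u

end Pool.UN
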